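import Pool.Agent.Lib.EB40.CombC

/-!
# Quartet systems: the bound for the number of functions
-/

namespace EB40

variable {K I : Type*}

lemma PairE.symI {v : K → K → I → I → ℤ} (hI : ∀ x y i j, v x y i j = v x y j i)
    {x y : K} {i j : I} (h : PairE v x y i j) : PairE v x y j i := by
  refine ⟨h.1, fun p pj pi => ?_⟩
  have h1 := h.2 p pi pj
  have h2 := hI x y i j
  constructor <;> omega

lemma PairE.symK {v : K → K → I → I → ℤ} (hK : ∀ x y i j, v x y i j = v y x i j)
    {x y : K} {i j : I} (h : PairE v x y i j) : PairE v y x i j := by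
  refine ⟨h.1.symm, fun p pi pj => ?_⟩
  have h1 := h.2 p pi pj
  rw [hK x y, hK x y, hK x y] at h1
  exact h1

lemma SingE.symK {v : K → K → I → I → ℤ} (hK : ∀ x y i j, v x y i j = v y x i j)
    {x y : K} {m : I} (h : SingE v x y m) : SingE v y x m := by
  refine ⟨h.1.symm, fun p q pm qm pq => ?_⟩
  have h1 := h.2 p q pm qm pq
  rw [hK x y, hK x y, hK x y] at h1
  exact h1

/-- the cluster at the pair `{x, y}` coded by an unordered pair of indices -/
def Good (v : K → K → I → I → ℤ) (s : Sym2 I) (x y : K) : Prop :=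
  (∃ m, s = s(m, m) ∧ SingE v x y m) ∨ (∃ i j, i ≠ j ∧ s = s(i, j) ∧ PairE v x y i j)

lemma Good.symK {v : K → K → I → I → ℤ} (hK : ∀ x y i j, v x y i j = v y x i j)
    {x y : K} {s : Sym2 I} (h : Good v s x y) : Good v s y x := by
  rcases h with ⟨m, h1, h2⟩ | ⟨i, j, h1, h2, h3⟩
  · exact Or.inl ⟨m, h1, h2.symK hK⟩
  · exact Or.inr ⟨i, j, h1, h2, h3.symK hK⟩

variable [DecidableEq K]

lemma Good.unique {v : K → K → I → I → ℤ} (S : Sys v)
    (h3 : ∀ i j : I, ∃ p, p ≠ i ∧ p ≠ j)
    (h4 : ∀ i j m : I, ∃ p, p ≠ i ∧ p ≠ j ∧ p ≠ m)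
    {x y : K} {s t : Sym2 I} (hs : Good v s x y) (ht : Good v t x y) : s = t := by
  -- a pair and a singleton are incompatible
  have hps : ∀ i j m, i ≠ j → PairE v x y i j → SingE v x y m → False := by
    intro i j m ij hp hq
    obtain ⟨xy, hp⟩ := hp
    obtain ⟨-, hq⟩ := hq
    obtain ⟨p, pi, pj, pm⟩ := h4 i j m
    have e1 := hp p pi pj
    have e2 := S.symI x y i j
    have e3 := S.symI x y i p
    have e4 := S.symI x y j p
    by_cases mi : i = m
    · subst mi
      have e5 := hq j p ij.symm pi (Ne.symm pj)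
      omega
    by_cases mj : j = m
    · subst mj
      have e5 := hq i p ij pj (Ne.symm pi)
      omega
    have e5 := hq i j mi mj ij
    have e6 := hq i p mi pm (Ne.symm pi)
    omega
  rcases hs with ⟨m, hs1, hs2⟩ | ⟨i, j, ij, hs1, hs2⟩
  · rcases ht with ⟨m', ht1, ht2⟩ | ⟨i', j', ij', ht1, ht2⟩
    · by_cases mm : m = m'
      · rw [hs1, ht1, mm]
      · exfalso
        obtain ⟨p, pm, pm'⟩ := h3 m m'
        have e1 := hs2.2 p m' pm (Ne.symm mm) pm'
        have e2 := ht2.2 p m pm' mm pm
        omega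
    · exact (hps i' j' m ij' ht2 hs2).elim
  · rcases ht with ⟨m', ht1, ht2⟩ | ⟨i', j', ij', ht1, ht2⟩
    · exact (hps i j m' ij hs2 ht2).elim
    · -- two pairs
      have hshare : ∀ a b c, a ≠ b → a ≠ c → b ≠ c → PairE v x y a b → PairE v x y a c →
          False := by
        intro a b c ab ac bc h1 h2
        have e1 := h1.2 c ac.symm bc.symm
        have e2 := h2.2 b ab.symm bc
        omega
      by_cases c1 : i = i'
      · subst c1
        by_cases c2 : j = j'
        · rw [hs1, ht1, c2]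
        · exact (hshare i j j' ij ij' c2 hs2 ht2).elim
      by_cases c3 : i = j'
      · subst c3
        by_cases c4 : j = i'
        · subst c4
          rw [hs1, ht1, Sym2.eq_swap]
        · exact (hshare i j i' ij c1 c4 hs2 (ht2.symI S.symI)).elim
      by_cases c5 : j = i'
      · subst c5
        exact (hshare j i j' ij.symm ij' c3 (hs2.symI S.symI) ht2).elim
      by_cases c6 : j = j'
      · subst c6
        exact (hshare j i i' ij.symm (Ne.symm ij') c1 (hs2.symI S.symI)
          (ht2.symI S.symI)).elim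
      exact (S.not_two_pairs ij c5 c1 c3 c6 ij' hs2 ht2).elim

/-- **Count**: at least four functions need at least as many labels besides infinity. -/
theorem Sys.card_le [Fintype K] [Fintype I] [DecidableEq I] {v : K → K → I → I → ℤ} (S : Sys v)
    (hK : ∀ x y i j, v x y i j = v y x i j) (h4 : 4 ≤ Fintype.card I) :
    Fintype.card I + 1 ≤ Fintype.card K := by
  have hex : ∀ s : Finset I, s.card ≤ 3 → ∃ p, p ∉ s := by
    intro s hs
    by_contra hcon
    push Not at hcon
    have : Fintype.card I ≤ s.card := by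
      rw [← Finset.card_univ]
      exact Finset.card_le_card fun a _ => hcon a
    omega
  have h3' : ∀ i j : I, ∃ p, p ≠ i ∧ p ≠ j := by
    intro i j
    obtain ⟨p, hp⟩ := hex {i, j} ((Finset.card_le_two).trans (by norm_num))
    rw [Finset.mem_insert, Finset.mem_singleton, not_or] at hp
    exact ⟨p, hp⟩
  have h4' : ∀ i j m : I, ∃ p, p ≠ i ∧ p ≠ j ∧ p ≠ m := by
    intro i j m
    obtain ⟨p, hp⟩ := hex {i, j, m} Finset.card_le_three
    rw [Finset.mem_insert, Finset.mem_insert, Finset.mem_singleton, not_or, not_or] at hp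
    exact ⟨p, hp⟩
  have hgood : ∀ s : Sym2 I, ∃ x y, x ≠ y ∧ Good v s x y := by
    intro s
    induction s using Sym2.ind with
    | _ i j =>
      by_cases ij : i = j
      · subst ij
        obtain ⟨a, ha, -⟩ := h3' i i
        obtain ⟨b, hb1, hb2⟩ := h3' i a
        obtain ⟨p, hp1, hp2, hp3⟩ := h4' i a b
        obtain ⟨x, y, h⟩ := (S.exists_both (i := a) (j := b) (m := i) (p := p) (Ne.symm hb2)
          hb1 ha (Ne.symm hp2) (Ne.symm hp3) (Ne.symm hp1)).2
        exact ⟨x, y, h.1, Or.inl ⟨i, rfl, h⟩⟩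
      · obtain ⟨m, hm1, hm2⟩ := h3' i j
        obtain ⟨p, hp1, hp2, hp3⟩ := h4' i j m
        obtain ⟨x, y, h⟩ := (S.exists_both (i := i) (j := j) (m := m) (p := p) ij
          (Ne.symm hm2) (Ne.symm hm1) (Ne.symm hp1) (Ne.symm hp2) (Ne.symm hp3)).1
        exact ⟨x, y, h.1, Or.inr ⟨i, j, ij, rfl, h⟩⟩
  choose fx fy hne hg using hgood
  have hinj : Function.Injective
      (fun s : Sym2 I => (⟨s(fx s, fy s), by simpa using hne s⟩ : {a : Sym2 K // ¬ a.IsDiag})) := by
    intro s t hst
    simp only [Subtype.mk.injEq, Sym2.eq_iff] at hst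
    have h1 := hg s
    have h2 := hg t
    rcases hst with ⟨e1, e2⟩ | ⟨e1, e2⟩
    · rw [e1, e2] at h1
      exact h1.unique S h3' h4' h2
    · rw [e1, e2] at h1
      exact h1.unique S h3' h4' (h2.symK hK)
  have hcard := Fintype.card_le_of_injective _ hinj
  rw [Sym2.card, Sym2.card_subtype_not_diag] at hcard
  by_contra hcon
  push Not at hcon
  have h5 : (Fintype.card K).choose 2 ≤ (Fintype.card I).choose 2 :=
    Nat.choose_le_choose 2 (by omega)
  have h6 : (Fintype.card I).choose 2 < (Fintype.card I + 1).choose 2 := by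
    have h7 := Nat.choose_succ_succ' (Fintype.card I) 1
    rw [Nat.choose_one_right] at h7
    norm_num only at h7
    omega
  omega

end EB40
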