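import Pool.Agent.Lib.EB40.Quartet
import Pool.Agent.Lib.EB40.CombD

/-!
# More than `k` functions whose differences are products of root differences
-/

namespace EB40

open MvPolynomial Finset

section Abstract

variable {K I : Type*} [DecidableEq K]

/-- the three orders agree everywhere -/
def Cst (v : K → K → I → I → ℤ) (i j m : I) : Prop :=
  ∀ x y, x ≠ y → v x y i j = v x y j m ∧ v x y j m = v x y i m

lemma cst_step {v : K → K → I → I → ℤ} (hs : ∀ x y i j, v x y i j = v x y j i)
    (alt : ∀ i j m, i ≠ j → j ≠ m → i ≠ m → Cst v i j m ∨ ∃ α β γ δ, Typ v i j m α β γ δ)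
    {i j m p : I} (ij : i ≠ j) (jm : j ≠ m) (im : i ≠ m) (ip : i ≠ p) (jp : j ≠ p) (mp : m ≠ p)
    (h : Cst v i j m) : Cst v i j p := by
  rcases alt i j p ij jp ip with h1 | ⟨α, β, γ, δ, h1⟩
  · exact h1
  exfalso
  obtain ⟨⟨a1, a2⟩, ⟨a3, a4⟩, ⟨a5, a6⟩, -, -, -⟩ := h1.vals
  obtain ⟨b1, b2⟩ := h α β h1.ab
  obtain ⟨b3, b4⟩ := h γ δ h1.cd
  obtain ⟨b5, b6⟩ := h α γ h1.ac
  have n1 : ¬ Nd v i m p α β := by unfold Nd; omega
  have n2 : ¬ Nd v i m p γ δ := by unfold Nd; omega
  rcases alt i m p im mp ip with h2 | ⟨α', β', γ', δ', h2⟩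
  · obtain ⟨c1, c2⟩ := h2 α β h1.ab
    omega
  have n3 : ¬ Nd v i m p α γ := by
    have s1 := hs α γ m p
    have s2 := hs α γ i m
    have s3 := hs α γ i p
    unfold Nd
    rcases h2.key hs h1.ab h1.ac h1.ad h1.bc h1.bd h1.cd n1 n2 with (h | h) | (h | h) | (h | h) <;>
    · obtain ⟨⟨d1, d2⟩, ⟨d3, d4⟩, ⟨d5, d6⟩, ⟨d7, d8⟩, ⟨d9, d10⟩, ⟨d11, d12⟩⟩ := h.vals
      omega
  have p1 := h2.pat h1.ac
  rcases alt j m p jm mp jp with h3 | ⟨α'', β'', γ'', δ'', h3⟩
  · obtain ⟨c1, c2⟩ := h3 α γ h1.ac
    omega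
  have p2 := h3.pat h1.ac
  unfold Pat at p1 p2
  unfold Nd at n3
  omega

lemma const_or_typ {v : K → K → I → I → ℤ} (hs : ∀ x y i j, v x y i j = v x y j i)
    (alt : ∀ i j m, i ≠ j → j ≠ m → i ≠ m → Cst v i j m ∨ ∃ α β γ δ, Typ v i j m α β γ δ) :
    (∃ F : K → K → ℤ, ∀ x y i j, x ≠ y → i ≠ j → v x y i j = F x y) ∨
    (∀ i j m, i ≠ j → j ≠ m → i ≠ m → ∃ α β γ δ, Typ v i j m α β γ δ) := by
  by_cases hall : ∀ i j m, i ≠ j → j ≠ m → i ≠ m → ∃ α β γ δ, Typ v i j m α β γ δ
  · exact Or.inr hall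
  left
  push Not at hall
  obtain ⟨i, j, m, ij, jm, im, hno⟩ := hall
  have hc : Cst v i j m := by
    rcases alt i j m ij jm im with h | ⟨α, β, γ, δ, h⟩
    · exact h
    · exact absurd h (hno α β γ δ)
  have h1 : ∀ p, i ≠ p → j ≠ p → Cst v i j p := by
    intro p ip jp
    by_cases mp : m = p
    · subst mp; exact hc
    · exact cst_step hs alt ij jm im ip jp mp hc
  refine ⟨fun x y => v x y i j, ?_⟩
  intro x y a b xy ab
  show v x y a b = v x y i j
  have e1 : ∀ p, i ≠ p → j ≠ p → v x y i p = v x y i j ∧ v x y j p = v x y i j := by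
    intro p ip jp
    obtain ⟨c1, c2⟩ := h1 p ip jp x y xy
    exact ⟨by omega, by omega⟩
  have e2 : ∀ p q, i ≠ p → j ≠ p → i ≠ q → j ≠ q → p ≠ q → v x y p q = v x y i j := by
    intro p q ip jp iq jq pq
    have h2 : Cst v i p j := by
      intro x y xy
      obtain ⟨c1, c2⟩ := h1 p ip jp x y xy
      have s1 := hs x y p j
      exact ⟨by omega, by omega⟩
    have h3 := cst_step hs alt ip jp.symm ij iq pq jq h2
    obtain ⟨c1, c2⟩ := h3 x y xy
    obtain ⟨c3, c4⟩ := e1 p ip jp
    omega
  by_cases ia : i = a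
  · subst ia
    by_cases jb : j = b
    · rw [jb]
    · exact (e1 b ab jb).1
  by_cases ja : j = a
  · subst ja
    by_cases ib : i = b
    · subst ib; exact hs _ _ _ _
    · exact (e1 b ib ab).2
  by_cases ib : i = b
  · subst ib
    rw [hs]
    exact (e1 a ia ja).1
  by_cases jb : j = b
  · subst jb
    rw [hs]
    exact (e1 a ia ja).2
  exact e2 a b ia ja ib jb ab

end Abstract

lemma prop_exps {k : ℕ} {c₁ c₂ a b : ℂ} (h1 : c₁ ≠ 0) (h2 : c₂ ≠ 0) (hab : ¬ (a = 0 ∧ b = 0))
    {u v : Fin k × Fin k → ℕ} (h : C a * (C c₁ * mono u) = C b * (C c₂ * mono v)) :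
    ∀ e ∈ E k, u e = v e := by
  have hu := mono_ne_zero u
  have hv := mono_ne_zero v
  have ha : a ≠ 0 := by
    rintro rfl
    rw [C_0, zero_mul] at h
    have hb : b ≠ 0 := fun hb => hab ⟨rfl, hb⟩
    exact (mul_ne_zero ((isUnit_C' hb).ne_zero) (mul_ne_zero (isUnit_C' h2).ne_zero hv)) h.symm
  have hb : b ≠ 0 := by
    rintro rfl
    rw [C_0, zero_mul] at h
    exact (mul_ne_zero ((isUnit_C' ha).ne_zero) (mul_ne_zero (isUnit_C' h1).ne_zero hu)) h
  apply exps_unique (mul_ne_zero ha h1) (mul_ne_zero hb h2)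
  rw [C_mul, C_mul, mul_assoc, mul_assoc]
  exact h

/-- the orders of the differences -/
noncomputable def ord {k : ℕ} {I : Type*} (D : I → I → Fin k × Fin k → ℕ)
    (x y : Option (Fin k)) (i j : I) : ℤ := ext (sy (D i j)) x y

lemma ord_congr {k : ℕ} {I : Type*} {D : I → I → Fin k × Fin k → ℕ} {i j i' j' : I}
    (h : ∀ e ∈ E k, D i j e = D i' j' e) (x y : Option (Fin k)) :
    ord D x y i j = ord D x y i' j' := by
  unfold ord
  have : sy (D i j) = sy (D i' j') := by
    funext a b
    unfold sy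
    by_cases hab : a = b
    · rw [if_pos hab, if_pos hab]
    · rw [if_neg hab, if_neg hab, h _ (mk_mem hab)]
  rw [this]

lemma ord_some {k : ℕ} {I : Type*} (D : I → I → Fin k × Fin k → ℕ) (i j : I)
    {e : Fin k × Fin k} (he : e ∈ E k) : ord D (some e.1) (some e.2) i j = D i j e := by
  show sy (D i j) e.1 e.2 = _
  rw [sy_of_ne _ (mem_E.1 he).ne, mk_of_mem he]

/-- **Rigidity of families of polynomials whose differences are products of root differences** -/
theorem all_const {k : ℕ} {I : Type*} [Fintype I] [DecidableEq I] (h4 : 4 ≤ Fintype.card I)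
    (hk : k < Fintype.card I) {G : I → MvPolynomial (Fin k) ℂ} {c : I → I → ℂ}
    {D : I → I → Fin k × Fin k → ℕ} (hc : ∀ i j, i ≠ j → c i j ≠ 0)
    (hG : ∀ i j, i ≠ j → G i - G j = C (c i j) * mono (D i j))
    (hd : ∀ i j i' j', i ≠ j → i' ≠ j' → ∑ e ∈ E k, D i j e = ∑ e ∈ E k, D i' j' e)
    (i j i' j' : I) (ij : i ≠ j) (ij' : i' ≠ j') (e : Fin k × Fin k) (he : e ∈ E k) :
    D i j e = D i' j' e := by
  have hs : ∀ x y i j, ord D x y i j = ord D x y j i := by
    intro x y i j
    by_cases h : i = j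
    · subst h; rfl
    · refine ord_congr (prop_exps (hc i j h) (hc j i (Ne.symm h)) (a := 1) (b := -1) (by simp) ?_)
        x y
      rw [← hG i j h, ← hG j i (Ne.symm h), C_neg, C_1]
      ring
  have alt : ∀ i j m, i ≠ j → j ≠ m → i ≠ m → Cst (ord D) i j m ∨
      ∃ α β γ δ, Typ (ord D) i j m α β γ δ := by
    intro i j m ij jm im
    by_cases hcst : ∀ e ∈ E k, D i j e = D j m e ∧ D j m e = D i m e
    · left
      intro x y _
      exact ⟨ord_congr (fun e he => (hcst e he).1) x y, ord_congr (fun e he => (hcst e he).2) x y⟩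
    · right
      push Not at hcst
      obtain ⟨e₀, he₀, hne⟩ := hcst
      have hrel : C (c i j) * mono (D i j) + C (c j m) * mono (D j m) =
          C (c i m) * mono (D i m) := by
        rw [← hG i j ij, ← hG j m jm, ← hG i m im]
        ring
      obtain ⟨α, β, γ, δ, h⟩ := quartet (hc i j ij) (hc j m jm) (hc i m im) hrel
        (hd i j j m ij jm) (hd i j i m ij im) he₀ (fun h => hne h.1 h.2)
      exact ⟨α, β, γ, δ, ⟨h.ab, h.ac, h.ad, h.bc, h.bd, h.cd, h.val⟩⟩
  rcases const_or_typ hs alt with ⟨F, hF⟩ | htri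
  · have hne : (some e.1 : Option (Fin k)) ≠ some e.2 := by
      intro h
      exact (mem_E.1 he).ne (Option.some.inj h)
    have e1 := hF _ _ i j hne ij
    have e2 := hF _ _ i' j' hne ij'
    rw [ord_some D _ _ he] at e1 e2
    exact_mod_cast e1.trans e2.symm
  · exfalso
    have S : Sys (ord D) := by
      refine ⟨hs, htri, ?_⟩
      intro i j m p ij im ip jm jp mp hx
      have hcontra : ¬ ∀ e ∈ E k, D i j e = D i m e := by
        intro h
        obtain ⟨α, β, γ, δ, ht⟩ := htri i j m ij jm im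
        have := ht.vals.1.1
        rw [ord_congr h α β] at this
        omega
      have hex : ∀ e ∈ E k, D i j e = D m p e ∧ D i m e = D j p e ∧ D i p e = D j m e := by
        intro e he
        have hne : (some e.1 : Option (Fin k)) ≠ some e.2 := by
          intro h
          exact (mem_E.1 he).ne (Option.some.inj h)
        have := hx _ _ hne
        simp only [ord_some D _ _ he] at this
        exact_mod_cast this
      have m1 : mono (D m p) = mono (D i j) := by
        unfold mono
        exact Finset.prod_congr rfl fun e he => by rw [(hex e he).1]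
      have m2 : mono (D j p) = mono (D i m) := by
        unfold mono
        exact Finset.prod_congr rfl fun e he => by rw [(hex e he).2.1]
      have m3 : mono (D i p) = mono (D j m) := by
        unfold mono
        exact Finset.prod_congr rfl fun e he => by rw [(hex e he).2.2]
      have g1 := hG i j ij
      have g2 := hG i m im
      have g3 := hG i p ip
      have g4 := hG m p mp
      have g5 := hG j p jp
      have g6 := hG j m jm
      rw [m1] at g4
      rw [m2] at g5
      rw [m3] at g3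
      have c1 := hc i j ij
      have c2 := hc i m im
      have c3 := hc i p ip
      have c4 := hc m p mp
      have c5 := hc j p jp
      have c6 := hc j m jm
      -- `z - y = κ x`, `z - x = μ y`, `y - x = ν z`
      have r1 : G m - G p = C (c m p / c i j) * (G i - G j) := by
        rw [g4, g1, ← mul_assoc, ← C_mul, div_mul_cancel₀ _ c1]
      have r2 : G j - G p = C (c j p / c i m) * (G i - G m) := by
        rw [g5, g2, ← mul_assoc, ← C_mul, div_mul_cancel₀ _ c2]
      have r3 : G j - G m = C (c j m / c i p) * (G i - G p) := by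
        rw [g6, g3, ← mul_assoc, ← C_mul, div_mul_cancel₀ _ c3]
      set κ := c m p / c i j with hκ
      set μ := c j p / c i m with hμ
      set ν := c j m / c i p with hν
      by_cases hk1 : κ = 1 ∧ μ = 1
      · obtain ⟨k1, k2⟩ := hk1
        rw [k1, C_1, one_mul] at r1
        rw [k2, C_1, one_mul] at r2
        apply hcontra
        refine prop_exps c1 c2 (a := 1 + ν) (b := 1 - ν) ?_ ?_
        · rintro ⟨q1, q2⟩
          have : (2 : ℂ) = 0 := by linear_combination q1 + q2
          norm_num at this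
        · rw [← g1, ← g2, C_add, C_sub, C_1]
          linear_combination -r3 - C ν * r1
      · apply hcontra
        refine prop_exps c1 c2 (a := κ - 1) (b := μ - 1) ?_ ?_
        · rintro ⟨q1, q2⟩
          exact hk1 ⟨sub_eq_zero.1 q1, sub_eq_zero.1 q2⟩
        · rw [← g1, ← g2, C_sub, C_sub, C_1]
          linear_combination r2 - r1
    have hle := S.card_le (fun x y i j => ext_comm (sy_comm (D i j)) x y) h4
    rw [Fintype.card_option, Fintype.card_fin] at hle
    omega

end EB40
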