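import Mathlib

/-!
# Sums of terms of different orders at `0+`
-/

namespace EB40

open Filter Asymptotics Topology

lemma zpow_littleO {m n : ℤ} (h : m < n) :
    (fun σ : ℝ => (σ ^ n : ℝ)) =o[𝓝[>] (0:ℝ)] (fun σ : ℝ => (σ ^ m : ℝ)) := by
  have h1 : (fun σ : ℝ => (σ ^ n : ℝ)) =ᶠ[𝓝[>] (0:ℝ)]
      (fun σ : ℝ => σ ^ (n - m).toNat * (σ ^ m : ℝ)) := by
    filter_upwards [self_mem_nhdsWithin] with σ hσ
    have hσ' : (σ:ℝ) ≠ 0 := ne_of_gt hσ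
    rw [← zpow_natCast, Int.toNat_of_nonneg (by omega), ← zpow_add₀ hσ']
    congr 1; omega
  refine h1.trans_isLittleO ?_
  have h2 : (fun σ : ℝ => σ ^ (n - m).toNat) =o[𝓝[>] (0:ℝ)] (fun _ : ℝ => (1:ℝ)) := by
    rw [isLittleO_one_iff]
    have h3 : Tendsto (fun σ : ℝ => σ ^ (n - m).toNat) (𝓝 0) (𝓝 (0 ^ (n - m).toNat)) :=
      (continuous_pow _).tendsto 0
    rw [zero_pow (by omega)] at h3
    exact h3.mono_left nhdsWithin_le_nhds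
  simpa using h2.mul_isBigO (isBigO_refl (fun σ : ℝ => (σ ^ m : ℝ)) (𝓝[>] (0:ℝ)))

lemma theta_sum (S : Finset ℕ) (A : ℕ → ℝ → ℂ) (n : ℕ → ℤ) (r0 : ℕ) (hr0 : r0 ∈ S)
    (hA : ∀ r ∈ S, A r =Θ[𝓝[>] (0:ℝ)] (fun σ : ℝ => (σ ^ (n r) : ℝ)))
    (hn : ∀ r ∈ S, r ≠ r0 → n r0 < n r) :
    (fun σ => ∑ r ∈ S, A r σ) =Θ[𝓝[>] (0:ℝ)] (fun σ : ℝ => (σ ^ (n r0) : ℝ)) := by
  have h1 : (fun σ => ∑ r ∈ S, A r σ) = fun σ => A r0 σ + ∑ r ∈ S.erase r0, A r σ := by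
    funext σ
    rw [Finset.add_sum_erase S (fun r => A r σ) hr0]
  rw [h1]
  refine (hA r0 hr0).add_isLittleO ?_
  refine IsLittleO.fun_sum ?_
  intro r hr
  rw [Finset.mem_erase] at hr
  exact (hA r hr.2).isBigO.trans_isLittleO (zpow_littleO (hn r hr.2 hr.1))

/-- two products of different orders with product one have opposite orders -/
lemma exponents_opposite (f g : ℝ → ℂ) (a b : ℤ)
    (hf : f =Θ[𝓝[>] (0:ℝ)] (fun σ : ℝ => (σ ^ a : ℝ)))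
    (hg : g =Θ[𝓝[>] (0:ℝ)] (fun σ : ℝ => (σ ^ b : ℝ)))
    (h : ∀ᶠ σ in 𝓝[>] (0:ℝ), f σ * g σ = 1) : a + b = 0 := by
  have h1 := hf.mul hg
  have h2 : (fun σ => f σ * g σ) =ᶠ[𝓝[>] (0:ℝ)] (fun _ => (1:ℂ)) := h
  have h3 : (fun σ : ℝ => (σ ^ a : ℝ) * (σ ^ b : ℝ)) =ᶠ[𝓝[>] (0:ℝ)]
      (fun σ : ℝ => (σ ^ (a + b) : ℝ)) := by
    filter_upwards [self_mem_nhdsWithin] with σ hσ
    rw [zpow_add₀ (ne_of_gt hσ)]
  have h4 : (fun _ : ℝ => (1:ℂ)) =Θ[𝓝[>] (0:ℝ)] (fun σ : ℝ => (σ ^ (a + b) : ℝ)) :=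
    (h2.symm.trans_isTheta h1).trans_eventuallyEq h3
  have h5 : (fun σ : ℝ => (σ ^ (0:ℤ) : ℝ)) =Θ[𝓝[>] (0:ℝ)]
      (fun σ : ℝ => (σ ^ (a + b) : ℝ)) := by
    simp only [zpow_zero]
    exact IsTheta.trans (isTheta_const_const one_ne_zero one_ne_zero) h4
  have hirr : ¬ (fun σ : ℝ => (σ ^ (0:ℤ) : ℝ)) =o[𝓝[>] (0:ℝ)]
      (fun σ : ℝ => (σ ^ (0:ℤ) : ℝ)) := by
    apply isLittleO_irrefl'
    refine Eventually.frequently (Eventually.of_forall ?_)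
    intro x; simp
  rcases lt_trichotomy (a + b) 0 with hlt | heq | hgt
  · exact absurd ((zpow_littleO hlt).trans_isBigO h5.isBigO_symm) hirr
  · exact heq
  · exact absurd (h5.isBigO.trans_isLittleO (zpow_littleO hgt)) hirr

end EB40
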