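import Mathlib

/-!
# Products of differences of variables (problem MP_eb1491_ag)

`E k` is the set of pairs `a < b`, `ell e = X b - X a`, `PP k` the product of all of them,
`mono v` the product of the `ell e ^ v e`.
-/

namespace EB40

open MvPolynomial Finset

/-- the pairs `a < b` -/
def E (k : ℕ) : Finset (Fin k × Fin k) := univ.filter (fun e => e.1 < e.2)

/-- the difference of two variables -/
noncomputable def ell {k : ℕ} (e : Fin k × Fin k) : MvPolynomial (Fin k) ℂ := X e.2 - X e.1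

/-- the product of all differences -/
noncomputable def PP (k : ℕ) : MvPolynomial (Fin k) ℂ := ∏ e ∈ E k, ell e

/-- products of powers of differences -/
noncomputable def mono {k : ℕ} (v : Fin k × Fin k → ℕ) : MvPolynomial (Fin k) ℂ :=
  ∏ e ∈ E k, ell e ^ v e

lemma mem_E {k : ℕ} {e : Fin k × Fin k} : e ∈ E k ↔ e.1 < e.2 := by simp [E]

lemma ell_ne_zero {k : ℕ} {e : Fin k × Fin k} (h : e.1 ≠ e.2) : (ell e) ≠ 0 := by
  intro h0
  have := congrArg (MvPolynomial.eval (fun i => if i = e.2 then (1:ℂ) else 0)) h0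
  simp [ell, h] at this

lemma ell_homog {k : ℕ} (e : Fin k × Fin k) : (ell e).IsHomogeneous 1 :=
  (MvPolynomial.isHomogeneous_X ℂ e.2).sub (MvPolynomial.isHomogeneous_X ℂ e.1)

lemma ell_totalDegree {k : ℕ} {e : Fin k × Fin k} (h : e.1 ≠ e.2) :
    (ell e).totalDegree = 1 := (ell_homog e).totalDegree (ell_ne_zero h)

/-- substitution `X a ↦ X b` -/
noncomputable def rho {k : ℕ} (e : Fin k × Fin k) :
    MvPolynomial (Fin k) ℂ →ₐ[ℂ] MvPolynomial (Fin k) ℂ :=
  MvPolynomial.aeval (fun i => if i = e.1 then X e.2 else X i)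

lemma dvd_sub_rho {k : ℕ} (e : Fin k × Fin k) (F : MvPolynomial (Fin k) ℂ) :
    ell e ∣ F - rho e F := by
  induction F using MvPolynomial.induction_on with
  | C c => simp [rho, MvPolynomial.algebraMap_eq]
  | add p q hp hq =>
    have : p + q - rho e (p + q) = (p - rho e p) + (q - rho e q) := by
      rw [map_add]; ring
    rw [this]; exact dvd_add hp hq
  | mul_X p i hp =>
    have : p * X i - rho e (p * X i) = (p - rho e p) * X i + rho e p * (X i - rho e (X i)) := by
      rw [map_mul]; ring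
    rw [this]
    refine dvd_add (hp.mul_right _) (Dvd.dvd.mul_left ?_ _)
    by_cases hi : i = e.1
    · subst hi
      simp only [rho, MvPolynomial.aeval_X, if_pos]
      exact ⟨-1, by simp [ell]⟩
    · simp [rho, MvPolynomial.aeval_X, hi]

lemma rho_ell {k : ℕ} (e : Fin k × Fin k) (h : e.1 ≠ e.2) : rho e (ell e) = 0 := by
  simp [rho, ell, h.symm]

lemma dvd_iff_rho {k : ℕ} (e : Fin k × Fin k) (h : e.1 ≠ e.2) (F : MvPolynomial (Fin k) ℂ) :
    ell e ∣ F ↔ rho e F = 0 := by
  constructor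
  · rintro ⟨c, rfl⟩
    rw [map_mul, rho_ell e h, zero_mul]
  · intro h0
    have := dvd_sub_rho e F
    rwa [h0, sub_zero] at this

lemma ell_prime {k : ℕ} {e : Fin k × Fin k} (h : e.1 ≠ e.2) : Prime (ell e) := by
  refine ⟨ell_ne_zero h, ?_, ?_⟩
  · intro hu
    have h1 : (ell e) ∣ 1 := hu.dvd
    rw [dvd_iff_rho e h] at h1
    simp at h1
  · intro a b hab
    rw [dvd_iff_rho e h, map_mul, mul_eq_zero] at hab
    rcases hab with hab | hab
    · exact Or.inl ((dvd_iff_rho e h a).2 hab)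
    · exact Or.inr ((dvd_iff_rho e h b).2 hab)

lemma eval_ell {k : ℕ} (e : Fin k × Fin k) (x : Fin k → ℂ) :
    eval x (ell e) = x e.2 - x e.1 := by simp [ell]

lemma eval_rho {k : ℕ} (e : Fin k × Fin k) (x : Fin k → ℂ) (F : MvPolynomial (Fin k) ℂ) :
    eval x (rho e F) = eval (fun i => if i = e.1 then x e.2 else x i) F := by
  induction F using MvPolynomial.induction_on with
  | C c => simp [rho, MvPolynomial.algebraMap_eq]
  | add p q hp hq => rw [map_add, map_add, map_add, hp, hq]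
  | mul_X p i hp =>
    rw [map_mul, map_mul, map_mul, hp]
    congr 1
    by_cases hi : i = e.1
    · subst hi; simp [rho]
    · simp [rho, hi]

/-- distinct pairs give non divisible forms -/
lemma ell_not_dvd {k : ℕ} {e f : Fin k × Fin k} (he : e ∈ E k) (hf : f ∈ E k) (hne : e ≠ f) :
    ¬ ell e ∣ ell f := by
  have he' := (mem_E.1 he).ne
  rw [dvd_iff_rho e he']
  intro h0
  have h1 := mem_E.1 he
  have h2 := mem_E.1 hf
  -- evaluate at a point with distinct coordinates
  have := congrArg (MvPolynomial.eval (fun i : Fin k => ((i : ℕ) : ℂ))) h0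
  rw [eval_rho, eval_ell, map_zero] at this
  obtain ⟨e1, e2⟩ := e
  obtain ⟨f1, f2⟩ := f
  simp only at this h1 h2 he'
  have h3 : e1 ≠ f1 ∨ e2 ≠ f2 := by
    by_contra hcon
    push Not at hcon
    exact hne (by rw [hcon.1, hcon.2])
  by_cases c1 : f2 = e1 <;> by_cases c2 : f1 = e1
  · omega
  · rw [if_pos c1, if_neg c2] at this
    have h4 : ((e2 : ℕ) : ℂ) = ((f1 : ℕ) : ℂ) := by linear_combination this
    have h5 : (e2 : ℕ) = (f1 : ℕ) := by exact_mod_cast h4
    omega
  · rw [if_neg c1, if_pos c2] at this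
    have h4 : ((f2 : ℕ) : ℂ) = ((e2 : ℕ) : ℂ) := by linear_combination this
    have h5 : (f2 : ℕ) = (e2 : ℕ) := by exact_mod_cast h4
    omega
  · rw [if_neg c1, if_neg c2] at this
    have h4 : ((f2 : ℕ) : ℂ) = ((f1 : ℕ) : ℂ) := by linear_combination this
    have h5 : (f2 : ℕ) = (f1 : ℕ) := by exact_mod_cast h4
    omega

lemma mono_ne_zero {k : ℕ} (v : Fin k × Fin k → ℕ) : mono v ≠ 0 := by
  rw [mono, Finset.prod_ne_zero_iff]
  intro e he
  exact pow_ne_zero _ (ell_ne_zero (mem_E.1 he).ne)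

lemma mono_homog {k : ℕ} (v : Fin k × Fin k → ℕ) :
    (mono v).IsHomogeneous (∑ e ∈ E k, v e) := by
  unfold mono
  apply MvPolynomial.IsHomogeneous.prod
  intro e _
  have := (ell_homog e).pow (v e)
  simpa using this

lemma PP_eq_mono (k : ℕ) : PP k = mono (fun _ => 1) := by simp [PP, mono]

lemma PP_homog (k : ℕ) : (PP k).IsHomogeneous (E k).card := by
  rw [PP_eq_mono]
  have := mono_homog (k := k) (fun _ => 1)
  simpa using this

lemma PP_ne_zero (k : ℕ) : PP k ≠ 0 := by rw [PP_eq_mono]; exact mono_ne_zero _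

lemma eval_mono {k : ℕ} (v : Fin k × Fin k → ℕ) (x : Fin k → ℂ) :
    eval x (mono v) = ∏ e ∈ E k, (x e.2 - x e.1) ^ v e := by
  simp [mono, eval_ell]

lemma eval_PP {k : ℕ} (x : Fin k → ℂ) :
    eval x (PP k) = ∏ e ∈ E k, (x e.2 - x e.1) := by
  simp [PP, eval_ell]

/-- the product of the maximal powers divides -/
lemma prod_pow_dvd {k : ℕ} (G : MvPolynomial (Fin k) ℂ) (o : Fin k × Fin k → ℕ)
    (h : ∀ e ∈ E k, ell e ^ o e ∣ G) : mono o ∣ G := by
  unfold mono
  apply Finset.prod_dvd_of_isRelPrime _ h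
  intro e he f hf hne
  change IsRelPrime (ell e ^ o e) (ell f ^ o f)
  apply IsRelPrime.pow
  rw [(ell_prime (mem_E.1 he).ne).irreducible.isRelPrime_iff_not_dvd]
  exact ell_not_dvd he hf hne

end EB40
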