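import Mathlib

/-!
# Quartet systems

`K` is a set of labels (the roots and the point at infinity), `v x y i j` the order at the pair
`{x, y}` of the difference of the `i`-th and `j`-th function.
-/

namespace EB40

variable {K I : Type*} [DecidableEq K]

/-- indicator of the unordered pair `{p, q}` -/
def IND (p q x y : K) : ℤ := if (x = p ∧ y = q) ∨ (x = q ∧ y = p) then 1 else 0

/-- the triple `i, j, m` is of cross ratio type for the four labels -/
structure Typ (v : K → K → I → I → ℤ) (i j m : I) (α β γ δ : K) : Prop where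
  ab : α ≠ β
  ac : α ≠ γ
  ad : α ≠ δ
  bc : β ≠ γ
  bd : β ≠ δ
  cd : γ ≠ δ
  val : ∀ x y, x ≠ y → ∃ c, v x y i j = c + IND α β x y + IND γ δ x y ∧
    v x y j m = c + IND α γ x y + IND β δ x y ∧ v x y i m = c + IND α δ x y + IND β γ x y

/-- all three orders agree -/
def Nd (v : K → K → I → I → ℤ) (i j m : I) (x y : K) : Prop :=
  v x y i j = v x y i m ∧ v x y i m = v x y j m

lemma IND_comm1 (p q x y : K) : IND p q x y = IND q p x y := by
  unfold IND
  congr 1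
  exact propext ⟨fun h => h.symm, fun h => h.symm⟩

/-- double transpositions of the labels -/
lemma Typ.perm1 {v : K → K → I → I → ℤ} {i j m : I} {α β γ δ : K} (h : Typ v i j m α β γ δ) :
    Typ v i j m β α δ γ := by
  refine ⟨h.ab.symm, h.bd, h.bc, h.ad, h.ac, h.cd.symm, fun x y hxy => ?_⟩
  obtain ⟨c, h1, h2, h3⟩ := h.val x y hxy
  refine ⟨c, ?_, ?_, ?_⟩
  · rw [h1, IND_comm1 β α, IND_comm1 δ γ]
  · rw [h2]; ring
  · rw [h3]; ring

lemma Typ.perm2 {v : K → K → I → I → ℤ} {i j m : I} {α β γ δ : K} (h : Typ v i j m α β γ δ) :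
    Typ v i j m γ δ α β := by
  refine ⟨h.cd, h.ac.symm, h.bc.symm, h.ad.symm, h.bd.symm, h.ab, fun x y hxy => ?_⟩
  obtain ⟨c, h1, h2, h3⟩ := h.val x y hxy
  refine ⟨c, ?_, ?_, ?_⟩
  · rw [h1]; ring
  · rw [h2, IND_comm1 γ α, IND_comm1 δ β]
  · rw [h3, IND_comm1 γ β, IND_comm1 δ α]; ring

/-- rotation of the three functions -/
lemma Typ.rot {v : K → K → I → I → ℤ} (hs : ∀ x y i j, v x y i j = v x y j i)
    {i j m : I} {α β γ δ : K} (h : Typ v i j m α β γ δ) : Typ v j m i α γ δ β := by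
  refine ⟨h.ac, h.ad, h.ab, h.cd, h.bc.symm, h.bd.symm, fun x y hxy => ?_⟩
  obtain ⟨c, h1, h2, h3⟩ := h.val x y hxy
  refine ⟨c, ?_, ?_, ?_⟩
  · rw [h2, IND_comm1 δ β]
  · rw [hs x y m i, h3, IND_comm1 γ β]
  · rw [hs x y j i, h1]

/-- exchange of the first two functions -/
lemma Typ.swp {v : K → K → I → I → ℤ} (hs : ∀ x y i j, v x y i j = v x y j i)
    {i j m : I} {α β γ δ : K} (h : Typ v i j m α β γ δ) : Typ v j i m α β δ γ := by
  refine ⟨h.ab, h.ad, h.ac, h.bd, h.bc, h.cd.symm, fun x y hxy => ?_⟩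
  obtain ⟨c, h1, h2, h3⟩ := h.val x y hxy
  refine ⟨c, ?_, ?_, ?_⟩
  · rw [hs x y j i, h1, IND_comm1 δ γ]
  · rw [h3]
  · rw [h2]

lemma Typ.start {v : K → K → I → I → ℤ} {i j m : I} {α β γ δ x : K} (h : Typ v i j m α β γ δ)
    (hx : x = α ∨ x = β ∨ x = γ ∨ x = δ) : ∃ β' γ' δ', Typ v i j m x β' γ' δ' := by
  rcases hx with rfl | rfl | rfl | rfl
  · exact ⟨_, _, _, h⟩
  · exact ⟨_, _, _, h.perm1⟩
  · exact ⟨_, _, _, h.perm2⟩
  · exact ⟨_, _, _, h.perm2.perm1⟩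

lemma Typ.mem_of_not_nd {v : K → K → I → I → ℤ} {i j m : I} {α β γ δ x y : K}
    (h : Typ v i j m α β γ δ) (hxy : x ≠ y) (hn : ¬ Nd v i j m x y) :
    (x = α ∨ x = β ∨ x = γ ∨ x = δ) ∧ (y = α ∨ y = β ∨ y = γ ∨ y = δ) := by
  obtain ⟨c, h1, h2, h3⟩ := h.val x y hxy
  constructor
  · by_contra hcon
    push Not at hcon
    obtain ⟨a1, a2, a3, a4⟩ := hcon
    apply hn
    unfold Nd
    rw [h1, h2, h3]
    simp [IND, a1, a2, a3, a4]
  · by_contra hcon
    push Not at hcon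
    obtain ⟨a1, a2, a3, a4⟩ := hcon
    apply hn
    unfold Nd
    rw [h1, h2, h3]
    simp [IND, a1, a2, a3, a4]

/-- the values on the four labels -/
lemma Typ.vals {v : K → K → I → I → ℤ} {i j m : I} {α β γ δ : K} (h : Typ v i j m α β γ δ) :
    (v α β i j = v α β i m + 1 ∧ v α β i m = v α β j m) ∧
    (v γ δ i j = v γ δ i m + 1 ∧ v γ δ i m = v γ δ j m) ∧
    (v α γ j m = v α γ i j + 1 ∧ v α γ i j = v α γ i m) ∧
    (v β δ j m = v β δ i j + 1 ∧ v β δ i j = v β δ i m) ∧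
    (v α δ i m = v α δ i j + 1 ∧ v α δ i j = v α δ j m) ∧
    (v β γ i m = v β γ i j + 1 ∧ v β γ i j = v β γ j m) := by
  have ab := h.ab
  have ac := h.ac
  have ad := h.ad
  have bc := h.bc
  have bd := h.bd
  have cd := h.cd
  obtain ⟨c1, p1, p2, p3⟩ := h.val α β ab
  obtain ⟨c2, q1, q2, q3⟩ := h.val γ δ cd
  obtain ⟨c3, r1, r2, r3⟩ := h.val α γ ac
  obtain ⟨c4, s1, s2, s3⟩ := h.val β δ bd
  obtain ⟨c5, t1, t2, t3⟩ := h.val α δ ad
  obtain ⟨c6, u1, u2, u3⟩ := h.val β γ bc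
  simp only [IND, ab, ac, ad, bc, bd, cd, ab.symm, ac.symm, ad.symm, bc.symm, bd.symm, cd.symm,
    true_and, and_true, false_and, and_false, or_false, false_or, if_true, if_false, and_self,
    or_self] at p1 p2 p3 q1 q2 q3 r1 r2 r3 s1 s2 s3 t1 t2 t3 u1 u2 u3
  refine ⟨⟨?_, ?_⟩, ⟨?_, ?_⟩, ⟨?_, ?_⟩, ⟨?_, ?_⟩, ⟨?_, ?_⟩, ⟨?_, ?_⟩⟩ <;> omega

/-- the possible patterns of the three orders -/
def Pat (v : K → K → I → I → ℤ) (i j m : I) (x y : K) : Prop :=
  (v x y i j = v x y i m ∧ v x y i m = v x y j m) ∨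
  (v x y i j = v x y i m + 1 ∧ v x y i m = v x y j m) ∨
  (v x y j m = v x y i j + 1 ∧ v x y i j = v x y i m) ∨
  (v x y i m = v x y i j + 1 ∧ v x y i j = v x y j m)

lemma Typ.pat {v : K → K → I → I → ℤ} {i j m : I} {α β γ δ : K} (h : Typ v i j m α β γ δ)
    {x y : K} (hxy : x ≠ y) : Pat v i j m x y := by
  have ab := h.ab
  have ac := h.ac
  have ad := h.ad
  have bc := h.bc
  have bd := h.bd
  have cd := h.cd
  obtain ⟨c, h1, h2, h3⟩ := h.val x y hxy
  unfold Pat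
  rw [h1, h2, h3]
  unfold IND
  by_cases e1 : (x = α ∧ y = β) ∨ (x = β ∧ y = α)
  · rcases e1 with ⟨rfl, rfl⟩ | ⟨rfl, rfl⟩ <;> simp_all [eq_comm]
  by_cases e2 : (x = γ ∧ y = δ) ∨ (x = δ ∧ y = γ)
  · rcases e2 with ⟨rfl, rfl⟩ | ⟨rfl, rfl⟩ <;> simp_all [eq_comm]
  by_cases e3 : (x = α ∧ y = γ) ∨ (x = γ ∧ y = α)
  · rcases e3 with ⟨rfl, rfl⟩ | ⟨rfl, rfl⟩ <;> simp_all [eq_comm]
  by_cases e4 : (x = β ∧ y = δ) ∨ (x = δ ∧ y = β)
  · rcases e4 with ⟨rfl, rfl⟩ | ⟨rfl, rfl⟩ <;> simp_all [eq_comm]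
  by_cases e5 : (x = α ∧ y = δ) ∨ (x = δ ∧ y = α)
  · rcases e5 with ⟨rfl, rfl⟩ | ⟨rfl, rfl⟩ <;> simp_all [eq_comm]
  by_cases e6 : (x = β ∧ y = γ) ∨ (x = γ ∧ y = β)
  · rcases e6 with ⟨rfl, rfl⟩ | ⟨rfl, rfl⟩ <;> simp_all [eq_comm]
  left
  rw [if_neg e1, if_neg e2, if_neg e3, if_neg e4, if_neg e5, if_neg e6]
  simp

/-- **Key lemma**: a triple which is degenerate at two disjoint pairs has these four labels. -/
lemma Typ.key {v : K → K → I → I → ℤ} (hs : ∀ x y i j, v x y i j = v x y j i)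
    {i j m : I} {α β γ δ : K} (h : Typ v i j m α β γ δ)
    {x y z w : K} (xy : x ≠ y) (xz : x ≠ z) (xw : x ≠ w) (yz : y ≠ z) (yw : y ≠ w) (zw : z ≠ w)
    (h1 : ¬ Nd v i j m x y) (h2 : ¬ Nd v i j m z w) :
    (Typ v i j m x y z w ∨ Typ v i j m x y w z) ∨ (Typ v j m i x y z w ∨ Typ v j m i x y w z) ∨
      (Typ v m i j x y z w ∨ Typ v m i j x y w z) := by
  obtain ⟨β', γ', δ', h'⟩ := h.start (h.mem_of_not_nd xy h1).1
  have my := (h'.mem_of_not_nd xy h1).2
  have mz := (h'.mem_of_not_nd zw h2).1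
  have mw := (h'.mem_of_not_nd zw h2).2
  rcases my with rfl | rfl | rfl | rfl
  · exact absurd rfl xy
  · rcases mz with rfl | rfl | rfl | rfl
    · exact absurd rfl xz
    · exact absurd rfl yz
    · rcases mw with rfl | rfl | rfl | rfl
      · exact absurd rfl xw
      · exact absurd rfl yw
      · exact absurd rfl zw
      · exact Or.inl (Or.inl h')
    · rcases mw with rfl | rfl | rfl | rfl
      · exact absurd rfl xw
      · exact absurd rfl yw
      · exact Or.inl (Or.inr h')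
      · exact absurd rfl zw
  · rcases mz with rfl | rfl | rfl | rfl
    · exact absurd rfl xz
    · rcases mw with rfl | rfl | rfl | rfl
      · exact absurd rfl xw
      · exact absurd rfl zw
      · exact absurd rfl yw
      · exact Or.inr (Or.inl (Or.inr (h'.rot hs)))
    · exact absurd rfl yz
    · rcases mw with rfl | rfl | rfl | rfl
      · exact absurd rfl xw
      · exact Or.inr (Or.inl (Or.inl (h'.rot hs)))
      · exact absurd rfl yw
      · exact absurd rfl zw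
  · rcases mz with rfl | rfl | rfl | rfl
    · exact absurd rfl xz
    · rcases mw with rfl | rfl | rfl | rfl
      · exact absurd rfl xw
      · exact absurd rfl zw
      · exact Or.inr (Or.inr (Or.inl ((h'.rot hs).rot hs)))
      · exact absurd rfl yw
    · rcases mw with rfl | rfl | rfl | rfl
      · exact absurd rfl xw
      · exact Or.inr (Or.inr (Or.inr ((h'.rot hs).rot hs)))
      · exact absurd rfl zw
      · exact absurd rfl yw
    · exact absurd rfl yz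

end EB40
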