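import Pool.Agent.Lib.EB40.RestrictB
import Pool.Agent.Lib.EB40.Comb

/-!
# Classification of the three term relations between products of differences
-/

set_option linter.unusedSimpArgs false

namespace EB40

open MvPolynomial Finset

/-- equality after the identification of `a` and `b` -/
def Eqv {k : ℕ} (X Y : Fin k → Fin k → ℤ) (a b : Fin k) : Prop :=
  X a b = Y a b ∧ (∀ c, c ≠ a → c ≠ b → X a c + X b c = Y a c + Y b c) ∧
    (∀ c d, c ≠ d → c ≠ a → c ≠ b → d ≠ a → d ≠ b → X c d = Y c d)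

lemma Eqv.symm {k : ℕ} {X Y : Fin k → Fin k → ℤ} {a b : Fin k} (h : Eqv X Y a b) : Eqv Y X a b :=
  ⟨h.1.symm, fun c h1 h2 => (h.2.1 c h1 h2).symm,
    fun c d h1 h2 h3 h4 h5 => (h.2.2 c d h1 h2 h3 h4 h5).symm⟩

/-- the rules for a three term relation -/
structure Tri {k : ℕ} (U V W : Fin k → Fin k → ℤ) : Prop where
  sU : ∀ a b, U a b = U b a
  sV : ∀ a b, V a b = V b a
  sW : ∀ a b, W a b = W b a
  r1 : ∀ a b, a ≠ b → (V a b < U a b ∨ W a b < U a b) → Eqv V W a b
  r2 : ∀ a b, a ≠ b → (U a b < V a b ∨ W a b < V a b) → Eqv U W a b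
  r3 : ∀ a b, a ≠ b → (U a b < W a b ∨ V a b < W a b) → Eqv U V a b

theorem tri_of_rel {k : ℕ} {c₁ c₂ c₃ : ℂ} (h1 : c₁ ≠ 0) (h2 : c₂ ≠ 0) (h3 : c₃ ≠ 0)
    {u v w : Fin k × Fin k → ℕ}
    (hrel : C c₁ * mono u + C c₂ * mono v = C c₃ * mono w) :
    Tri (sy u) (sy v) (sy w) := by
  have n1 : -c₁ ≠ 0 := neg_ne_zero.2 h1
  have n2 : -c₂ ≠ 0 := neg_ne_zero.2 h2
  have n3 : -c₃ ≠ 0 := neg_ne_zero.2 h3
  refine ⟨sy_comm u, sy_comm v, sy_comm w, ?_, ?_, ?_⟩
  · rintro a b hab (h | h)
    · exact restrict h1 h2 h3 hrel hab h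
    · refine Eqv.symm (restrict (c₁ := c₁) (c₂ := -c₃) (c₃ := -c₂) h1 n3 n2 (u := u) (v := w)
        (w := v) ?_ hab h)
      rw [C_neg, C_neg]
      linear_combination hrel
  · rintro a b hab (h | h)
    · refine restrict (c₁ := c₂) (c₂ := c₁) (c₃ := c₃) h2 h1 h3 (u := v) (v := u) (w := w) ?_ hab h
      linear_combination hrel
    · refine Eqv.symm (restrict (c₁ := c₂) (c₂ := -c₃) (c₃ := -c₁) h2 n3 n1 (u := v) (v := w)
        (w := u) ?_ hab h)
      rw [C_neg, C_neg]
      linear_combination hrel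
  · rintro a b hab (h | h)
    · refine restrict (c₁ := c₃) (c₂ := -c₁) (c₃ := c₂) h3 n1 h2 (u := w) (v := u) (w := v) ?_
        hab h
      rw [C_neg]
      linear_combination -hrel
    · refine Eqv.symm (restrict (c₁ := c₃) (c₂ := -c₂) (c₃ := c₁) h3 n2 h1 (u := w) (v := v)
        (w := u) ?_ hab h)
      rw [C_neg]
      linear_combination -hrel

lemma Tri.core {k : ℕ} {U V W : Fin k → Fin k → ℤ} (T : Tri U V W) {a b c : Fin k}
    (ab : a ≠ b) (bc : b ≠ c) (ac : a ≠ c) (h1 : V a b < U a b) (h2 : U b c < V b c) :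
    (V a b = W a b ∧ U b c = W b c ∧ U a c = V a c) ∧
    (U a b - W a b = V b c - W b c ∧ U a b - W a b = W a c - U a c) ∧
    (∀ d, d ≠ a → d ≠ b → d ≠ c → (V c d = W c d ∧ U a d = W a d ∧ U b d = V b d) ∧
      ((U c d = V c d ∧ U a d = V a d ∧ U b d = W b d) ∨
       (U c d = V c d + (U a b - W a b) ∧ V a d = U a d + (U a b - W a b) ∧
        W b d = U b d + (U a b - W a b)))) ∧
    (∀ d e, d ≠ e → d ≠ a → d ≠ b → d ≠ c → e ≠ a → e ≠ b → e ≠ c →
      (U d e = V d e ∧ V d e = W d e) ∧ ¬ (U a d < V a d ∧ U b e < W b e)) := by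
  obtain ⟨a1, a2, a3⟩ := T.r1 a b ab (Or.inl h1)
  obtain ⟨b1, b2, b3⟩ := T.r2 b c bc (Or.inl h2)
  have a2c := a2 c ac.symm bc.symm
  have b2a := b2 a ab ac
  have s1 := T.sU a b
  have s2 := T.sV a b
  have s3 := T.sW a b
  have s4 := T.sU a c
  have s5 := T.sV a c
  have s6 := T.sW a c
  have h3 : V a c < W a c := by omega
  obtain ⟨c1, c2, c3⟩ := T.r3 a c ac (Or.inr h3)
  have c2b := c2 b ab.symm bc
  have s7 := T.sU b c
  have s8 := T.sV b c
  refine ⟨⟨a1, b1, c1⟩, ⟨by omega, by omega⟩, ?_, ?_⟩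
  · intro d da db dc
    have e1 := a3 c d dc.symm ac.symm bc.symm da db
    have e2 := b3 a d da.symm ab ac db dc
    have e3 := c3 b d db.symm ab.symm bc da dc
    have e4 := b2 d db dc
    have e5 := c2 d da dc
    refine ⟨⟨e1, e2, e3⟩, ?_⟩
    rcases lt_trichotomy (U c d) (V c d) with h | h | h
    · exfalso
      have := (T.r2 c d dc.symm (Or.inl h)).1
      omega
    · left
      refine ⟨h, by omega, by omega⟩
    · right
      obtain ⟨f1, f2, f3⟩ := T.r1 c d dc.symm (Or.inl h)
      have f4 := f2 a ac da.symm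
      have s9 := T.sV a d
      have s10 := T.sW a d
      refine ⟨by omega, by omega, by omega⟩
  · intro d e de da db dc ea eb ec
    have e1 := a3 d e de da db ea eb
    have e2 := b3 d e de db dc eb ec
    refine ⟨⟨by omega, e1⟩, ?_⟩
    rintro ⟨g1, g2⟩
    have g3 := (T.r2 a d da.symm (Or.inl g1)).2.2 b e eb.symm ab.symm db.symm ea de.symm
    omega

/-- existence of two adjacent pairs of different types -/
lemma Tri.exists_adj {k : ℕ} {U V W : Fin k → Fin k → ℤ} (T : Tri U V W)
    {a b c d : Fin k} (ab : a ≠ b) (cd : c ≠ d) (h1 : V a b < U a b) (h2 : U c d < V c d) :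
    ∃ a b c : Fin k, a ≠ b ∧ b ≠ c ∧ a ≠ c ∧ V a b < U a b ∧ U b c < V b c := by
  by_cases ca : c = a
  · subst ca
    by_cases db : d = b
    · subst db; omega
    · exact ⟨b, c, d, ab.symm, cd, Ne.symm db, by rw [T.sV b c, T.sU b c]; exact h1, h2⟩
  by_cases cb : c = b
  · subst cb
    by_cases da : d = a
    · subst da
      rw [T.sU, T.sV] at h2
      omega
    · exact ⟨a, c, d, ab, cd, Ne.symm da, h1, h2⟩
  by_cases da : d = a
  · subst da
    exact ⟨b, d, c, ab.symm, cd.symm, Ne.symm cb, by rw [T.sV b d, T.sU b d]; exact h1,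
      by rw [T.sV d c, T.sU d c]; exact h2⟩
  by_cases db : d = b
  · subst db
    exact ⟨a, d, c, ab, cd.symm, Ne.symm ca, h1, by rw [T.sV d c, T.sU d c]; exact h2⟩
  exfalso
  have e1 := (T.r1 a b ab (Or.inl h1)).2.2 c d cd ca cb da db
  have e2 := (T.r2 c d cd (Or.inl h2)).1
  omega

lemma IND_comm2 {K : Type*} [DecidableEq K] (p q x y : K) : IND p q x y = IND p q y x := by
  unfold IND
  congr 1
  exact propext ⟨fun h => h.elim (fun h => Or.inr ⟨h.2, h.1⟩) fun h => Or.inl ⟨h.2, h.1⟩,
    fun h => h.elim (fun h => Or.inr ⟨h.2, h.1⟩) fun h => Or.inl ⟨h.2, h.1⟩⟩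

/-- the common part and the three surpluses -/
def PV {k : ℕ} (U V W s₁ s₂ s₃ : Fin k → Fin k → ℤ) (J : ℤ) (x y : Fin k) : Prop :=
  ∃ B, U x y = B + J * s₁ x y ∧ V x y = B + J * s₂ x y ∧ W x y = B + J * s₃ x y

lemma PV.symm {k : ℕ} {U V W s₁ s₂ s₃ : Fin k → Fin k → ℤ} (T : Tri U V W)
    (h1 : ∀ x y, s₁ x y = s₁ y x) (h2 : ∀ x y, s₂ x y = s₂ y x) (h3 : ∀ x y, s₃ x y = s₃ y x)
    {J : ℤ} {x y : Fin k} (h : PV U V W s₁ s₂ s₃ J x y) : PV U V W s₁ s₂ s₃ J y x := by
  obtain ⟨B, e1, e2, e3⟩ := h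
  exact ⟨B, by rw [T.sU y x, h1 y x]; exact e1, by rw [T.sV y x, h2 y x]; exact e2,
    by rw [T.sW y x, h3 y x]; exact e3⟩

/-- **Classification, Plücker type** -/
theorem Tri.pluecker {k : ℕ} {U V W : Fin k → Fin k → ℤ} (T : Tri U V W) {a b c d : Fin k}
    (ab : a ≠ b) (bc : b ≠ c) (ac : a ≠ c) (h1 : V a b < U a b) (h2 : U b c < V b c)
    (da : d ≠ a) (db : d ≠ b) (dc : d ≠ c) (hlt : U a d < V a d) (x y : Fin k) (xy : x ≠ y) :
    PV U V W (fun x y => IND a b x y + IND c d x y) (fun x y => IND b c x y + IND a d x y)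
      (fun x y => IND a c x y + IND b d x y) (U a b - W a b) x y := by
  obtain ⟨⟨p1, p2, p3⟩, ⟨p4, p5⟩, p6, p7⟩ := T.core ab bc ac h1 h2
  set J := U a b - W a b with hJ
  obtain ⟨⟨q1, q2, q3⟩, q4⟩ := p6 d da db dc
  have q5 : U c d = V c d + J ∧ V a d = U a d + J ∧ W b d = U b d + J := by
    rcases q4 with q4 | q4
    · omega
    · exact q4
  obtain ⟨q5, q6, q7⟩ := q5
  -- the other edges
  have hne : ∀ e, e ≠ a → e ≠ b → e ≠ c → e ≠ d →
      (U c e = V c e ∧ V c e = W c e) ∧ (U a e = V a e ∧ V a e = W a e) ∧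
      (U b e = V b e ∧ V b e = W b e) ∧ (U d e = V d e ∧ V d e = W d e) := by
    intro e ea eb ec ed
    obtain ⟨⟨r1, r2, r3⟩, r4⟩ := p6 e ea eb ec
    obtain ⟨r5, r6⟩ := p7 d e ed.symm da db dc ea eb ec
    rcases r4 with ⟨r7, r8, r9⟩ | ⟨r7, r8, r9⟩
    · refine ⟨⟨r7, r1⟩, ⟨r8, by omega⟩, ⟨r3, by omega⟩, r5⟩
    · exfalso
      exact r6 ⟨hlt, by omega⟩
  have ba := ab.symm
  have cb := bc.symm
  have ca := ac.symm
  have ad := da.symm
  have bd := db.symm
  have cd := dc.symm
  have hs : ∀ {x y : Fin k}, PV U V W (fun x y => IND a b x y + IND c d x y)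
      (fun x y => IND b c x y + IND a d x y) (fun x y => IND a c x y + IND b d x y) J x y →
      PV U V W (fun x y => IND a b x y + IND c d x y)
      (fun x y => IND b c x y + IND a d x y) (fun x y => IND a c x y + IND b d x y) J y x :=
    fun h => h.symm T (fun x y => by rw [IND_comm2 a b, IND_comm2 c d])
      (fun x y => by rw [IND_comm2 b c, IND_comm2 a d])
      (fun x y => by rw [IND_comm2 a c, IND_comm2 b d])
  have Pab : PV U V W (fun x y => IND a b x y + IND c d x y)
      (fun x y => IND b c x y + IND a d x y) (fun x y => IND a c x y + IND b d x y) J a b := by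
    refine ⟨W a b, ?_, ?_, ?_⟩ <;>
    simp only [IND, ab, ba, bc, cb, ac, ca, da, ad, db, bd, dc, cd, true_and, and_true,
      false_and, and_false, or_false, false_or, if_true, if_false, and_self, or_self] <;> omega
  have Pbc : PV U V W (fun x y => IND a b x y + IND c d x y)
      (fun x y => IND b c x y + IND a d x y) (fun x y => IND a c x y + IND b d x y) J b c := by
    refine ⟨W b c, ?_, ?_, ?_⟩ <;>
    simp only [IND, ab, ba, bc, cb, ac, ca, da, ad, db, bd, dc, cd, true_and, and_true,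
      false_and, and_false, or_false, false_or, if_true, if_false, and_self, or_self] <;> omega
  have Pac : PV U V W (fun x y => IND a b x y + IND c d x y)
      (fun x y => IND b c x y + IND a d x y) (fun x y => IND a c x y + IND b d x y) J a c := by
    refine ⟨U a c, ?_, ?_, ?_⟩ <;>
    simp only [IND, ab, ba, bc, cb, ac, ca, da, ad, db, bd, dc, cd, true_and, and_true,
      false_and, and_false, or_false, false_or, if_true, if_false, and_self, or_self] <;> omega
  have Pad : PV U V W (fun x y => IND a b x y + IND c d x y)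
      (fun x y => IND b c x y + IND a d x y) (fun x y => IND a c x y + IND b d x y) J a d := by
    refine ⟨U a d, ?_, ?_, ?_⟩ <;>
    simp only [IND, ab, ba, bc, cb, ac, ca, da, ad, db, bd, dc, cd, true_and, and_true,
      false_and, and_false, or_false, false_or, if_true, if_false, and_self, or_self] <;> omega
  have Pbd : PV U V W (fun x y => IND a b x y + IND c d x y)
      (fun x y => IND b c x y + IND a d x y) (fun x y => IND a c x y + IND b d x y) J b d := by
    refine ⟨U b d, ?_, ?_, ?_⟩ <;>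
    simp only [IND, ab, ba, bc, cb, ac, ca, da, ad, db, bd, dc, cd, true_and, and_true,
      false_and, and_false, or_false, false_or, if_true, if_false, and_self, or_self] <;> omega
  have Pcd : PV U V W (fun x y => IND a b x y + IND c d x y)
      (fun x y => IND b c x y + IND a d x y) (fun x y => IND a c x y + IND b d x y) J c d := by
    refine ⟨V c d, ?_, ?_, ?_⟩ <;>
    simp only [IND, ab, ba, bc, cb, ac, ca, da, ad, db, bd, dc, cd, true_and, and_true,
      false_and, and_false, or_false, false_or, if_true, if_false, and_self, or_self] <;> omega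
  have P0 : ∀ x e, x ≠ e → e ≠ a → e ≠ b → e ≠ c → e ≠ d →
      PV U V W (fun x y => IND a b x y + IND c d x y)
      (fun x y => IND b c x y + IND a d x y) (fun x y => IND a c x y + IND b d x y) J x e := by
    intro x e xe ea eb ec ed
    have hU : U x e = V x e ∧ V x e = W x e := by
      obtain ⟨t1, t2, t3, t4⟩ := hne e ea eb ec ed
      by_cases xa : x = a
      · subst xa; exact t2
      by_cases xb : x = b
      · subst xb; exact t3
      by_cases xc : x = c
      · subst xc; exact t1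
      exact (p7 x e xe xa xb xc ea eb ec).1
    refine ⟨U x e, ?_, ?_, ?_⟩ <;>
    simp only [IND, ea, eb, ec, ed, true_and, and_true,
      false_and, and_false, or_false, false_or, if_true, if_false, and_self, or_self] <;> omega
  by_cases ya : y = a
  · subst ya
    by_cases xb : x = b
    · subst xb; exact hs Pab
    by_cases xc : x = c
    · subst xc; exact hs Pac
    by_cases xd : x = d
    · subst xd; exact hs Pad
    exact hs (P0 _ _ (Ne.symm xy) xy xb xc xd)
  by_cases yb : y = b
  · subst yb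
    by_cases xa : x = a
    · subst xa; exact Pab
    by_cases xc : x = c
    · subst xc; exact hs Pbc
    by_cases xd : x = d
    · subst xd; exact hs Pbd
    exact hs (P0 _ _ (Ne.symm xy) xa xy xc xd)
  by_cases yc : y = c
  · subst yc
    by_cases xa : x = a
    · subst xa; exact Pac
    by_cases xb : x = b
    · subst xb; exact Pbc
    by_cases xd : x = d
    · subst xd; exact hs Pcd
    exact hs (P0 _ _ (Ne.symm xy) xa xb xy xd)
  by_cases yd : y = d
  · subst yd
    by_cases xa : x = a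
    · subst xa; exact Pad
    by_cases xb : x = b
    · subst xb; exact Pbd
    by_cases xc : x = c
    · subst xc; exact Pcd
    exact hs (P0 _ _ (Ne.symm xy) xa xb xc xy)
  exact P0 x y xy ya yb yc yd

/-- **Classification, triangle type** -/
theorem Tri.triangle {k : ℕ} {U V W : Fin k → Fin k → ℤ} (T : Tri U V W) {a b c : Fin k}
    (ab : a ≠ b) (bc : b ≠ c) (ac : a ≠ c) (h1 : V a b < U a b) (h2 : U b c < V b c)
    (hd : ∀ d, d ≠ a → d ≠ b → d ≠ c → ¬ U a d < V a d) (x y : Fin k) (xy : x ≠ y) :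
    PV U V W (IND a b) (IND b c) (IND a c) (U a b - W a b) x y := by
  obtain ⟨⟨p1, p2, p3⟩, ⟨p4, p5⟩, p6, p7⟩ := T.core ab bc ac h1 h2
  set J := U a b - W a b with hJ
  -- the other edges
  have hne : ∀ e, e ≠ a → e ≠ b → e ≠ c →
      (U c e = V c e ∧ V c e = W c e) ∧ (U a e = V a e ∧ V a e = W a e) ∧
      (U b e = V b e ∧ V b e = W b e) := by
    intro e ea eb ec
    obtain ⟨⟨r1, r2, r3⟩, r4⟩ := p6 e ea eb ec
    have r5 := hd e ea eb ec
    rcases r4 with ⟨r7, r8, r9⟩ | ⟨r7, r8, r9⟩
    · refine ⟨⟨r7, r1⟩, ⟨r8, by omega⟩, ⟨r3, by omega⟩⟩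
    · exfalso
      omega
  have ba := ab.symm
  have cb := bc.symm
  have ca := ac.symm
  have hs : ∀ {x y : Fin k}, PV U V W (IND a b) (IND b c) (IND a c) J x y →
      PV U V W (IND a b) (IND b c) (IND a c) J y x :=
    fun h => h.symm T (fun x y => by rw [IND_comm2 a b]) (fun x y => by rw [IND_comm2 b c])
      (fun x y => by rw [IND_comm2 a c])
  have Pab : PV U V W (IND a b) (IND b c) (IND a c) J a b := by
    refine ⟨W a b, ?_, ?_, ?_⟩ <;>
    simp only [IND, ab, ba, bc, cb, ac, ca, true_and, and_true,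
      false_and, and_false, or_false, false_or, if_true, if_false, and_self, or_self] <;> omega
  have Pbc : PV U V W (IND a b) (IND b c) (IND a c) J b c := by
    refine ⟨W b c, ?_, ?_, ?_⟩ <;>
    simp only [IND, ab, ba, bc, cb, ac, ca, true_and, and_true,
      false_and, and_false, or_false, false_or, if_true, if_false, and_self, or_self] <;> omega
  have Pac : PV U V W (IND a b) (IND b c) (IND a c) J a c := by
    refine ⟨U a c, ?_, ?_, ?_⟩ <;>
    simp only [IND, ab, ba, bc, cb, ac, ca, true_and, and_true,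
      false_and, and_false, or_false, false_or, if_true, if_false, and_self, or_self] <;> omega
  have P0 : ∀ x e, x ≠ e → e ≠ a → e ≠ b → e ≠ c →
      PV U V W (IND a b) (IND b c) (IND a c) J x e := by
    intro x e xe ea eb ec
    have hU : U x e = V x e ∧ V x e = W x e := by
      obtain ⟨t1, t2, t3⟩ := hne e ea eb ec
      by_cases xa : x = a
      · subst xa; exact t2
      by_cases xb : x = b
      · subst xb; exact t3
      by_cases xc : x = c
      · subst xc; exact t1
      exact (p7 x e xe xa xb xc ea eb ec).1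
    refine ⟨U x e, ?_, ?_, ?_⟩ <;>
    simp only [IND, ea, eb, ec, true_and, and_true,
      false_and, and_false, or_false, false_or, if_true, if_false, and_self, or_self] <;> omega
  by_cases ya : y = a
  · subst ya
    by_cases xb : x = b
    · subst xb; exact hs Pab
    by_cases xc : x = c
    · subst xc; exact hs Pac
    exact hs (P0 _ _ (Ne.symm xy) xy xb xc)
  by_cases yb : y = b
  · subst yb
    by_cases xa : x = a
    · subst xa; exact Pab
    by_cases xc : x = c
    · subst xc; exact hs Pbc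
    exact hs (P0 _ _ (Ne.symm xy) xa xy xc)
  by_cases yc : y = c
  · subst yc
    by_cases xa : x = a
    · subst xa; exact Pac
    by_cases xb : x = b
    · subst xb; exact Pbc
    exact hs (P0 _ _ (Ne.symm xy) xa xb xy)
  exact P0 x y xy ya yb yc

end EB40
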