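import Pool.Agent.Lib.EB40.Comb

/-!
# Quartet systems: structure of the clusters
-/

namespace EB40

variable {K I : Type*} [DecidableEq K]

/-- a system in which every triple is of cross ratio type -/
structure Sys (v : K → K → I → I → ℤ) : Prop where
  symI : ∀ x y i j, v x y i j = v x y j i
  tri : ∀ i j m, i ≠ j → j ≠ m → i ≠ m → ∃ α β γ δ, Typ v i j m α β γ δ
  hx : ∀ i j m p, i ≠ j → i ≠ m → i ≠ p → j ≠ m → j ≠ p → m ≠ p →
    ¬ ∀ x y, x ≠ y → (v x y i j = v x y m p ∧ v x y i m = v x y j p ∧ v x y i p = v x y j m)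

lemma Sys.pat {v : K → K → I → I → ℤ} (S : Sys v) {i j m : I} (ij : i ≠ j) (jm : j ≠ m)
    (im : i ≠ m) {x y : K} (xy : x ≠ y) : Pat v i j m x y := by
  obtain ⟨α, β, γ, δ, h⟩ := S.tri i j m ij jm im
  exact h.pat xy

/-- a triple degenerate at two disjoint pairs is degenerate at the four other pairs -/
lemma Sys.cross {v : K → K → I → I → ℤ} (S : Sys v) {i j m : I} (ij : i ≠ j) (jm : j ≠ m)
    (im : i ≠ m) {x y z w : K} (xy : x ≠ y) (xz : x ≠ z) (xw : x ≠ w) (yz : y ≠ z) (yw : y ≠ w)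
    (zw : z ≠ w) (h1 : ¬ Nd v i j m x y) (h2 : ¬ Nd v i j m z w) :
    ¬ Nd v i j m x z ∧ ¬ Nd v i j m x w := by
  obtain ⟨α, β, γ, δ, h⟩ := S.tri i j m ij jm im
  have s1 := S.symI x z i j
  have s2 := S.symI x z i m
  have s3 := S.symI x z j m
  have s4 := S.symI x w i j
  have s5 := S.symI x w i m
  have s6 := S.symI x w j m
  unfold Nd
  rcases h.key S.symI xy xz xw yz yw zw h1 h2 with (h | h) | (h | h) | (h | h) <;>
  · obtain ⟨⟨a1, a2⟩, ⟨a3, a4⟩, ⟨a5, a6⟩, ⟨a7, a8⟩, ⟨a9, a10⟩, ⟨a11, a12⟩⟩ := h.vals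
    constructor <;> omega

lemma Sys.farfar {v : K → K → I → I → ℤ} (S : Sys v) {i j m p : I} (ij : i ≠ j) (jm : j ≠ m)
    (im : i ≠ m) (ip : i ≠ p) (jp : j ≠ p) (mp : m ≠ p) {α β γ δ : K}
    (h : Typ v i j m α β γ δ) (f1 : v α β i p = v α β i m) (f2 : v α β j p = v α β i m)
    (f3 : v γ δ i p = v γ δ i m) (f4 : v γ δ j p = v γ δ i m) : False := by
  obtain ⟨⟨a1, a2⟩, ⟨a3, a4⟩, ⟨a5, a6⟩, ⟨a7, a8⟩, ⟨a9, a10⟩, ⟨a11, a12⟩⟩ := h.vals
  obtain ⟨α', β', γ', δ', h'⟩ := S.tri i j p ij jp ip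
  have n1 : ¬ Nd v i j p α β := by unfold Nd; omega
  have n2 : ¬ Nd v i j p γ δ := by unfold Nd; omega
  have s1 := S.symI α β i j
  have s2 := S.symI α β i p
  have s3 := S.symI α β j p
  rcases h'.key S.symI h.ab h.ac h.ad h.bc h.bd h.cd n1 n2 with (h' | h') | (h' | h') | (h' | h')
  · -- same orientation
    obtain ⟨⟨b1, b2⟩, ⟨b3, b4⟩, ⟨b5, b6⟩, ⟨b7, b8⟩, ⟨b9, b10⟩, ⟨b11, b12⟩⟩ := h'.vals
    have p1 := S.pat im mp ip h.ac
    have p2 := S.pat jm mp jp h.ac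
    have p3 := S.pat im mp ip h.bd
    have p4 := S.pat jm mp jp h.bd
    have p5 := S.pat im mp ip h.ad
    have p6 := S.pat jm mp jp h.ad
    unfold Pat at p1 p2 p3 p4 p5 p6
    have q1 : ¬ Nd v i m p α γ := by unfold Nd; omega
    have q2 : ¬ Nd v i m p β δ := by unfold Nd; omega
    have q3 := (S.cross im mp ip h.ac h.ab h.ad h.bc.symm h.cd h.bd q1 q2).2
    apply q3
    unfold Nd
    omega
  · -- opposite orientation
    obtain ⟨⟨b1, b2⟩, ⟨b3, b4⟩, ⟨b5, b6⟩, ⟨b7, b8⟩, ⟨b9, b10⟩, ⟨b11, b12⟩⟩ := h'.vals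
    have p1 := S.pat im mp ip h.ac
    have p2 := S.pat jm mp jp h.ac
    have p3 := S.pat im mp ip h.bd
    have p4 := S.pat jm mp jp h.bd
    have p5 := S.pat im mp ip h.ad
    have p6 := S.pat jm mp jp h.ad
    unfold Pat at p1 p2 p3 p4 p5 p6
    have t1 := S.symI α γ m p
    have t2 := S.symI β δ m p
    have t3 := S.symI α γ i p
    have t4 := S.symI α γ i m
    have t5 := S.symI α δ m p
    have t6 := S.symI α δ i p
    have t7 := S.symI α δ i m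
    have q1 : ¬ Nd v i p m α γ := by unfold Nd; omega
    have q2 : ¬ Nd v i p m β δ := by unfold Nd; omega
    obtain ⟨α₂, β₂, γ₂, δ₂, h₂⟩ := S.tri i p m ip mp.symm im
    rcases h₂.key S.symI h.ac h.ab h.ad h.bc.symm h.cd h.bd q1 q2 with
      (h₂ | h₂) | (h₂ | h₂) | (h₂ | h₂)
    · refine S.hx i j m p ij im ip jm jp mp fun x y hxy => ?_
      obtain ⟨c1, u1, u2, u3⟩ := h.val x y hxy
      obtain ⟨c2, u4, u5, u6⟩ := h'.val x y hxy
      obtain ⟨c3, u7, u8, u9⟩ := h₂.val x y hxy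
      have w1 := IND_comm1 δ γ x y
      have w2 := IND_comm1 γ β x y
      have w3 := S.symI x y p m
      refine ⟨?_, ?_, ?_⟩ <;> omega
    all_goals
      obtain ⟨⟨d1, d2⟩, ⟨d3, d4⟩, ⟨d5, d6⟩, ⟨d7, d8⟩, ⟨d9, d10⟩, ⟨d11, d12⟩⟩ := h₂.vals
      omega
  all_goals
    obtain ⟨⟨d1, d2⟩, ⟨d3, d4⟩, ⟨d5, d6⟩, ⟨d7, d8⟩, ⟨d9, d10⟩, ⟨d11, d12⟩⟩ := h'.vals
    omega

lemma Sys.nearnear {v : K → K → I → I → ℤ} (S : Sys v) {i j m p : I} (ij : i ≠ j) (jm : j ≠ m)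
    (im : i ≠ m) (ip : i ≠ p) (jp : j ≠ p) (mp : m ≠ p) {α β γ δ : K}
    (h : Typ v i j m α β γ δ) (f1 : v α β i p = v α β i j) (f2 : v α β j p = v α β i j)
    (f3 : v γ δ i p = v γ δ i j) (f4 : v γ δ j p = v γ δ i j) : False := by
  obtain ⟨⟨a1, a2⟩, ⟨a3, a4⟩, ⟨a5, a6⟩, ⟨a7, a8⟩, ⟨a9, a10⟩, ⟨a11, a12⟩⟩ := h.vals
  obtain ⟨α', β', γ', δ', h'⟩ := S.tri i p m ip mp.symm im
  have r1 := S.pat im mp ip h.ab
  have r2 := S.pat im mp ip h.cd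
  unfold Pat at r1 r2
  have s1 := S.symI α β i m
  have s2 := S.symI α β i p
  have s3 := S.symI α β m p
  have s4 := S.symI γ δ m p
  have n1 : ¬ Nd v i p m α β := by unfold Nd; omega
  have n2 : ¬ Nd v i p m γ δ := by unfold Nd; omega
  rcases h'.key S.symI h.ab h.ac h.ad h.bc h.bd h.cd n1 n2 with (h' | h') | (h' | h') | (h' | h')
  · obtain ⟨⟨b1, b2⟩, ⟨b3, b4⟩, ⟨b5, b6⟩, ⟨b7, b8⟩, ⟨b9, b10⟩, ⟨b11, b12⟩⟩ := h'.vals
    have p1 := S.pat jm mp jp h.ac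
    have p2 := S.pat jm mp jp h.bd
    have p3 := S.pat ij jp ip h.ac
    have p4 := S.pat ij jp ip h.bd
    unfold Pat at p1 p2 p3 p4
    have t1 := S.symI α γ m p
    have t2 := S.symI β δ m p
    have q1 : ¬ Nd v i j p α γ := by unfold Nd; omega
    have q2 : ¬ Nd v i j p β δ := by unfold Nd; omega
    have q3 := (S.cross ij jp ip h.ac h.ab h.ad h.bc.symm h.cd h.bd q1 q2).1
    apply q3
    unfold Nd
    omega
  · obtain ⟨⟨b1, b2⟩, ⟨b3, b4⟩, ⟨b5, b6⟩, ⟨b7, b8⟩, ⟨b9, b10⟩, ⟨b11, b12⟩⟩ := h'.vals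
    have p1 := S.pat jm mp jp h.ac
    unfold Pat at p1
    have t1 := S.symI α γ m p
    omega
  all_goals
    obtain ⟨⟨d1, d2⟩, ⟨d3, d4⟩, ⟨d5, d6⟩, ⟨d7, d8⟩, ⟨d9, d10⟩, ⟨d11, d12⟩⟩ := h'.vals
    omega

/-- a fourth function is far at one of the two pairs and near at the other one -/
lemma Sys.dich {v : K → K → I → I → ℤ} (S : Sys v) {i j m p : I} (ij : i ≠ j) (jm : j ≠ m)
    (im : i ≠ m) (ip : i ≠ p) (jp : j ≠ p) (mp : m ≠ p) {α β γ δ : K}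
    (h : Typ v i j m α β γ δ) :
    ((v α β i p = v α β i m ∧ v α β j p = v α β i m) ∧
      (v γ δ i p = v γ δ i j ∧ v γ δ j p = v γ δ i j ∧ v γ δ m p = v γ δ i m)) ∨
    ((v α β i p = v α β i j ∧ v α β j p = v α β i j ∧ v α β m p = v α β i m) ∧
      (v γ δ i p = v γ δ i m ∧ v γ δ j p = v γ δ i m)) := by
  obtain ⟨⟨a1, a2⟩, ⟨a3, a4⟩, -, -, -, -⟩ := h.vals
  have p1 := S.pat ij jp ip h.ab
  have p2 := S.pat im mp ip h.ab
  have p3 := S.pat jm mp jp h.ab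
  have p4 := S.pat ij jp ip h.cd
  have p5 := S.pat im mp ip h.cd
  have p6 := S.pat jm mp jp h.cd
  unfold Pat at p1 p2 p3 p4 p5 p6
  have c1 : (v α β i p = v α β i m ∧ v α β j p = v α β i m) ∨
      (v α β i p = v α β i j ∧ v α β j p = v α β i j ∧ v α β m p = v α β i m) := by omega
  have c2 : (v γ δ i p = v γ δ i m ∧ v γ δ j p = v γ δ i m) ∨
      (v γ δ i p = v γ δ i j ∧ v γ δ j p = v γ δ i j ∧ v γ δ m p = v γ δ i m) := by omega
  rcases c1 with c1 | c1 <;> rcases c2 with c2 | c2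
  · exact (S.farfar ij jm im ip jp mp h c1.1 c1.2 c2.1 c2.2).elim
  · exact Or.inl ⟨c1, c2⟩
  · exact Or.inr ⟨c1, c2⟩
  · exact (S.nearnear ij jm im ip jp mp h c1.1 c1.2.1 c2.1 c2.2.1).elim

end EB40
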