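import Pool.Agent.Lib.EB40.CombB

/-!
# Quartet systems: the count
-/

namespace EB40

variable {K I : Type*} [DecidableEq K]

/-- at `{x, y}` exactly the functions `i` and `j` are close -/
def PairE (v : K → K → I → I → ℤ) (x y : K) (i j : I) : Prop :=
  x ≠ y ∧ ∀ p, p ≠ i → p ≠ j → v x y i j = v x y i p + 1 ∧ v x y i p = v x y j p

/-- at `{x, y}` all functions but `m` are close -/
def SingE (v : K → K → I → I → ℤ) (x y : K) (m : I) : Prop :=
  x ≠ y ∧ ∀ p q, p ≠ m → q ≠ m → p ≠ q → v x y p q = v x y p m + 1 ∧ v x y p m = v x y q m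

lemma Sys.unif {v : K → K → I → I → ℤ} (S : Sys v) {i j m p q : I} (ij : i ≠ j) (jm : j ≠ m)
    (im : i ≠ m) (ip : i ≠ p) (jp : j ≠ p) (mp : m ≠ p) (iq : i ≠ q) (jq : j ≠ q) (mq : m ≠ q)
    (pq : p ≠ q) {α β γ δ : K} (h : Typ v i j m α β γ δ)
    (f : v α β i p = v α β i m ∧ v α β j p = v α β i m) :
    (v α β i q = v α β i m ∧ v α β j q = v α β i m) ∧
      (v γ δ i q = v γ δ i j ∧ v γ δ j q = v γ δ i j ∧ v γ δ m q = v γ δ i m) := by
  obtain ⟨⟨a1, a2⟩, ⟨a3, a4⟩, -, -, -, -⟩ := h.vals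
  rcases S.dich ij jm im iq jq mq h with hq | hq
  · exact hq
  · exfalso
    rcases S.dich ij jm im ip jp mp h with hp | hp
    · have p1 := S.pat ip pq iq h.ab
      have p2 := S.pat ip pq iq h.cd
      unfold Pat at p1 p2
      obtain ⟨hp1, hp2⟩ := hp
      obtain ⟨hq1, hq2⟩ := hq
      have n1 : ¬ Nd v i p q α β := by unfold Nd; omega
      have n2 : ¬ Nd v i p q γ δ := by unfold Nd; omega
      obtain ⟨α', β', γ', δ', h'⟩ := S.tri i p q ip pq iq
      have s1 := S.symI α β i p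
      have s2 := S.symI α β i q
      have s3 := S.symI α β p q
      have s4 := S.symI γ δ i p
      have s5 := S.symI γ δ i q
      have s6 := S.symI γ δ p q
      rcases h'.key S.symI h.ab h.ac h.ad h.bc h.bd h.cd n1 n2 with
        (h' | h') | (h' | h') | (h' | h') <;>
      · obtain ⟨⟨d1, d2⟩, ⟨d3, d4⟩, -, -, -, -⟩ := h'.vals
        obtain ⟨⟨d5, d6⟩, ⟨d7, d8⟩, -, -, -, -⟩ := h'.perm1.vals
        omega
    · omega

lemma Sys.pair_and_sing {v : K → K → I → I → ℤ} (S : Sys v) {i j m p : I} (ij : i ≠ j)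
    (jm : j ≠ m) (im : i ≠ m) (ip : i ≠ p) (jp : j ≠ p) (mp : m ≠ p) {α β γ δ : K}
    (h : Typ v i j m α β γ δ) (f : v α β i p = v α β i m ∧ v α β j p = v α β i m) :
    PairE v α β i j ∧ SingE v γ δ m := by
  obtain ⟨⟨a1, a2⟩, ⟨a3, a4⟩, -, -, -, -⟩ := h.vals
  have hall : ∀ q, i ≠ q → j ≠ q → m ≠ q →
      (v α β i q = v α β i m ∧ v α β j q = v α β i m) ∧
      (v γ δ i q = v γ δ i j ∧ v γ δ j q = v γ δ i j ∧ v γ δ m q = v γ δ i m) := by
    intro q iq jq mq
    by_cases pq : p = q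
    · subst pq
      rcases S.dich ij jm im ip jp mp h with hp | hp
      · exact hp
      · omega
    · exact S.unif ij jm im ip jp mp iq jq mq pq h f
  refine ⟨⟨h.ab, ?_⟩, ⟨h.cd, ?_⟩⟩
  · intro q qi qj
    by_cases qm : q = m
    · subst qm
      exact ⟨a1, a2⟩
    · obtain ⟨⟨b1, b2⟩, -⟩ := hall q (Ne.symm qi) (Ne.symm qj) (Ne.symm qm)
      constructor <;> omega
  · intro q r qm rm qr
    have t1 := S.symI γ δ i m
    have t2 := S.symI γ δ j m
    have t3 := S.symI γ δ i j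
    by_cases qi : q = i
    · subst qi
      by_cases rj : r = j
      · subst rj
        constructor <;> omega
      · obtain ⟨-, b1, b2, b3⟩ := hall r qr (Ne.symm rj) (Ne.symm rm)
        have t4 := S.symI γ δ r m
        constructor <;> omega
    by_cases qj : q = j
    · subst qj
      by_cases ri : r = i
      · subst ri
        constructor <;> omega
      · obtain ⟨-, b1, b2, b3⟩ := hall r (Ne.symm ri) qr (Ne.symm rm)
        have t4 := S.symI γ δ r m
        constructor <;> omega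
    obtain ⟨-, b1, b2, b3⟩ := hall q (Ne.symm qi) (Ne.symm qj) (Ne.symm qm)
    have t4 := S.symI γ δ q m
    have t5 := S.symI γ δ q i
    have t6 := S.symI γ δ q j
    by_cases ri : r = i
    · subst ri
      constructor <;> omega
    by_cases rj : r = j
    · subst rj
      constructor <;> omega
    obtain ⟨-, c1, c2, c3⟩ := hall r (Ne.symm ri) (Ne.symm rj) (Ne.symm rm)
    have t7 := S.symI γ δ r m
    have p1 := S.pat (Ne.symm qi) qr (Ne.symm ri) h.cd
    have p2 := S.pat (Ne.symm qm) qr (Ne.symm rm) h.cd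
    unfold Pat at p1 p2
    constructor <;> omega

lemma Sys.exists_both {v : K → K → I → I → ℤ} (S : Sys v) {i j m p : I} (ij : i ≠ j)
    (jm : j ≠ m) (im : i ≠ m) (ip : i ≠ p) (jp : j ≠ p) (mp : m ≠ p) :
    (∃ x y, PairE v x y i j) ∧ (∃ x y, SingE v x y m) := by
  obtain ⟨α, β, γ, δ, h⟩ := S.tri i j m ij jm im
  rcases S.dich ij jm im ip jp mp h with hp | hp
  · have h1 := S.pair_and_sing ij jm im ip jp mp h hp.1
    exact ⟨⟨_, _, h1.1⟩, ⟨_, _, h1.2⟩⟩
  · have h1 := S.pair_and_sing ij jm im ip jp mp h.perm2 hp.2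
    exact ⟨⟨_, _, h1.1⟩, ⟨_, _, h1.2⟩⟩

/-- two disjoint clusters cannot occur at the same pair -/
lemma Sys.not_two_pairs {v : K → K → I → I → ℤ} (S : Sys v) {i j m p : I} (ij : i ≠ j)
    (jm : j ≠ m) (im : i ≠ m) (ip : i ≠ p) (jp : j ≠ p) (mp : m ≠ p) {x y : K}
    (h1 : PairE v x y i j) (h2 : PairE v x y m p) : False := by
  obtain ⟨xy, g1⟩ := h1
  obtain ⟨-, g2⟩ := h2
  have a1 := g1 m im.symm jm.symm
  have a2 := g1 p ip.symm jp.symm
  have a3 := g2 i im ip
  have t1 := S.symI x y i m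
  have t2 := S.symI x y i p
  obtain ⟨α, β, γ, δ, h⟩ := S.tri i j m ij jm im
  have n1 : ¬ Nd v i j m x y := by unfold Nd; omega
  obtain ⟨mx, my⟩ := h.mem_of_not_nd xy n1
  obtain ⟨β', γ', δ', h'⟩ := h.start mx
  have my' := (h'.mem_of_not_nd xy n1).2
  have hv := h'.vals
  have hy : y = β' := by
    rcases my' with rfl | rfl | rfl | rfl
    · exact absurd rfl xy
    · rfl
    · omega
    · omega
  subst hy
  obtain ⟨⟨b1, b2⟩, ⟨b3, b4⟩, -, -, -, -⟩ := hv
  have f : v x y i p = v x y i m ∧ v x y j p = v x y i m := by omega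
  rcases S.dich ij jm im ip jp mp h' with hp | hp
  · obtain ⟨-, c1, c2, c3⟩ := hp
    have n2 : ¬ Nd v i m p x y := by unfold Nd; omega
    have n3 : ¬ Nd v i m p γ' δ' := by unfold Nd; omega
    obtain ⟨α₂, β₂, γ₂, δ₂, h₂⟩ := S.tri i m p im mp ip
    have s3 := S.symI x y m p
    have s4 := S.symI γ' δ' i m
    have s5 := S.symI γ' δ' i p
    have s6 := S.symI γ' δ' m p
    rcases h₂.key S.symI h'.ab h'.ac h'.ad h'.bc h'.bd h'.cd n2 n3 with
      (h₂ | h₂) | (h₂ | h₂) | (h₂ | h₂) <;>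
    · obtain ⟨⟨d1, d2⟩, ⟨d3, d4⟩, -, -, -, -⟩ := h₂.vals
      obtain ⟨⟨d5, d6⟩, ⟨d7, d8⟩, -, -, -, -⟩ := h₂.perm1.vals
      omega
  · omega

end EB40
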