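import Pool.Agent.Lib.EB40.Basic
import Pool.Agent.Lib.EB40.Asym

/-!
# Curves on `PP = 1` approaching the divisor at infinity of a pair
-/

namespace EB40

open MvPolynomial Finset Filter Asymptotics Topology

lemma eval_smul_homog {k D : ℕ} {G : MvPolynomial (Fin k) ℂ} (hG : G.IsHomogeneous D)
    (c : ℂ) (x : Fin k → ℂ) : eval (fun i => c * x i) G = c ^ D * eval x G := by
  rw [MvPolynomial.eval_eq', MvPolynomial.eval_eq', Finset.mul_sum]
  refine Finset.sum_congr rfl fun d hd => ?_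
  have h1 : ∑ i, d i = D := by
    have h2 := hG.degree_eq_sum_deg_support hd
    rw [h2]
    symm
    apply Finset.sum_subset (Finset.subset_univ _)
    intro i _ hi
    simpa using hi
  have h3 : ∏ i, (c * x i) ^ d i = c ^ D * ∏ i, x i ^ d i := by
    rw [← h1, ← Finset.prod_pow_eq_pow_sum, ← Finset.prod_mul_distrib]
    refine Finset.prod_congr rfl fun i _ => ?_
    rw [mul_pow]
  rw [h3]; ring

/-- the cofactor of `ell e` in the product -/
noncomputable def QQ {k : ℕ} (e : Fin k × Fin k) : MvPolynomial (Fin k) ℂ :=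
  ∏ f ∈ (E k).erase e, ell f

lemma PP_eq_mul {k : ℕ} {e : Fin k × Fin k} (he : e ∈ E k) : PP k = ell e * QQ e :=
  (Finset.mul_prod_erase (E k) ell he).symm

lemma not_dvd_QQ {k : ℕ} {e : Fin k × Fin k} (he : e ∈ E k) : ¬ ell e ∣ QQ e := by
  have hp := ell_prime (mem_E.1 he).ne
  intro h
  obtain ⟨f, hf, hdvd⟩ := hp.exists_mem_finset_dvd h
  rw [Finset.mem_erase] at hf
  exact ell_not_dvd he hf.2 (Ne.symm hf.1) hdvd

lemma exists_curve {k : ℕ} (e : Fin k × Fin k) (he : e ∈ E k) (M : MvPolynomial (Fin k) ℂ)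
    (hM : ¬ ell e ∣ M) :
    ∃ t : ℝ → (Fin k → ℂ), (∀ᶠ σ in 𝓝[>] (0:ℝ), eval (t σ) (PP k) = 1) ∧
      ∀ (G C : MvPolynomial (Fin k) ℂ) (D o : ℕ), G.IsHomogeneous D → G = ell e ^ o * C →
        C ∣ M → (fun σ => eval (t σ) G) =Θ[𝓝[>] (0:ℝ)]
          (fun σ : ℝ => (σ ^ (((E k).card : ℤ) * (o : ℤ) - (D : ℤ)) : ℝ)) := by
  have hlt := mem_E.1 he
  have hne : e.1 ≠ e.2 := hlt.ne
  have hp := ell_prime hne
  set N := (E k).card with hN
  have hNpos : 0 < N := Finset.card_pos.2 ⟨e, he⟩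
  -- a generic point of the hyperplane
  have hMQ : ¬ ell e ∣ M * QQ e := by
    intro h
    rcases hp.dvd_or_dvd h with h | h
    · exact hM h
    · exact not_dvd_QQ he h
  have hrho : rho e (M * QQ e) ≠ 0 := fun h => hMQ ((dvd_iff_rho e hne _).2 h)
  obtain ⟨y0, hy0⟩ : ∃ y0, eval y0 (rho e (M * QQ e)) ≠ 0 := by
    by_contra hcon
    push Not at hcon
    apply hrho
    apply MvPolynomial.funext
    intro x
    rw [hcon x, map_zero]
  rw [eval_rho] at hy0
  set y : Fin k → ℂ := fun i => if i = e.1 then y0 e.2 else y0 i with hy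
  have hy1 : y e.1 = y e.2 := by simp [hy]
  rw [map_mul] at hy0
  have hMy : eval y M ≠ 0 := left_ne_zero_of_mul hy0
  have hQy : eval y (QQ e) ≠ 0 := right_ne_zero_of_mul hy0
  -- the line
  set x : ℝ → (Fin k → ℂ) := fun σ i => y i + (if i = e.2 then ((σ : ℂ)) ^ N else 0) with hx
  have hx0 : x 0 = y := by
    funext i
    simp only [hx, Complex.ofReal_zero, zero_pow hNpos.ne']
    split_ifs <;> simp
  have hxcont : Continuous x := by
    rw [continuous_pi_iff]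
    intro i
    simp only [hx]
    split_ifs
    · exact continuous_const.add ((Complex.continuous_ofReal).pow N)
    · exact continuous_const.add continuous_const
  have hev : ∀ F : MvPolynomial (Fin k) ℂ, Tendsto (fun σ => eval (x σ) F) (𝓝[>] (0:ℝ))
      (𝓝 (eval y F)) := by
    intro F
    have h1 : Continuous (fun σ => eval (x σ) F) := (MvPolynomial.continuous_eval F).comp hxcont
    have h2 := h1.tendsto 0
    simp only [hx0] at h2
    exact h2.mono_left nhdsWithin_le_nhds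
  have hthe : ∀ F : MvPolynomial (Fin k) ℂ, eval y F ≠ 0 →
      (fun σ => eval (x σ) F) =Θ[𝓝[>] (0:ℝ)] (fun _ : ℝ => (1:ℝ)) := by
    intro F hF
    exact (((isEquivalent_const_iff_tendsto hF).2 (hev F)).isTheta).trans
      (isTheta_const_const hF one_ne_zero)
  have hell : ∀ σ, eval (x σ) (ell e) = (σ : ℂ) ^ N := by
    intro σ
    rw [eval_ell]
    simp only [hx, if_true, if_neg hne, ← hy1]
    ring
  have hσ : (fun σ : ℝ => ((σ : ℂ))) =Θ[𝓝[>] (0:ℝ)] (fun σ : ℝ => σ) := by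
    rw [← Asymptotics.isTheta_norm_left]
    simp only [Complex.norm_real]
    rw [Asymptotics.isTheta_norm_left]
    exact isTheta_refl _ _
  -- the root
  have hroot : ∀ σ : ℝ, ∃ z : ℂ, z ^ N = eval (x σ) (PP k) := fun σ =>
    IsAlgClosed.exists_pow_nat_eq (eval (x σ) (PP k)) hNpos
  choose s hs using hroot
  have hPx : ∀ σ, eval (x σ) (PP k) = (σ:ℂ) ^ N * eval (x σ) (QQ e) := by
    intro σ
    rw [PP_eq_mul he, map_mul, hell]
  have hsN : (fun σ => (s σ) ^ N) =Θ[𝓝[>] (0:ℝ)] (fun σ : ℝ => σ ^ N) := by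
    have h1 : (fun σ : ℝ => (s σ) ^ N) = fun σ : ℝ => (σ:ℂ) ^ N * eval (x σ) (QQ e) := by
      funext σ; rw [hs, hPx]
    rw [h1]
    have h2 := (hσ.pow N).mul (hthe (QQ e) hQy)
    simpa using h2
  have hsθ : s =Θ[𝓝[>] (0:ℝ)] (fun σ : ℝ => σ) :=
    ⟨IsBigO.of_pow hNpos.ne' hsN.1, IsBigO.of_pow hNpos.ne' hsN.2⟩
  have hsne : ∀ᶠ σ in 𝓝[>] (0:ℝ), s σ ≠ 0 := by
    have h1 : ∀ᶠ σ in 𝓝[>] (0:ℝ), eval (x σ) (QQ e) ≠ 0 :=
      (hev (QQ e)).eventually_ne hQy
    filter_upwards [h1, self_mem_nhdsWithin] with σ h2 h3 h4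
    have h5 := hs σ
    rw [h4, zero_pow hNpos.ne', hPx] at h5
    have h6 : ((σ:ℂ)) ^ N ≠ 0 := pow_ne_zero _ (by exact_mod_cast (ne_of_gt h3))
    exact mul_ne_zero h6 h2 h5.symm
  refine ⟨fun σ i => (s σ)⁻¹ * x σ i, ?_, ?_⟩
  · filter_upwards [hsne] with σ hσ0
    rw [eval_smul_homog (PP_homog k), ← hs σ, ← mul_pow, inv_mul_cancel₀ hσ0, one_pow]
  · intro G C D o hG hGC hCM
    have hCy : eval y C ≠ 0 := by
      obtain ⟨C', hC'⟩ := hCM
      rw [hC', map_mul] at hMy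
      exact left_ne_zero_of_mul hMy
    have h1 : (fun σ : ℝ => eval (fun i => (s σ)⁻¹ * x σ i) G) =
        fun σ : ℝ => (s σ)⁻¹ ^ D * (((σ:ℂ) ^ N) ^ o * eval (x σ) C) := by
      funext σ
      rw [eval_smul_homog hG, hGC, map_mul, map_pow, hell]
    rw [h1]
    have h2 := (hsθ.inv.pow D).mul (((hσ.pow N).pow o).mul (hthe C hCy))
    refine h2.trans_eventuallyEq ?_
    filter_upwards [self_mem_nhdsWithin] with σ h3
    have h4 : (σ:ℝ) ≠ 0 := ne_of_gt h3
    rw [mul_one, inv_pow, ← pow_mul, ← zpow_natCast, ← zpow_natCast, ← zpow_neg, ← zpow_add₀ h4]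
    congr 1
    push_cast
    ring

end EB40
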