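import Mathlib

/-!
# Level sets of the discriminant (problem MP_eb1491_ag)
-/

namespace EB40

open Finset

/-- The polynomial `p_z(t) = t^n + z_1 t^(n-1) + ... + z_n`; the coordinate `z i` (with `i : Fin n`
counted from `0`) is the coefficient `z_(i+1)` of `t^(n-1-i)`. -/
noncomputable def pz {n : ℕ} (z : Fin n → ℂ) : Polynomial ℂ :=
  Polynomial.X ^ n + ∑ i : Fin n, Polynomial.C (z i) * Polynomial.X ^ (n - 1 - (i : ℕ))

/-- The level set `SG_n`: `z_1 = 0` and the discriminant of `p_z` is `1`. -/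
def SG (n : ℕ) : Set (Fin n → ℂ) :=
  {z | (∀ i : Fin n, (i : ℕ) = 0 → z i = 0) ∧ (pz z).discr = 1}

/-- The ordered level set: `k`-tuples of numbers with sum `0` and with
`∏_{a < b} (x_b - x_a) = 1`. -/
def Ordered (k : ℕ) : Set (Fin k → ℂ) :=
  {x | ∑ i, x i = 0 ∧
    ∏ e ∈ Finset.univ.filter (fun e : Fin k × Fin k => e.1 < e.2), (x e.2 - x e.1) = 1}

end EB40
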