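import Pool.Agent.Lib.EB40.Red
import Pool.Agent.Lib.EB40.Defs

/-!
# Maps between level sets of the discriminant: preparations
-/

namespace EB40

open Finset Polynomial

/-- The discriminant of a monic polynomial which splits. -/
theorem discr_prod_X_sub_C {n : ℕ} (hn : 0 < n) (r : Fin n → ℂ) :
    (∏ i, (X - C (r i))).discr = (Matrix.vandermonde r).det ^ 2 := by
  set g : ℂ[X] := ∏ i, (X - C (r i)) with hg
  have hmon : g.Monic := monic_prod_X_sub_C r _
  have hdeg : g.natDegree = n := by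
    rw [hg, natDegree_finsetProd_X_sub_C_eq_card, Finset.card_univ, Fintype.card_fin]
  have hdeg0 : 0 < g.degree := by
    rw [← natDegree_pos_iff_degree_pos, hdeg]
    exact hn
  have hsplit : g.Splits := Polynomial.Splits.prod fun i _ => Splits.X_sub_C (r i)
  have hroots : g.roots = Multiset.map r Finset.univ.val := by
    have e : g = ((Finset.univ.val.map r).map fun a => X - C a).prod := by
      rw [Multiset.map_map]
      rfl
    rw [e, roots_multiset_prod_X_sub_C]
  have h1 := resultant_deriv hdeg0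
  have h2 := resultant_eq_prod_eval g g.derivative (g.natDegree - 1)
    (natDegree_derivative_le g) hsplit
  rw [h2, hmon.leadingCoeff, one_pow, one_mul, mul_one, hroots, Multiset.map_map] at h1
  have h3 : ∀ i, g.derivative.eval (r i) = ∏ j ∈ {i}ᶜ, (r i - r j) := by
    intro i
    have e : g = Lagrange.nodal Finset.univ r := rfl
    rw [e, Lagrange.eval_nodal_derivative_eval_node_eq (Finset.mem_univ i), Lagrange.eval_nodal,
      Finset.compl_singleton]
  have h4 : (Multiset.map ((fun x => eval x g.derivative) ∘ r) Finset.univ.val).prod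
      = ∏ i, ∏ j ∈ {i}ᶜ, (r i - r j) := Finset.prod_congr rfl fun i _ => h3 i
  rw [h4, ← Finset.prod_prod_Ioi_mul_eq_prod_prod_off_diag (fun j i => r i - r j)] at h1
  have h5 : ∏ i : Fin n, ∏ j ∈ Finset.Ioi i, (r i - r j) * (r j - r i)
      = (-1) ^ (n * (n - 1) / 2) * (Matrix.vandermonde r).det ^ 2 := by
    rw [Matrix.det_vandermonde, ← Finset.prod_pow]
    have e1 : ∀ i : Fin n, ∏ j ∈ Finset.Ioi i, (r i - r j) * (r j - r i)
        = (-1) ^ (n - 1 - (i : ℕ)) * (∏ j ∈ Finset.Ioi i, (r j - r i)) ^ 2 := by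
      intro i
      rw [← Fin.card_Ioi, ← Finset.prod_pow, ← Finset.prod_const, ← Finset.prod_mul_distrib]
      exact Finset.prod_congr rfl fun j _ => by ring
    rw [Finset.prod_congr rfl fun i _ => e1 i, Finset.prod_mul_distrib]
    congr 1
    rw [Finset.prod_pow_eq_pow_sum, Fin.sum_univ_eq_sum_range (fun i => n - 1 - i) n,
      Finset.sum_range_reflect (fun i => i) n, Finset.sum_range_id]
  rw [h5, hdeg] at h1
  have h6 : ((-1 : ℂ) ^ (n * (n - 1) / 2)) ≠ 0 := pow_ne_zero _ (by simp)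
  exact (mul_left_cancel₀ h6 h1).symm

/-- the Vandermonde determinant is the product of the differences -/
lemma det_eq_prod_E {n : ℕ} (x : Fin n → ℂ) :
    (Matrix.vandermonde x).det = ∏ e ∈ E n, (x e.2 - x e.1) := by
  rw [Matrix.det_vandermonde, Finset.prod_sigma']
  refine Finset.prod_nbij' (fun a => (a.1, a.2)) (fun e => ⟨e.1, e.2⟩) ?_ ?_ ?_ ?_ ?_
  · rintro ⟨a, b⟩ h
    simpa [E] using h
  · rintro ⟨a, b⟩ h
    simpa [E] using h
  · rintro ⟨a, b⟩ _; rfl
  · rintro ⟨a, b⟩ _; rfl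
  · rintro ⟨a, b⟩ _; rfl

lemma coeff_pz {n : ℕ} (z : Fin n → ℂ) (i : Fin n) : (pz z).coeff (n - 1 - (i : ℕ)) = z i := by
  unfold pz
  rw [coeff_add, coeff_X_pow, if_neg (by have := i.isLt; omega), zero_add, finsetSum_coeff,
    Finset.sum_eq_single i]
  · rw [coeff_C_mul, coeff_X_pow, if_pos rfl, mul_one]
  · intro j _ hne
    rw [coeff_C_mul, coeff_X_pow, if_neg, mul_zero]
    intro h
    apply hne
    have h1 := i.isLt
    have h2 := j.isLt
    apply Fin.ext
    omega
  · intro h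
    exact absurd (Finset.mem_univ i) h

lemma pz_injective {n : ℕ} {z w : Fin n → ℂ} (h : pz z = pz w) : z = w := by
  funext i
  rw [← coeff_pz z i, h, coeff_pz]

lemma exists_pz {n : ℕ} {p : ℂ[X]} (hp : p.Monic) (hn : p.natDegree = n) :
    ∃ z : Fin n → ℂ, pz z = p := by
  refine ⟨fun i => p.coeff (n - 1 - (i : ℕ)), ?_⟩
  have h1 := hp.as_sum
  rw [hn] at h1
  conv_rhs => rw [h1]
  unfold pz
  congr 1
  rw [Fin.sum_univ_eq_sum_range (fun i => C (p.coeff (n - 1 - i)) * X ^ (n - 1 - i)) n]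
  exact Finset.sum_range_reflect (fun i => C (p.coeff i) * X ^ i) n

lemma pz_monic {n : ℕ} (z : Fin n → ℂ) : (pz z).Monic ∧ (pz z).natDegree = n := by
  have hlt : (∑ i : Fin n, C (z i) * X ^ (n - 1 - (i : ℕ)) : ℂ[X]).degree < (n : WithBot ℕ) := by
    rw [← Polynomial.mem_degreeLT]
    refine Submodule.sum_mem _ fun i _ => ?_
    rw [Polynomial.mem_degreeLT]
    refine (Polynomial.degree_C_mul_X_pow_le _ _).trans_lt ?_
    have := i.isLt
    exact_mod_cast (by omega : n - 1 - (i : ℕ) < n)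
  have hm : (pz z).Monic := Polynomial.monic_X_pow_add hlt
  refine ⟨hm, ?_⟩
  unfold pz
  rw [Polynomial.natDegree_add_eq_left_of_degree_lt, Polynomial.natDegree_X_pow]
  rw [Polynomial.degree_X_pow]
  exact hlt

/-- the coefficient `z_1` is minus the sum of the roots -/
lemma zero_coord {n : ℕ} {z x : Fin n → ℂ} (h : pz z = ∏ i, (X - C (x i))) (hn : 0 < n) :
    z ⟨0, hn⟩ = -∑ i, x i := by
  rw [← coeff_pz z ⟨0, hn⟩, h]
  have h1 := Polynomial.prod_X_sub_C_coeff_card_pred (Finset.univ : Finset (Fin n)) x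
    (by rw [Finset.card_univ, Fintype.card_fin]; exact hn)
  rw [Finset.card_univ, Fintype.card_fin] at h1
  simpa using h1

lemma mem_SG_iff {n : ℕ} (hn : 0 < n) {z x : Fin n → ℂ} (h : pz z = ∏ i, (X - C (x i))) :
    z ∈ SG n ↔ (∑ i, x i = 0 ∧ (∏ e ∈ E n, (x e.2 - x e.1)) ^ 2 = 1) := by
  have h0 := zero_coord h hn
  have h1 : (pz z).discr = (∏ e ∈ E n, (x e.2 - x e.1)) ^ 2 := by
    rw [h, discr_prod_X_sub_C hn, det_eq_prod_E]
  constructor
  · rintro ⟨h2, h3⟩
    refine ⟨?_, by rw [← h1]; exact h3⟩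
    have h4 := h2 ⟨0, hn⟩ rfl
    rw [h0, neg_eq_zero] at h4
    exact h4
  · rintro ⟨h2, h3⟩
    refine ⟨?_, by rw [h1]; exact h3⟩
    intro i hi
    have : i = ⟨0, hn⟩ := Fin.ext hi
    rw [this, h0, h2, neg_zero]

lemma mem_Ordered {k : ℕ} {x : Fin k → ℂ} :
    x ∈ Ordered k ↔ (∑ i, x i = 0 ∧ MvPolynomial.eval x (PP k) = 1) := by
  rw [eval_PP]
  rfl

/-- every point of `SG_k` comes from a point of the ordered level set -/
lemma exists_ordered {k : ℕ} (hk : 2 ≤ k) {z : Fin k → ℂ} (hz : z ∈ SG k) :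
    ∃ x ∈ Ordered k, pz z = ∏ i, (X - C (x i)) := by
  have hk0 : 0 < k := by omega
  obtain ⟨hm, hd⟩ := pz_monic z
  obtain ⟨x, hx⟩ : ∃ x : Fin k → ℂ, pz z = ∏ i, (X - C (x i)) := by
    have hs := IsAlgClosed.splits (pz z)
    have h1 := hs.eq_prod_roots_of_monic hm
    have h2 : Multiset.card (pz z).roots = k := by rw [← hs.natDegree_eq_card_roots, hd]
    obtain ⟨l, hl⟩ := Quot.exists_rep (pz z).roots
    have hl' : (l : Multiset ℂ) = (pz z).roots := hl
    have h3 : l.length = k := by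
      rw [← hl'] at h2
      simpa using h2
    subst h3
    refine ⟨fun i => l.get i, ?_⟩
    rw [h1, ← hl', Multiset.map_coe, Multiset.prod_coe, ← List.prod_ofFn]
    congr 1
    conv_lhs => rw [← List.ofFn_get l]
    rw [List.map_ofFn]
    rfl
  have h1 := (mem_SG_iff hk0 hx).1 hz
  have h1' := h1.2
  rw [sq, mul_self_eq_one_iff] at h1'
  rcases h1' with h2 | h2
  · exact ⟨x, mem_Ordered.2 ⟨h1.1, by rw [eval_PP]; exact h2⟩, hx⟩
  · set σ : Equiv.Perm (Fin k) := Equiv.swap ⟨0, hk0⟩ ⟨1, by omega⟩ with hσ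
    have hsign : Equiv.Perm.sign σ = -1 := by
      rw [hσ]
      refine Equiv.Perm.sign_swap ?_
      intro h
      have := congrArg Fin.val h
      simp at this
    refine ⟨fun i => x (σ i), mem_Ordered.2 ⟨?_, ?_⟩, ?_⟩
    · rw [Equiv.sum_comp σ x]
      exact h1.1
    · rw [eval_PP, ← det_eq_prod_E (fun i => x (σ i))]
      have h3 : Matrix.vandermonde (fun i => x (σ i)) = (Matrix.vandermonde x).submatrix σ id := by
        ext i j
        simp [Matrix.vandermonde]
      rw [h3, Matrix.det_permute, hsign, det_eq_prod_E, h2]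
      simp
    · rw [hx]
      exact (Equiv.prod_comp σ (fun i => X - C (x i))).symm

end EB40
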