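import Pool.Agent.Lib.EB40.Final

/-!
# Maps between level sets of the discriminant
-/

namespace EB40

open Finset

/-- translation to the barycentre -/
noncomputable def sh {k : ℕ} (g : MvPolynomial (Fin k) ℂ) : MvPolynomial (Fin k) ℂ :=
  MvPolynomial.aeval (fun a => MvPolynomial.X a - MvPolynomial.C ((k : ℂ)⁻¹) *
    ∑ b, MvPolynomial.X b) g

lemma eval_sh {k : ℕ} (g : MvPolynomial (Fin k) ℂ) (x : Fin k → ℂ) :
    MvPolynomial.eval x (sh g) =
      MvPolynomial.eval (fun a => x a - (k : ℂ)⁻¹ * ∑ b, x b) g := by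
  unfold sh
  induction g using MvPolynomial.induction_on with
  | C c => simp [MvPolynomial.algebraMap_eq]
  | add p q hp hq => rw [map_add, map_add, map_add, hp, hq]
  | mul_X p i hp =>
    rw [map_mul, map_mul, map_mul, hp]
    congr 1
    simp

lemma eval_mono_sub {k : ℕ} (v : Fin k × Fin k → ℕ) (x : Fin k → ℂ) (c : ℂ) :
    MvPolynomial.eval (fun a => x a - c) (mono v) = MvPolynomial.eval x (mono v) := by
  rw [eval_mono, eval_mono]
  refine Finset.prod_congr rfl fun e _ => ?_
  congr 1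
  ring

lemma eval_PP_sub {k : ℕ} (x : Fin k → ℂ) (c : ℂ) :
    MvPolynomial.eval (fun a => x a - c) (PP k) = MvPolynomial.eval x (PP k) := by
  rw [PP_eq_mono, eval_mono_sub]

lemma sub_mem_Ordered {k : ℕ} (hk : 0 < k) {x : Fin k → ℂ}
    (hx : MvPolynomial.eval x (PP k) = 1) :
    (fun a => x a - (k : ℂ)⁻¹ * ∑ b, x b) ∈ Ordered k := by
  rw [mem_Ordered, eval_PP_sub]
  refine ⟨?_, hx⟩
  rw [Finset.sum_sub_distrib, Finset.sum_const, Finset.card_univ, Fintype.card_fin, nsmul_eq_mul,
    ← mul_assoc, mul_inv_cancel₀, one_mul, sub_self]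
  exact_mod_cast hk.ne'

/-- normalisation by a scalar -/
lemma exists_scale {k : ℕ} (hk : 2 ≤ k) {x : Fin k → ℂ} (hx : MvPolynomial.eval x (PP k) ≠ 0) :
    ∃ c : ℂ, c ≠ 0 ∧ MvPolynomial.eval (fun i => c * x i) (PP k) = 1 := by
  obtain ⟨c, hc⟩ := IsAlgClosed.exists_pow_nat_eq (MvPolynomial.eval x (PP k))⁻¹ (E_card_pos hk)
  have h1 : MvPolynomial.eval (fun i => c * x i) (PP k) = 1 := by
    rw [eval_smul_homog (PP_homog k), hc, inv_mul_cancel₀ hx]
  refine ⟨c, ?_, h1⟩
  rintro rfl
  rw [zero_pow (E_card_pos hk).ne'] at hc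
  exact inv_ne_zero hx hc.symm

lemma exists_point {k : ℕ} (hk : 2 ≤ k) : ∃ x : Fin k → ℂ, MvPolynomial.eval x (PP k) = 1 := by
  have h0 : MvPolynomial.eval (fun i : Fin k => ((i : ℕ) : ℂ)) (PP k) ≠ 0 := by
    rw [eval_PP, Finset.prod_ne_zero_iff]
    intro e he h
    have h1 : ((e.2 : ℕ) : ℂ) = ((e.1 : ℕ) : ℂ) := sub_eq_zero.1 h
    have h2 : (e.2 : ℕ) = (e.1 : ℕ) := by exact_mod_cast h1
    have h3 := mem_E.1 he
    omega
  obtain ⟨c, -, hc⟩ := exists_scale hk h0
  exact ⟨_, hc⟩

lemma homog_eq {k D : ℕ} (hk : 2 ≤ k) {F G : MvPolynomial (Fin k) ℂ} (hF : F.IsHomogeneous D)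
    (hG : G.IsHomogeneous D)
    (h : ∀ x, MvPolynomial.eval x (PP k) = 1 → MvPolynomial.eval x F = MvPolynomial.eval x G) :
    F = G := by
  have h1 : (F - G) * PP k = 0 := by
    apply MvPolynomial.funext
    intro x
    rw [map_mul, map_sub, map_zero]
    by_cases hx : MvPolynomial.eval x (PP k) = 0
    · rw [hx, mul_zero]
    · obtain ⟨c, hc0, hc⟩ := exists_scale hk hx
      have h2 := h _ hc
      rw [eval_smul_homog hF, eval_smul_homog hG] at h2
      rw [mul_left_cancel₀ (pow_ne_zero D hc0) h2, sub_self, zero_mul]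
  rcases mul_eq_zero.1 h1 with h2 | h2
  · exact sub_eq_zero.1 h2
  · exact absurd h2 (PP_ne_zero k)

/-- a product of differences with a constant power is `1` on `PP = 1` -/
lemma unit_const {k : ℕ} (hk : 2 ≤ k) {v : Fin k × Fin k → ℕ} {c : ℂ} {M : ℕ} (hM : 0 < M)
    (h : ∀ x, MvPolynomial.eval x (PP k) = 1 → c * (MvPolynomial.eval x (mono v)) ^ M = 1)
    (x : Fin k → ℂ) (hx : MvPolynomial.eval x (PP k) = 1) :
    MvPolynomial.eval x (mono v) = 1 := by
  have hN := E_card_pos hk
  set N := (E k).card with hNdef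
  have hc : c ≠ 0 := by
    rintro rfl
    have := h x hx
    rw [zero_mul] at this
    exact zero_ne_one this
  set D := M * ∑ e ∈ E k, v e with hD
  have hF : (MvPolynomial.C (c ^ N) * mono (fun e => N * M * v e)).IsHomogeneous (N * D) := by
    have h1 := (MvPolynomial.isHomogeneous_C (Fin k) (c ^ N)).mul
      (mono_homog (k := k) (fun e => N * M * v e))
    have h2 : 0 + ∑ e ∈ E k, N * M * v e = N * D := by
      rw [zero_add, ← Finset.mul_sum, hD, mul_assoc]
    rwa [h2] at h1
  have hG : (MvPolynomial.C (1 : ℂ) * mono (k := k) (fun _ => D)).IsHomogeneous (N * D) := by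
    have h1 := (MvPolynomial.isHomogeneous_C (Fin k) (1 : ℂ)).mul (mono_homog (k := k) (fun _ => D))
    have h2 : 0 + ∑ _e ∈ E k, D = N * D := by
      rw [zero_add, Finset.sum_const, smul_eq_mul]
    rwa [h2] at h1
  have heq := homog_eq hk hF hG (by
    intro y hy
    have h1 : MvPolynomial.eval y (mono (fun e => N * M * v e)) =
        (MvPolynomial.eval y (mono v)) ^ (M * N) := by
      rw [eval_mono, eval_mono, ← Finset.prod_pow]
      refine Finset.prod_congr rfl fun e _ => ?_
      rw [← pow_mul]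
      congr 1
      ring
    have h2 : MvPolynomial.eval y (mono (k := k) (fun _ => D)) =
        (MvPolynomial.eval y (PP k)) ^ D := by
      rw [eval_mono, eval_PP, ← Finset.prod_pow]
    rw [map_mul, map_mul, h1, h2, hy, one_pow, MvPolynomial.eval_C, MvPolynomial.eval_C, mul_one,
      pow_mul, ← mul_pow, h y hy, one_pow])
  have hex := exps_unique (pow_ne_zero N hc) one_ne_zero heq
  obtain ⟨e0, he0⟩ := Finset.card_pos.1 hN
  have hv : ∀ e ∈ E k, v e = v e0 := by
    intro e he
    have h1 := (hex e he).trans (hex e0 he0).symm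
    exact Nat.eq_of_mul_eq_mul_left (Nat.mul_pos hN hM) h1
  rw [eval_mono]
  have h3 : ∏ e ∈ E k, (x e.2 - x e.1) ^ v e = (MvPolynomial.eval x (PP k)) ^ v e0 := by
    rw [eval_PP, ← Finset.prod_pow]
    exact Finset.prod_congr rfl fun e he => by rw [hv e he]
  rw [h3, hx, one_pow]

/-- **Families without coincidences on the ordered level set.** -/
theorem family_on_ordered {k n : ℕ} (hk3 : 3 ≤ k) (hkn : k < n)
    (g : Fin n → MvPolynomial (Fin k) ℂ)
    (hg : ∀ i j, i ≠ j → ∀ x ∈ Ordered k,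
      MvPolynomial.eval x (g i) ≠ MvPolynomial.eval x (g j)) :
    ∃ (v : Fin k × Fin k → ℕ) (α : Fin n → ℂ) (h : MvPolynomial (Fin k) ℂ),
      Function.Injective α ∧ ∀ x ∈ Ordered k, ∀ i,
        MvPolynomial.eval x (g i) = α i * MvPolynomial.eval x (mono v) +
          MvPolynomial.eval x h := by
  have hk2 : 2 ≤ k := by omega
  have hk0 : 0 < k := by omega
  obtain ⟨v, c, hc⟩ := structure_family hk2 (I := Fin n)
    (by rw [Fintype.card_fin]; omega) (by rw [Fintype.card_fin]; exact hkn)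
    (fun i => sh (g i)) (by
      intro i j hij x hx
      rw [eval_sh, eval_sh]
      exact hg i j hij _ (sub_mem_Ordered hk0 hx))
  set i0 : Fin n := ⟨0, by omega⟩ with hi0
  have hsh : ∀ x ∈ Ordered k, ∀ p : MvPolynomial (Fin k) ℂ,
      MvPolynomial.eval x (sh p) = MvPolynomial.eval x p := by
    intro x hx p
    rw [eval_sh]
    have h1 : (∑ b, x b) = 0 := hx.1
    rw [h1]
    simp
  have hkey : ∀ x ∈ Ordered k, ∀ i, MvPolynomial.eval x (g i) =
      (if i = i0 then 0 else c i i0) * MvPolynomial.eval x (mono v) +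
        MvPolynomial.eval x (g i0) := by
    intro x hx i
    by_cases hi : i = i0
    · rw [if_pos hi, hi, zero_mul, zero_add]
    · rw [if_neg hi]
      have h1 := (hc i i0 hi).2 x (mem_Ordered.1 hx).2
      rw [hsh x hx, hsh x hx] at h1
      linear_combination h1
  refine ⟨v, fun i => if i = i0 then 0 else c i i0, g i0, ?_, hkey⟩
  intro i j hij
  by_contra hne
  obtain ⟨x, hx⟩ := exists_point hk2
  have hy := sub_mem_Ordered hk0 hx
  have h1 := hkey _ hy i
  have h2 := hkey _ hy j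
  simp only at hij
  rw [hij] at h1
  exact hg i j hne _ hy (h1.trans h2.symm)

/-- **Maps whose roots are polynomials in the ordered roots are constant.** -/
theorem maps_const {k n : ℕ} (hk3 : 3 ≤ k) (hkn : k < n) (f : SG k → SG n)
    (g : Fin n → MvPolynomial (Fin k) ℂ)
    (hfg : ∀ x ∈ Ordered k, ∀ z : SG k,
      pz (z : Fin k → ℂ) = ∏ i, (Polynomial.X - Polynomial.C (x i)) →
      pz (f z : Fin n → ℂ) =
        ∏ j, (Polynomial.X - Polynomial.C (MvPolynomial.eval x (g j))))
    (z w : SG k) : f z = f w := by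
  have hk2 : 2 ≤ k := by omega
  have hk0 : 0 < k := by omega
  have hn0 : 0 < n := by omega
  -- values of the `g j` on the ordered level set
  have hval : ∀ x ∈ Ordered k, ∑ j, MvPolynomial.eval x (g j) = 0 ∧
      (∏ e ∈ E n, (MvPolynomial.eval x (g e.2) - MvPolynomial.eval x (g e.1))) ^ 2 = 1 := by
    intro x hx
    obtain ⟨z, hz⟩ := exists_pz (Polynomial.monic_prod_X_sub_C x Finset.univ)
      (by rw [Polynomial.natDegree_finsetProd_X_sub_C_eq_card, Finset.card_univ,
        Fintype.card_fin] : (∏ i, (Polynomial.X - Polynomial.C (x i))).natDegree = k)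
    have hzS : z ∈ SG k := by
      rw [mem_SG_iff hk0 hz]
      have h1 := mem_Ordered.1 hx
      rw [eval_PP] at h1
      exact ⟨h1.1, by rw [h1.2, one_pow]⟩
    have h2 := hfg x hx ⟨z, hzS⟩ hz
    exact (mem_SG_iff hn0 h2).1 (f ⟨z, hzS⟩).2
  have hne : ∀ i j, i ≠ j → ∀ x ∈ Ordered k,
      MvPolynomial.eval x (g i) ≠ MvPolynomial.eval x (g j) := by
    intro i j hij x hx heq
    have h1 := (hval x hx).2
    have h2 : ∏ e ∈ E n, (MvPolynomial.eval x (g e.2) - MvPolynomial.eval x (g e.1)) = 0 := by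
      rcases lt_or_gt_of_ne hij with h | h
      · exact Finset.prod_eq_zero (i := (i, j)) (mem_E.2 h) (by simp [heq])
      · exact Finset.prod_eq_zero (i := (j, i)) (mem_E.2 h) (by simp [heq])
    rw [h2] at h1
    norm_num at h1
  obtain ⟨v, α, h, hα, hgα⟩ := family_on_ordered hk3 hkn g hne
  -- the unit is `1`
  have hunit : ∀ x, MvPolynomial.eval x (PP k) = 1 → MvPolynomial.eval x (mono v) = 1 := by
    refine unit_const hk2 (c := (∏ e ∈ E n, (α e.2 - α e.1)) ^ 2) (M := (E n).card * 2)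
      (Nat.mul_pos (E_card_pos (by omega)) (by norm_num)) ?_
    intro x hx
    have hy := sub_mem_Ordered hk0 hx
    have h1 := (hval _ hy).2
    have h2 : ∏ e ∈ E n, (MvPolynomial.eval (fun a => x a - (k : ℂ)⁻¹ * ∑ b, x b) (g e.2) -
        MvPolynomial.eval (fun a => x a - (k : ℂ)⁻¹ * ∑ b, x b) (g e.1)) =
        (∏ e ∈ E n, (α e.2 - α e.1)) * (MvPolynomial.eval x (mono v)) ^ (E n).card := by
      rw [← Finset.prod_const, ← Finset.prod_mul_distrib]
      refine Finset.prod_congr rfl fun e _ => ?_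
      rw [hgα _ hy, hgα _ hy, eval_mono_sub]
      ring
    rw [h2, mul_pow, ← pow_mul] at h1
    exact h1
  -- the `g j` are constant
  have hconst : ∀ x ∈ Ordered k, ∀ j, MvPolynomial.eval x (g j) = α j - (n : ℂ)⁻¹ * ∑ i, α i := by
    intro x hx j
    have h1 : ∀ j, MvPolynomial.eval x (g j) = α j + MvPolynomial.eval x h := by
      intro j
      rw [hgα x hx j, hunit x (mem_Ordered.1 hx).2, mul_one]
    have h2 := (hval x hx).1
    rw [Finset.sum_congr rfl fun j _ => h1 j, Finset.sum_add_distrib, Finset.sum_const,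
      Finset.card_univ, Fintype.card_fin, nsmul_eq_mul] at h2
    have hn : (n : ℂ) ≠ 0 := by exact_mod_cast hn0.ne'
    have h3 : MvPolynomial.eval x h = -((n : ℂ)⁻¹ * ∑ i, α i) := by
      apply mul_left_cancel₀ hn
      rw [mul_neg, ← mul_assoc, mul_inv_cancel₀ hn, one_mul]
      linear_combination h2
    rw [h1, h3]
    ring
  have hpz : ∀ z : SG k, pz (f z : Fin n → ℂ) =
      ∏ j, (Polynomial.X - Polynomial.C (α j - (n : ℂ)⁻¹ * ∑ i, α i)) := by
    intro z
    obtain ⟨x, hx, hzx⟩ := exists_ordered hk2 z.2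
    rw [hfg x hx z hzx]
    exact Finset.prod_congr rfl fun j _ => by rw [hconst x hx j]
  apply Subtype.ext
  exact pz_injective ((hpz z).trans (hpz w).symm)

end EB40
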