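import Pool.Agent.Lib.EB40.Class

/-!
# The jump is one
-/

set_option linter.unusedSimpArgs false

namespace EB40

open MvPolynomial Finset

lemma mono_of_exps {k : ℕ} {u B P : Fin k × Fin k → ℕ} {n : ℕ}
    (h : ∀ f ∈ E k, u f = B f + n * P f) : mono u = mono B * mono P ^ n := by
  unfold mono
  rw [← Finset.prod_pow, ← Finset.prod_mul_distrib]
  refine Finset.prod_congr rfl fun f hf => ?_
  rw [h f hf, pow_add, mul_comm n, pow_mul]

lemma mono_ite {k : ℕ} {e : Fin k × Fin k} (he : e ∈ E k) :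
    mono (fun f => if f = e then 1 else 0) = ell e := by
  unfold mono
  rw [Finset.prod_eq_single e]
  · simp
  · intro f _ hne
    simp [hne]
  · intro hn
    exact absurd he hn

lemma mono_add {k : ℕ} (u v : Fin k × Fin k → ℕ) : mono (fun f => u f + v f) = mono u * mono v := by
  unfold mono
  rw [← Finset.prod_mul_distrib]
  exact Finset.prod_congr rfl fun f _ => pow_add _ _ _

/-- the sign of the orientation -/
noncomputable def sg {k : ℕ} (a b : Fin k) : ℂ := if a < b then 1 else -1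

lemma sg_ne {k : ℕ} (a b : Fin k) : sg a b ≠ 0 := by
  unfold sg
  split_ifs
  · exact one_ne_zero
  · exact neg_ne_zero.2 one_ne_zero

lemma eval_ell_mk {k : ℕ} (x : Fin k → ℂ) (a b : Fin k) :
    eval x (ell (mk a b)) = sg a b * (x b - x a) := by
  unfold sg mk
  split_ifs
  · simp [ell]
  · simp [ell]

lemma IND_fst_snd {k : ℕ} {f : Fin k × Fin k} (hf : f ∈ E k) (a b : Fin k) :
    IND a b f.1 f.2 = ((if f = mk a b then 1 else 0 : ℕ) : ℤ) := by
  unfold IND
  by_cases h : f = mk a b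
  · rw [if_pos h, if_pos ((mk_eq_iff hf a b).1 h)]; rfl
  · rw [if_neg h, if_neg fun h' => h ((mk_eq_iff hf a b).2 h')]; rfl

lemma two_pow_one {n : ℕ} {c : ℂ} (hc : c ≠ 0) (h : c * 1 + c * 1 = c * 2 ^ n) : n = 1 := by
  have h1 : (2 : ℂ) ^ n = 2 := by
    have : c * (2 ^ n - 2) = 0 := by linear_combination -h
    rcases mul_eq_zero.1 this with h2 | h2
    · exact absurd h2 hc
    · exact sub_eq_zero.1 h2
  have h2 : (2 : ℕ) ^ n = 2 ^ 1 := by exact_mod_cast h1
  exact Nat.pow_right_injective (le_refl 2) h2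

/-- the abstract cancellation -/
lemma cancel_common {k : ℕ} {c₁ c₂ c₃ : ℂ} {u v w : Fin k × Fin k → ℕ}
    (hrel : C c₁ * mono u + C c₂ * mono v = C c₃ * mono w)
    {s₁ s₂ s₃ : Fin k → Fin k → ℤ} {J : ℤ} (hJ : 0 < J)
    (hPV : ∀ x y, x ≠ y → PV (sy u) (sy v) (sy w) s₁ s₂ s₃ J x y)
    {P₁ P₂ P₃ : Fin k × Fin k → ℕ}
    (h1 : ∀ f ∈ E k, s₁ f.1 f.2 = P₁ f) (h2 : ∀ f ∈ E k, s₂ f.1 f.2 = P₂ f)
    (h3 : ∀ f ∈ E k, s₃ f.1 f.2 = P₃ f) (h0 : ∀ f ∈ E k, P₁ f = 0 ∨ P₂ f = 0) :
    C c₁ * mono P₁ ^ J.toNat + C c₂ * mono P₂ ^ J.toNat = C c₃ * mono P₃ ^ J.toNat := by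
  have hkey : ∀ f ∈ E k, ∃ B : ℕ, u f = B + J.toNat * P₁ f ∧ v f = B + J.toNat * P₂ f ∧
      w f = B + J.toNat * P₃ f := by
    intro f hf
    have hne := (mem_E.1 hf).ne
    obtain ⟨B, e1, e2, e3⟩ := hPV f.1 f.2 hne
    rw [sy_of_ne _ hne, mk_of_mem hf] at e1 e2 e3
    rw [h1 f hf] at e1
    rw [h2 f hf] at e2
    rw [h3 f hf] at e3
    have hJ' : (J.toNat : ℤ) = J := Int.toNat_of_nonneg hJ.le
    have hB : 0 ≤ B := by
      rcases h0 f hf with h | h
      · rw [h] at e1; push_cast at e1; omega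
      · rw [h] at e2; push_cast at e2; omega
    refine ⟨B.toNat, ?_, ?_, ?_⟩ <;>
    · have hB' : (B.toNat : ℤ) = B := Int.toNat_of_nonneg hB
      zify
      rw [hB', hJ']
      assumption
  choose! B hu hv hw using hkey
  rw [mono_of_exps hu, mono_of_exps hv, mono_of_exps hw] at hrel
  apply mul_left_cancel₀ (mono_ne_zero B)
  linear_combination hrel

lemma jump_triangle {k : ℕ} {c₁ c₂ c₃ : ℂ} (hc1 : c₁ ≠ 0)
    {u v w : Fin k × Fin k → ℕ} (hrel : C c₁ * mono u + C c₂ * mono v = C c₃ * mono w)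
    {a b c : Fin k} (ab : a ≠ b) (bc : b ≠ c) (ac : a ≠ c) {J : ℤ} (hJ : 0 < J)
    (hPV : ∀ x y, x ≠ y → PV (sy u) (sy v) (sy w) (IND a b) (IND b c) (IND a c) J x y) :
    J = 1 := by
  have key := cancel_common hrel hJ hPV (P₁ := fun f => if f = mk a b then 1 else 0)
    (P₂ := fun f => if f = mk b c then 1 else 0) (P₃ := fun f => if f = mk a c then 1 else 0)
    (fun f hf => IND_fst_snd hf a b) (fun f hf => IND_fst_snd hf b c)
    (fun f hf => IND_fst_snd hf a c) (by
      intro f _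
      by_cases h : f = mk a b
      · right
        rw [if_neg]
        intro h'
        rcases mk_eq_mk (h.symm.trans h') with ⟨h1, -⟩ | ⟨h1, -⟩
        · exact ab h1
        · exact ac h1
      · left
        rw [if_neg h])
  rw [mono_ite (mk_mem ab), mono_ite (mk_mem bc), mono_ite (mk_mem ac)] at key
  set n := J.toNat with hn
  have hn0 : n ≠ 0 := by omega
  have hev : ∀ p q : ℂ, (c₁ * sg a b ^ n) * p ^ n + (c₂ * sg b c ^ n) * q ^ n =
      (c₃ * sg a c ^ n) * (p + q) ^ n := by
    intro p q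
    have e := congrArg (eval (fun i => if i = b then p else if i = c then p + q else 0)) key
    simp only [map_add, map_mul, map_pow, eval_C, eval_ell_mk, if_true, ab, ac, bc, ab.symm,
      ac.symm, bc.symm, if_false] at e
    rw [sub_zero, sub_zero, add_sub_cancel_left, mul_pow, mul_pow, mul_pow] at e
    linear_combination e
  have e1 := hev 1 0
  have e2 := hev 0 1
  have e3 := hev 1 1
  rw [zero_pow hn0, one_pow, add_zero, one_pow] at e1
  rw [zero_pow hn0, zero_add, one_pow] at e2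
  rw [one_pow, one_add_one_eq_two] at e3
  have h1 : n = 1 := by
    apply two_pow_one (c := c₁ * sg a b ^ n) (mul_ne_zero hc1 (pow_ne_zero _ (sg_ne a b)))
    linear_combination e3 + e1 - e2 - 2 ^ n * e1
  omega

lemma jump_pluecker {k : ℕ} {c₁ c₂ c₃ : ℂ} (hc1 : c₁ ≠ 0)
    {u v w : Fin k × Fin k → ℕ} (hrel : C c₁ * mono u + C c₂ * mono v = C c₃ * mono w)
    {a b c d : Fin k} (ab : a ≠ b) (bc : b ≠ c) (ac : a ≠ c) (da : d ≠ a) (db : d ≠ b)
    (dc : d ≠ c) {J : ℤ} (hJ : 0 < J)
    (hPV : ∀ x y, x ≠ y → PV (sy u) (sy v) (sy w) (fun x y => IND a b x y + IND c d x y)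
      (fun x y => IND b c x y + IND a d x y) (fun x y => IND a c x y + IND b d x y) J x y) :
    J = 1 := by
  have hcast : ∀ {f : Fin k × Fin k} (_ : f ∈ E k) (a b c d : Fin k),
      IND a b f.1 f.2 + IND c d f.1 f.2 =
        (((if f = mk a b then 1 else 0) + (if f = mk c d then 1 else 0) : ℕ) : ℤ) := by
    intro f hf a b c d
    rw [IND_fst_snd hf, IND_fst_snd hf]
    push_cast
    rfl
  have key := cancel_common hrel hJ hPV
    (P₁ := fun f => (if f = mk a b then 1 else 0) + (if f = mk c d then 1 else 0))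
    (P₂ := fun f => (if f = mk b c then 1 else 0) + (if f = mk a d then 1 else 0))
    (P₃ := fun f => (if f = mk a c then 1 else 0) + (if f = mk b d then 1 else 0))
    (fun f hf => hcast hf a b c d) (fun f hf => hcast hf b c a d)
    (fun f hf => hcast hf a c b d) (by
      intro f _
      by_cases h : f = mk a b ∨ f = mk c d
      · right
        rw [if_neg, if_neg]
        · intro h'
          rcases h with h | h
          · rcases mk_eq_mk (h.symm.trans h') with ⟨-, h1⟩ | ⟨h1, -⟩
            · exact db h1.symm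
            · exact da h1.symm
          · rcases mk_eq_mk (h.symm.trans h') with ⟨h1, -⟩ | ⟨h1, -⟩
            · exact ac h1.symm
            · exact dc h1.symm
        · intro h'
          rcases h with h | h
          · rcases mk_eq_mk (h.symm.trans h') with ⟨h1, -⟩ | ⟨h1, -⟩
            · exact ab h1
            · exact ac h1
          · rcases mk_eq_mk (h.symm.trans h') with ⟨h1, -⟩ | ⟨-, h1⟩
            · exact bc h1.symm
            · exact db h1
      · left
        push Not at h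
        rw [if_neg h.1, if_neg h.2])
  rw [mono_add, mono_add, mono_add, mono_ite (mk_mem ab), mono_ite (mk_mem bc),
    mono_ite (mk_mem ac), mono_ite (mk_mem dc.symm), mono_ite (mk_mem da.symm),
    mono_ite (mk_mem db.symm)] at key
  set n := J.toNat with hn
  have hn0 : n ≠ 0 := by omega
  have hev : ∀ p q r : ℂ, (c₁ * (sg a b * sg c d) ^ n) * (p * (r - q)) ^ n +
      (c₂ * (sg b c * sg a d) ^ n) * ((q - p) * r) ^ n =
      (c₃ * (sg a c * sg b d) ^ n) * (q * (r - p)) ^ n := by
    intro p q r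
    have e := congrArg (eval (fun i => if i = b then p else if i = c then q else
      if i = d then r else 0)) key
    simp only [map_add, map_mul, map_pow, eval_C, eval_ell_mk, if_true, ab, ac, bc, da, db, dc,
      ab.symm, ac.symm, bc.symm, da.symm, db.symm, dc.symm, if_false] at e
    rw [sub_zero, sub_zero, sub_zero] at e
    simp only [mul_pow] at e ⊢
    linear_combination e
  have e1 := hev 1 1 2
  have e2 := hev 0 1 1
  have e3 := hev 2 3 6
  have h1 : n = 1 := by
    have h0 : c₁ * (sg a b * sg c d) ^ n ≠ 0 :=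
      mul_ne_zero hc1 (pow_ne_zero _ (mul_ne_zero (sg_ne a b) (sg_ne c d)))
    norm_num [hn0] at e1 e2
    have h6 : (6 : ℂ) ^ n ≠ 0 := pow_ne_zero _ (by norm_num)
    have h12 : (12 : ℂ) ^ n = 6 ^ n * 2 ^ n := by rw [← mul_pow]; norm_num
    norm_num at e3
    rw [h12] at e3
    apply two_pow_one h0
    apply mul_left_cancel₀ h6
    linear_combination e3 + 6 ^ n * (e1 - e2) - 6 ^ n * 2 ^ n * e1
  omega

end EB40
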