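import Pool.Agent.Lib.EB40.JOne

/-!
# Three term relations give quartets of labels
-/

set_option linter.unusedSimpArgs false

namespace EB40

open MvPolynomial Finset

/-- the orders, extended to the point at infinity -/
def ext {k : ℕ} (U : Fin k → Fin k → ℤ) : Option (Fin k) → Option (Fin k) → ℤ
  | some a, some b => U a b
  | none, some a => -∑ b, U a b
  | some a, none => -∑ b, U a b
  | none, none => 0

lemma ext_comm {k : ℕ} {U : Fin k → Fin k → ℤ} (h : ∀ a b, U a b = U b a)
    (x y : Option (Fin k)) : ext U x y = ext U y x := by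
  rcases x with _ | a <;> rcases y with _ | b <;> simp [ext, h]

lemma sum_IND {k : ℕ} {p q : Fin k} (h : p ≠ q) (x : Fin k) :
    ∑ y, IND p q x y = (if x = p then 1 else 0) + (if x = q then 1 else 0) := by
  have h1 : ∀ y, IND p q x y = (if y = q then (if x = p then 1 else 0) else 0) +
      (if y = p then (if x = q then 1 else 0) else 0) := by
    intro y
    unfold IND
    by_cases hq : y = q
    · subst hq
      have : y ≠ p := Ne.symm h
      simp [this]
    · by_cases hp : y = p
      · subst hp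
        simp [h]
      · simp [hq, hp]
  rw [Finset.sum_congr rfl fun y _ => h1 y, Finset.sum_add_distrib, Finset.sum_ite_eq',
    Finset.sum_ite_eq', if_pos (Finset.mem_univ _), if_pos (Finset.mem_univ _)]

lemma IND_some {k : ℕ} (p q x y : Fin k) : IND (some p) (some q) (some x) (some y) =
    IND p q x y := by
  unfold IND
  simp only [Option.some.injEq]

/-- the quartet of labels of three orders -/
structure Qua {K : Type*} [DecidableEq K] (U V W : K → K → ℤ) (α β γ δ : K) : Prop where
  ab : α ≠ β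
  ac : α ≠ γ
  ad : α ≠ δ
  bc : β ≠ γ
  bd : β ≠ δ
  cd : γ ≠ δ
  val : ∀ x y, x ≠ y → ∃ c, U x y = c + IND α β x y + IND γ δ x y ∧
    V x y = c + IND α γ x y + IND β δ x y ∧ W x y = c + IND α δ x y + IND β γ x y

lemma ext_symm_val {K : Type*} [DecidableEq K] {U V W : K → K → ℤ}
    (hU : ∀ x y, U x y = U y x) (hV : ∀ x y, V x y = V y x) (hW : ∀ x y, W x y = W y x)
    {α β γ δ x y : K} (h : ∃ c, U x y = c + IND α β x y + IND γ δ x y ∧
    V x y = c + IND α γ x y + IND β δ x y ∧ W x y = c + IND α δ x y + IND β γ x y) :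
    ∃ c, U y x = c + IND α β y x + IND γ δ y x ∧
    V y x = c + IND α γ y x + IND β δ y x ∧ W y x = c + IND α δ y x + IND β γ y x := by
  obtain ⟨c, h1, h2, h3⟩ := h
  refine ⟨c, ?_, ?_, ?_⟩
  · rw [hU, h1, IND_comm2 α β x y, IND_comm2 γ δ x y]
  · rw [hV, h2, IND_comm2 α γ x y, IND_comm2 β δ x y]
  · rw [hW, h3, IND_comm2 α δ x y, IND_comm2 β γ x y]

lemma IND_diag {K : Type*} [DecidableEq K] {p q : K} (h : p ≠ q) (x : K) : IND p q x x = 0 := by
  unfold IND
  rw [if_neg]
  rintro (⟨h1, h2⟩ | ⟨h1, h2⟩)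
  · exact h (h1.symm.trans h2)
  · exact h (h2.symm.trans h1)

lemma qua_triangle {k : ℕ} {U V W : Fin k → Fin k → ℤ} (T : Tri U V W)
    (dU : ∀ a, U a a = 0) (dV : ∀ a, V a a = 0) (dW : ∀ a, W a a = 0) {a b c : Fin k}
    (ab : a ≠ b) (bc : b ≠ c) (ac : a ≠ c)
    (hPV : ∀ x y, x ≠ y → PV U V W (IND a b) (IND b c) (IND a c) 1 x y) :
    Qua (ext U) (ext V) (ext W) (some b) (some a) (some c) none := by
  have hV : ∀ x y, V x y = U x y - IND a b x y + IND b c x y := by
    intro x y
    by_cases h : x = y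
    · subst h; rw [dU, dV, IND_diag ab, IND_diag bc]; rfl
    · obtain ⟨B, h1, h2, -⟩ := hPV x y h
      rw [h1, h2]; ring
  have hW : ∀ x y, W x y = U x y - IND a b x y + IND a c x y := by
    intro x y
    by_cases h : x = y
    · subst h; rw [dU, dW, IND_diag ab, IND_diag ac]; rfl
    · obtain ⟨B, h1, -, h3⟩ := hPV x y h
      rw [h1, h3]; ring
  have sV : ∀ x, ∑ y, V x y = ∑ y, U x y - ((if x = a then 1 else 0) + (if x = b then 1 else 0))
      + ((if x = b then 1 else 0) + (if x = c then 1 else 0)) := by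
    intro x
    rw [← sum_IND ab, ← sum_IND bc, ← Finset.sum_sub_distrib, ← Finset.sum_add_distrib]
    exact Finset.sum_congr rfl fun y _ => hV x y
  have sW : ∀ x, ∑ y, W x y = ∑ y, U x y - ((if x = a then 1 else 0) + (if x = b then 1 else 0))
      + ((if x = a then 1 else 0) + (if x = c then 1 else 0)) := by
    intro x
    rw [← sum_IND ab, ← sum_IND ac, ← Finset.sum_sub_distrib, ← Finset.sum_add_distrib]
    exact Finset.sum_congr rfl fun y _ => hW x y
  have hinf : ∀ x : Fin k, ∃ c_1, ext U none (some x) = c_1 + IND (some b) (some a) none (some x) +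
      IND (some c) none none (some x) ∧
      ext V none (some x) = c_1 + IND (some b) (some c) none (some x) +
        IND (some a) none none (some x) ∧
      ext W none (some x) = c_1 + IND (some b) none none (some x) +
        IND (some a) (some c) none (some x) := by
    intro x
    refine ⟨-∑ y, U x y - (if x = c then 1 else 0), ?_, ?_, ?_⟩
    · simp only [ext, IND, reduceCtorEq, Option.some.injEq, false_and, and_false, or_false,
        false_or, true_and, and_true, if_false]
      ring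
    · simp only [ext, IND, reduceCtorEq, Option.some.injEq, false_and, and_false, or_false,
        false_or, true_and, and_true, if_false]
      rw [sV]
      ring
    · simp only [ext, IND, reduceCtorEq, Option.some.injEq, false_and, and_false, or_false,
        false_or, true_and, and_true, if_false]
      rw [sW]
      ring
  have eU := ext_comm T.sU
  have eV := ext_comm T.sV
  have eW := ext_comm T.sW
  refine ⟨by simpa using ab.symm, by simpa using bc, by simp, by simpa using ac, by simp,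
    by simp, ?_⟩
  intro x y hxy
  rcases x with _ | x <;> rcases y with _ | y
  · exact absurd rfl hxy
  · exact hinf y
  · exact ext_symm_val eU eV eW (hinf x)
  · have xy : x ≠ y := fun h => hxy (by rw [h])
    obtain ⟨B, h1, h2, h3⟩ := hPV x y xy
    refine ⟨B, ?_, ?_, ?_⟩
    · simp only [ext, IND_some]
      rw [h1, IND_comm1 b a]
      simp [IND]
    · simp only [ext, IND_some]
      rw [h2]
      simp [IND]
    · simp only [ext, IND_some]
      rw [h3]
      simp [IND]

lemma qua_pluecker {k : ℕ} {U V W : Fin k → Fin k → ℤ} (T : Tri U V W)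
    (dU : ∀ a, U a a = 0) (dV : ∀ a, V a a = 0) (dW : ∀ a, W a a = 0) {a b c d : Fin k}
    (ab : a ≠ b) (bc : b ≠ c) (ac : a ≠ c) (da : d ≠ a) (db : d ≠ b) (dc : d ≠ c)
    (hPV : ∀ x y, x ≠ y → PV U V W (fun x y => IND a b x y + IND c d x y)
      (fun x y => IND b c x y + IND a d x y) (fun x y => IND a c x y + IND b d x y) 1 x y) :
    Qua (ext U) (ext V) (ext W) (some b) (some a) (some c) (some d) := by
  have hV : ∀ x y, V x y = U x y - (IND a b x y + IND c d x y) + (IND b c x y + IND a d x y) := by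
    intro x y
    by_cases h : x = y
    · subst h
      rw [dU, dV, IND_diag ab, IND_diag bc, IND_diag dc.symm, IND_diag da.symm]; rfl
    · obtain ⟨B, h1, h2, -⟩ := hPV x y h
      rw [h1, h2]; ring
  have hW : ∀ x y, W x y = U x y - (IND a b x y + IND c d x y) + (IND a c x y + IND b d x y) := by
    intro x y
    by_cases h : x = y
    · subst h
      rw [dU, dW, IND_diag ab, IND_diag ac, IND_diag dc.symm, IND_diag db.symm]; rfl
    · obtain ⟨B, h1, -, h3⟩ := hPV x y h
      rw [h1, h3]; ring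
  have sV : ∀ x, ∑ y, V x y = ∑ y, U x y := by
    intro x
    have e1 : ∑ y, V x y = ∑ y, U x y - (∑ y, IND a b x y + ∑ y, IND c d x y) +
        (∑ y, IND b c x y + ∑ y, IND a d x y) := by
      rw [← Finset.sum_add_distrib, ← Finset.sum_add_distrib, ← Finset.sum_sub_distrib,
        ← Finset.sum_add_distrib]
      exact Finset.sum_congr rfl fun y _ => hV x y
    rw [e1, sum_IND ab, sum_IND bc, sum_IND dc.symm, sum_IND da.symm]
    ring
  have sW : ∀ x, ∑ y, W x y = ∑ y, U x y := by
    intro x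
    have e1 : ∑ y, W x y = ∑ y, U x y - (∑ y, IND a b x y + ∑ y, IND c d x y) +
        (∑ y, IND a c x y + ∑ y, IND b d x y) := by
      rw [← Finset.sum_add_distrib, ← Finset.sum_add_distrib, ← Finset.sum_sub_distrib,
        ← Finset.sum_add_distrib]
      exact Finset.sum_congr rfl fun y _ => hW x y
    rw [e1, sum_IND ab, sum_IND ac, sum_IND dc.symm, sum_IND db.symm]
    ring
  have hinf : ∀ x : Fin k, ∃ c_1, ext U none (some x) = c_1 + IND (some b) (some a) none (some x) +
      IND (some c) (some d) none (some x) ∧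
      ext V none (some x) = c_1 + IND (some b) (some c) none (some x) +
        IND (some a) (some d) none (some x) ∧
      ext W none (some x) = c_1 + IND (some b) (some d) none (some x) +
        IND (some a) (some c) none (some x) := by
    intro x
    refine ⟨-∑ y, U x y, ?_, ?_, ?_⟩
    · simp [ext, IND]
    · simp [ext, IND, sV]
    · simp [ext, IND, sW]
  have eU := ext_comm T.sU
  have eV := ext_comm T.sV
  have eW := ext_comm T.sW
  refine ⟨by simpa using ab.symm, by simpa using bc, by simpa using db.symm, by simpa using ac,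
    by simpa using da.symm, by simpa using dc.symm, ?_⟩
  intro x y hxy
  rcases x with _ | x <;> rcases y with _ | y
  · exact absurd rfl hxy
  · exact hinf y
  · exact ext_symm_val eU eV eW (hinf x)
  · have xy : x ≠ y := fun h => hxy (by rw [h])
    obtain ⟨B, h1, h2, h3⟩ := hPV x y xy
    refine ⟨B, ?_, ?_, ?_⟩
    · simp only [ext, IND_some]
      rw [h1, IND_comm1 b a]
      ring
    · simp only [ext, IND_some]
      rw [h2]
      ring
    · simp only [ext, IND_some]
      rw [h3]
      ring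

lemma sum_sy {k : ℕ} (u : Fin k × Fin k → ℕ) : (∑ e ∈ E k, (u e : ℤ)) = ∑ e ∈ E k, sy u e.1 e.2 := by
  refine Finset.sum_congr rfl fun e he => ?_
  rw [sy_of_ne _ (mem_E.1 he).ne, mk_of_mem he]

lemma exists_lt_of_degree {k : ℕ} {u v : Fin k × Fin k → ℕ}
    (hdeg : ∑ e ∈ E k, u e = ∑ e ∈ E k, v e) {e : Fin k × Fin k} (he : e ∈ E k) (hne : u e < v e) :
    ∃ f ∈ E k, v f < u f := by
  by_contra hcon
  push Not at hcon
  have := Finset.sum_lt_sum hcon ⟨e, he, hne⟩
  omega

/-- **Quartet theorem.** -/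
theorem quartet {k : ℕ} {c₁ c₂ c₃ : ℂ} (h1 : c₁ ≠ 0) (h2 : c₂ ≠ 0) (h3 : c₃ ≠ 0)
    {u v w : Fin k × Fin k → ℕ} (hrel : C c₁ * mono u + C c₂ * mono v = C c₃ * mono w)
    (hd1 : ∑ e ∈ E k, u e = ∑ e ∈ E k, v e) (hd2 : ∑ e ∈ E k, u e = ∑ e ∈ E k, w e)
    {e₀ : Fin k × Fin k} (he₀ : e₀ ∈ E k) (hne : ¬ (u e₀ = v e₀ ∧ v e₀ = w e₀)) :
    ∃ α β γ δ : Option (Fin k), Qua (ext (sy u)) (ext (sy v)) (ext (sy w)) α β γ δ := by
  have T := tri_of_rel h1 h2 h3 hrel
  have dg : ∀ (u : Fin k × Fin k → ℕ) (a : Fin k), sy u a a = 0 := by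
    intro u a; unfold sy; rw [if_pos rfl]
  -- a pair with `v < u` and a pair with `u < v`
  have hval : ∀ f ∈ E k, sy u f.1 f.2 = u f ∧ sy v f.1 f.2 = v f ∧ sy w f.1 f.2 = w f := by
    intro f hf
    rw [sy_of_ne _ (mem_E.1 hf).ne, sy_of_ne _ (mem_E.1 hf).ne, sy_of_ne _ (mem_E.1 hf).ne,
      mk_of_mem hf]
    exact ⟨rfl, rfl, rfl⟩
  have hboth : ∃ f ∈ E k, ∃ g ∈ E k, v f < u f ∧ u g < v g := by
    rcases lt_trichotomy (u e₀) (v e₀) with h | h | h
    · obtain ⟨f, hf, hf'⟩ := exists_lt_of_degree hd1 he₀ h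
      exact ⟨f, hf, e₀, he₀, hf', h⟩
    · have hw : u e₀ < w e₀ := by
        have hne' : v e₀ ≠ w e₀ := fun h' => hne ⟨h, h'⟩
        rcases lt_or_gt_of_ne hne' with h' | h'
        · omega
        · exfalso
          obtain ⟨q1, q2, q3⟩ := hval e₀ he₀
          have := (T.r1 e₀.1 e₀.2 (mem_E.1 he₀).ne (Or.inr (by rw [q1, q3]; omega))).1
          rw [q2, q3] at this
          omega
      obtain ⟨f, hf, hf'⟩ := exists_lt_of_degree hd2 he₀ hw
      obtain ⟨q1, q2, q3⟩ := hval f hf
      have h4 := (T.r1 f.1 f.2 (mem_E.1 hf).ne (Or.inr (by rw [q1, q3]; omega))).1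
      rw [q2, q3] at h4
      have h5 : v f < u f := by omega
      obtain ⟨g, hg, hg'⟩ := exists_lt_of_degree hd1.symm hf h5
      exact ⟨f, hf, g, hg, h5, hg'⟩
    · obtain ⟨g, hg, hg'⟩ := exists_lt_of_degree hd1.symm he₀ h
      exact ⟨e₀, he₀, g, hg, h, hg'⟩
  obtain ⟨f, hf, g, hg, hfu, hgv⟩ := hboth
  obtain ⟨a, b, c, ab, bc, ac, l1, l2⟩ := T.exists_adj (a := f.1) (b := f.2) (c := g.1) (d := g.2)
    (mem_E.1 hf).ne (mem_E.1 hg).ne
    (by rw [(hval f hf).1, (hval f hf).2.1]; exact_mod_cast hfu)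
    (by rw [(hval g hg).1, (hval g hg).2.1]; exact_mod_cast hgv)
  have hJ : 0 < sy u a b - sy w a b := by
    have := (T.core ab bc ac l1 l2).1.1
    omega
  by_cases hd : ∃ d, d ≠ a ∧ d ≠ b ∧ d ≠ c ∧ sy u a d < sy v a d
  · obtain ⟨d, da, db, dc, hlt⟩ := hd
    have hP := T.pluecker ab bc ac l1 l2 da db dc hlt
    have hJ1 := jump_pluecker h1 hrel ab bc ac da db dc hJ hP
    rw [hJ1] at hP
    exact ⟨_, _, _, _, qua_pluecker T (dg u) (dg v) (dg w) ab bc ac da db dc hP⟩
  · push Not at hd
    have hP := T.triangle ab bc ac l1 l2 fun d h1 h2 h3 => not_lt.2 (hd d h1 h2 h3)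
    have hJ1 := jump_triangle h1 hrel ab bc ac hJ hP
    rw [hJ1] at hP
    exact ⟨_, _, _, _, qua_triangle T (dg u) (dg v) (dg w) ab bc ac hP⟩

end EB40
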