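import Pool.Agent.Lib.EB40.Units

/-!
# The unit theorem on `PP = 1`
-/

namespace EB40

open MvPolynomial Finset Filter Asymptotics Topology

lemma exists_ord {k : ℕ} {e : Fin k × Fin k} (he : e.1 ≠ e.2) (G : MvPolynomial (Fin k) ℂ) :
    ∃ (o : ℕ) (Q : MvPolynomial (Fin k) ℂ), G ≠ 0 → (G = ell e ^ o * Q ∧ ¬ ell e ∣ Q) := by
  by_cases hG : G = 0
  · exact ⟨0, 0, fun h => absurd hG h⟩
  · have h1 := FiniteMultiplicity.of_prime_left (ell_prime he) hG
    obtain ⟨Q, hQ1, hQ2⟩ := h1.exists_eq_pow_mul_and_not_dvd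
    exact ⟨_, Q, fun _ => ⟨hQ1, hQ2⟩⟩

/-- at every pair the minimal orders of a family and of its inverse are opposite -/
lemma orders_opposite {k : ℕ} (e : Fin k × Fin k) (he : e ∈ E k) (L L' : ℕ)
    (G H : ℕ → MvPolynomial (Fin k) ℂ)
    (hG : ∀ r, (G r).IsHomogeneous (r + L * (E k).card))
    (hH : ∀ r, (H r).IsHomogeneous (r + L' * (E k).card))
    (S T : Finset ℕ) (hSN : ∀ r ∈ S, r < (E k).card) (hTN : ∀ r ∈ T, r < (E k).card)
    (hS : S.Nonempty) (hT : T.Nonempty)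
    (hprod : ∀ x : Fin k → ℂ, eval x (PP k) = 1 →
      (∑ r ∈ S, eval x (G r)) * (∑ r ∈ T, eval x (H r)) = 1)
    (o o' : ℕ → ℕ) (Q Q' : ℕ → MvPolynomial (Fin k) ℂ)
    (ho : ∀ r ∈ S, G r = ell e ^ o r * Q r ∧ ¬ ell e ∣ Q r)
    (ho' : ∀ r ∈ T, H r = ell e ^ o' r * Q' r ∧ ¬ ell e ∣ Q' r) :
    ∃ a : ℤ,
      (∀ r ∈ S, a ≤ (((E k).card:ℤ) * (o r : ℤ) - ((r + L * (E k).card : ℕ) : ℤ))) ∧
      (∀ r ∈ T, -a ≤ (((E k).card:ℤ) * (o' r : ℤ) - ((r + L' * (E k).card : ℕ) : ℤ))) := by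
  have hne : e.1 ≠ e.2 := (mem_E.1 he).ne
  have hp := ell_prime hne
  set M : MvPolynomial (Fin k) ℂ := (∏ r ∈ S, Q r) * (∏ r ∈ T, Q' r) with hM
  have hMdvd : ¬ ell e ∣ M := by
    intro h
    rcases hp.dvd_or_dvd h with h | h
    · obtain ⟨r, hr, hdvd⟩ := hp.exists_mem_finset_dvd h
      exact (ho r hr).2 hdvd
    · obtain ⟨r, hr, hdvd⟩ := hp.exists_mem_finset_dvd h
      exact (ho' r hr).2 hdvd
  obtain ⟨t, ht1, ht2⟩ := exists_curve e he M hMdvd
  obtain ⟨r0, hr0, hmin⟩ := exists_min_unique (N := (E k).card) (L := L) S hS hSN o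
  obtain ⟨r1, hr1, hmin'⟩ := exists_min_unique (N := (E k).card) (L := L') T hT hTN o'
  have h1 := theta_sum S (fun r σ => eval (t σ) (G r))
    (fun r => (((E k).card:ℤ) * (o r : ℤ) - ((r + L * (E k).card : ℕ) : ℤ))) r0 hr0
    (fun r hr => ht2 (G r) (Q r) _ (o r) (hG r) (ho r hr).1
      ((Finset.dvd_prod_of_mem Q hr).mul_right _)) hmin
  have h2 := theta_sum T (fun r σ => eval (t σ) (H r))
    (fun r => (((E k).card:ℤ) * (o' r : ℤ) - ((r + L' * (E k).card : ℕ) : ℤ))) r1 hr1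
    (fun r hr => ht2 (H r) (Q' r) _ (o' r) (hH r) (ho' r hr).1
      ((Finset.dvd_prod_of_mem Q' hr).mul_left _)) hmin'
  have h3 := exponents_opposite _ _ _ _ h1 h2
    (ht1.mono fun σ hσ => hprod (t σ) hσ)
  refine ⟨(((E k).card:ℤ) * (o r0 : ℤ) - ((r0 + L * (E k).card : ℕ) : ℤ)), ?_, ?_⟩
  · intro r hr
    by_cases h : r = r0
    · rw [h]
    · exact (hmin r hr h).le
  · intro r hr
    have h4 : -(((E k).card:ℤ) * (o r0 : ℤ) - ((r0 + L * (E k).card : ℕ) : ℤ)) =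
        (((E k).card:ℤ) * (o' r1 : ℤ) - ((r1 + L' * (E k).card : ℕ) : ℤ)) := by
      linear_combination -h3
    rw [h4]
    by_cases h : r = r1
    · rw [h]
    · exact (hmin' r hr h).le

/-- **Unit theorem.**  A polynomial without zeros on `PP = 1`, split into its parts of degrees
modulo the degree of `PP`, has exactly one part, and that part is a product of differences. -/
theorem unit_monomial {k : ℕ} (hN : 0 < (E k).card) (L : ℕ) (G : ℕ → MvPolynomial (Fin k) ℂ)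
    (hG : ∀ r, (G r).IsHomogeneous (r + L * (E k).card))
    (hnz : ∀ x : Fin k → ℂ, eval x (PP k) = 1 → ∑ r ∈ range (E k).card, eval x (G r) ≠ 0) :
    ∃ r, r < (E k).card ∧ (∀ r' < (E k).card, r' ≠ r → G r' = 0) ∧
      ∃ c : ℂ, c ≠ 0 ∧ ∃ v : Fin k × Fin k → ℕ, G r = C c * mono v := by
  classical
  set N := (E k).card with hNdef
  obtain ⟨h, hh⟩ := exists_inverse (∑ r ∈ range N, G r) (by
    intro x hx
    rw [map_sum]
    exact hnz x hx)
  -- the parts of the inverse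
  obtain ⟨L', hL'⟩ : ∃ L', h.totalDegree < N * (L' + 1) :=
    ⟨h.totalDegree, by nlinarith⟩
  set H : ℕ → MvPolynomial (Fin k) ℂ := fun r => comp L' r h with hHdef
  have hH : ∀ r, (H r).IsHomogeneous (r + L' * N) := fun r => comp_homog L' h
  set S : Finset ℕ := (range N).filter (fun r => G r ≠ 0) with hS
  set T : Finset ℕ := (range N).filter (fun r => H r ≠ 0) with hT
  have hSN : ∀ r ∈ S, r < N := fun r hr => by
    rw [hS, Finset.mem_filter, Finset.mem_range] at hr; exact hr.1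
  have hTN : ∀ r ∈ T, r < N := fun r hr => by
    rw [hT, Finset.mem_filter, Finset.mem_range] at hr; exact hr.1
  have hS0 : ∀ r ∈ S, G r ≠ 0 := fun r hr => by
    rw [hS, Finset.mem_filter] at hr; exact hr.2
  have hT0 : ∀ r ∈ T, H r ≠ 0 := fun r hr => by
    rw [hT, Finset.mem_filter] at hr; exact hr.2
  have hsumS : ∀ x : Fin k → ℂ, ∑ r ∈ S, eval x (G r) = ∑ r ∈ range N, eval x (G r) := by
    intro x
    apply Finset.sum_subset (Finset.filter_subset _ _)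
    intro r hr1 hr2
    rw [Finset.mem_filter, not_and, not_not] at hr2
    rw [hr2 hr1, map_zero]
  have hsumT : ∀ x : Fin k → ℂ, ∑ r ∈ T, eval x (H r) = ∑ r ∈ range N, eval x (H r) := by
    intro x
    apply Finset.sum_subset (Finset.filter_subset _ _)
    intro r hr1 hr2
    rw [Finset.mem_filter, not_and, not_not] at hr2
    rw [hr2 hr1, map_zero]
  have hprod : ∀ x : Fin k → ℂ, eval x (PP k) = 1 →
      (∑ r ∈ S, eval x (G r)) * (∑ r ∈ T, eval x (H r)) = 1 := by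
    intro x hx
    rw [hsumS, hsumT, hHdef]
    have h1 := sum_comp hN L' h hL' x hx
    simp only at h1 ⊢
    rw [h1, ← map_sum]
    exact hh x hx
  -- there is a point
  obtain ⟨x0, hx0⟩ : ∃ x0 : Fin k → ℂ, eval x0 (PP k) = 1 := by
    obtain ⟨e, he⟩ := Finset.card_pos.1 hN
    obtain ⟨t, ht, -⟩ := exists_curve e he 1 (fun hd => (ell_prime (mem_E.1 he).ne).not_isUnit
      (isUnit_of_dvd_one hd))
    obtain ⟨σ, hσ⟩ := ht.exists
    exact ⟨t σ, hσ⟩
  have hSne : S.Nonempty := by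
    rw [Finset.nonempty_iff_ne_empty]
    intro h0
    have := hprod x0 hx0
    rw [h0, Finset.sum_empty, zero_mul] at this
    exact zero_ne_one this
  have hTne : T.Nonempty := by
    rw [Finset.nonempty_iff_ne_empty]
    intro h0
    have := hprod x0 hx0
    rw [h0, Finset.sum_empty, mul_zero] at this
    exact zero_ne_one this
  -- orders
  choose! o Q hoQ using fun (e : Fin k × Fin k) (he : e.1 ≠ e.2) (r : ℕ) => exists_ord he (G r)
  choose! o' Q' hoQ' using fun (e : Fin k × Fin k) (he : e.1 ≠ e.2) (r : ℕ) => exists_ord he (H r)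
  have hab : ∀ e ∈ E k, ∃ a : ℤ,
      (∀ r ∈ S, a ≤ ((N:ℤ) * (o e r : ℤ) - ((r + L * N : ℕ) : ℤ))) ∧
      (∀ r ∈ T, -a ≤ ((N:ℤ) * (o' e r : ℤ) - ((r + L' * N : ℕ) : ℤ))) := by
    intro e he
    have hne := (mem_E.1 he).ne
    exact orders_opposite e he L L' G H hG hH S T hSN hTN hSne hTne hprod
      (o e) (o' e) (Q e) (Q' e) (fun r hr => hoQ e hne r (hS0 r hr))
      (fun r hr => hoQ' e hne r (hT0 r hr))
  choose! a ha using hab
  have hSle : ∀ r ∈ S, (∑ e ∈ E k, ((N:ℤ) * (o e r : ℤ) - ((r + L * N : ℕ) : ℤ))) ≤ 0 := by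
    intro r hr
    have h1 := (sum_ord_le (hG r) (hS0 r hr) (fun e => o e r) (fun e he =>
      ⟨Q e r, (hoQ e (mem_E.1 he).ne r (hS0 r hr)).1⟩)).1
    rw [Finset.sum_sub_distrib, ← Finset.mul_sum, Finset.sum_const, nsmul_eq_mul, ← hNdef]
    have h2 : ((∑ e ∈ E k, o e r : ℕ) : ℤ) ≤ ((r + L * N : ℕ) : ℤ) := by exact_mod_cast h1
    push_cast at h2 ⊢
    have h3 : (0:ℤ) ≤ (N:ℤ) := Int.natCast_nonneg _
    nlinarith
  have hTle : ∀ r ∈ T, (∑ e ∈ E k, ((N:ℤ) * (o' e r : ℤ) - ((r + L' * N : ℕ) : ℤ))) ≤ 0 := by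
    intro r hr
    have h1 := (sum_ord_le (hH r) (hT0 r hr) (fun e => o' e r) (fun e he =>
      ⟨Q' e r, (hoQ' e (mem_E.1 he).ne r (hT0 r hr)).1⟩)).1
    rw [Finset.sum_sub_distrib, ← Finset.mul_sum, Finset.sum_const, nsmul_eq_mul, ← hNdef]
    have h2 : ((∑ e ∈ E k, o' e r : ℕ) : ℤ) ≤ ((r + L' * N : ℕ) : ℤ) := by exact_mod_cast h1
    push_cast at h2 ⊢
    have h3 : (0:ℤ) ≤ (N:ℤ) := Int.natCast_nonneg _
    nlinarith
  have hsum0 : 0 ≤ ∑ e ∈ E k, a e := by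
    obtain ⟨r, hr⟩ := hTne
    have h1 : (∑ e ∈ E k, -a e) ≤ ∑ e ∈ E k, ((N:ℤ) * (o' e r : ℤ) - ((r + L' * N : ℕ) : ℤ)) :=
      Finset.sum_le_sum fun e he => (ha e he).2 r hr
    rw [Finset.sum_neg_distrib] at h1
    have h2 := hTle r hr
    linarith
  -- every part has the same orders
  have heq : ∀ r ∈ S, (∀ e ∈ E k, ((N:ℤ) * (o e r : ℤ) - ((r + L * N : ℕ) : ℤ)) = a e) := by
    intro r hr
    have h1 : ∀ e ∈ E k, a e ≤ ((N:ℤ) * (o e r : ℤ) - ((r + L * N : ℕ) : ℤ)) :=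
      fun e he => (ha e he).1 r hr
    have h2 : ∑ e ∈ E k, a e = ∑ e ∈ E k, ((N:ℤ) * (o e r : ℤ) - ((r + L * N : ℕ) : ℤ)) :=
      le_antisymm (Finset.sum_le_sum h1) ((hSle r hr).trans hsum0)
    have h3 := (Finset.sum_eq_sum_iff_of_le h1).1 h2
    exact fun e he => (h3 e he).symm
  obtain ⟨e1, he1⟩ := Finset.card_pos.1 hN
  obtain ⟨r, hr⟩ := hSne
  refine ⟨r, hSN r hr, ?_, ?_⟩
  · intro r' hr' hne
    by_contra h0
    have hr'S : r' ∈ S := by
      rw [hS, Finset.mem_filter, Finset.mem_range]; exact ⟨hr', h0⟩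
    have h1 := heq r hr e1 he1
    have h2 := heq r' hr'S e1 he1
    obtain ⟨q0, hq0, hq⟩ := exists_min_unique (N := N) (L := L) {r, r'} ⟨r, by simp⟩
      (by intro q hq; rw [Finset.mem_insert, Finset.mem_singleton] at hq
          rcases hq with rfl | rfl
          · exact hSN _ hr
          · exact hr') (o e1)
    rw [Finset.mem_insert, Finset.mem_singleton] at hq0
    rcases hq0 with rfl | rfl
    · have h5 := hq r' (by simp) hne
      rw [h1, h2] at h5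
      exact lt_irrefl _ h5
    · have h5 := hq r (by simp) (Ne.symm hne)
      rw [h1, h2] at h5
      exact lt_irrefl _ h5
  · have h1 := heq r hr
    have h2 : ∑ e ∈ E k, o e r = r + L * N := by
      have h3 : (∑ e ∈ E k, ((N:ℤ) * (o e r : ℤ) - ((r + L * N : ℕ) : ℤ))) = 0 := by
        rw [Finset.sum_congr rfl h1]
        exact le_antisymm ((Finset.sum_congr rfl h1).symm.le.trans (hSle r hr)) hsum0
      rw [Finset.sum_sub_distrib, ← Finset.mul_sum, Finset.sum_const, nsmul_eq_mul, ← hNdef,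
        ← mul_sub] at h3
      rcases mul_eq_zero.1 h3 with h4 | h4
      · have : N = 0 := by exact_mod_cast h4
        omega
      · have h5 : ((∑ e ∈ E k, o e r : ℕ) : ℤ) = ((r + L * N : ℕ) : ℤ) := by
          push_cast at h4 ⊢
          linarith
        exact_mod_cast h5
    obtain ⟨c, hc, hGc⟩ := (sum_ord_le (hG r) (hS0 r hr) (fun e => o e r) (fun e he =>
      ⟨Q e r, (hoQ e (mem_E.1 he).ne r (hS0 r hr)).1⟩)).2 h2
    exact ⟨c, hc, _, hGc⟩

end EB40
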