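import Pool.Agent.Lib.EB40.AllConst
import Pool.Agent.Lib.EB40.UnitsB

/-!
# Families of polynomials whose differences have no zeros on `PP = 1`
-/

namespace EB40

open MvPolynomial Finset

lemma E_card_pos {k : ℕ} (hk : 2 ≤ k) : 0 < (E k).card := by
  rw [Finset.card_pos]
  refine ⟨(⟨0, by omega⟩, ⟨1, by omega⟩), ?_⟩
  rw [mem_E]
  exact Nat.zero_lt_one

/-- **Structure theorem** -/
theorem structure_family {k : ℕ} (hk2 : 2 ≤ k) {I : Type*} [Fintype I] [DecidableEq I]
    (h4 : 4 ≤ Fintype.card I) (hk : k < Fintype.card I) (g : I → MvPolynomial (Fin k) ℂ)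
    (hg : ∀ i j, i ≠ j → ∀ x : Fin k → ℂ, eval x (PP k) = 1 → eval x (g i) ≠ eval x (g j)) :
    ∃ (v : Fin k × Fin k → ℕ) (c : I → I → ℂ), ∀ i j, i ≠ j → c i j ≠ 0 ∧
      ∀ x : Fin k → ℂ, eval x (PP k) = 1 →
        eval x (g i) - eval x (g j) = c i j * eval x (mono v) := by
  have hN := E_card_pos hk2
  set N := (E k).card with hNdef
  -- a common bound for the degrees
  obtain ⟨L, hL⟩ : ∃ L, ∀ i j, (g i - g j).totalDegree < N * (L + 1) := by
    refine ⟨∑ i, (g i).totalDegree, fun i j => ?_⟩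
    have h1 : ∀ i, (g i).totalDegree ≤ ∑ i, (g i).totalDegree := fun i =>
      Finset.single_le_sum (f := fun i => (g i).totalDegree) (fun _ _ => Nat.zero_le _)
        (Finset.mem_univ i)
    have h2 := totalDegree_sub (g i) (g j)
    have h3 := h1 i
    have h4 := h1 j
    have h5 : (g i - g j).totalDegree ≤ ∑ i, (g i).totalDegree := h2.trans (max_le h3 h4)
    nlinarith
  have hunit : ∀ i j, i ≠ j → ∃ r, r < N ∧ (∀ r' < N, r' ≠ r → comp L r' (g i - g j) = 0) ∧
      ∃ c : ℂ, c ≠ 0 ∧ ∃ v : Fin k × Fin k → ℕ, comp L r (g i - g j) = C c * mono v := by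
    intro i j hij
    refine unit_monomial hN L (fun r => comp L r (g i - g j)) (fun r => comp_homog L _) ?_
    intro x hx
    have h1 := sum_comp hN L (g i - g j) (hL i j) x hx
    rw [h1, map_sub, sub_ne_zero]
    exact hg i j hij x hx
  choose! r hr using hunit
  have hne : ∀ i j, i ≠ j → comp L (r i j) (g i - g j) ≠ 0 := by
    intro i j hij
    obtain ⟨-, -, c, hc, v, hv⟩ := hr i j hij
    rw [hv]
    exact mul_ne_zero (isUnit_C' hc).ne_zero (mono_ne_zero v)
  have hsymr : ∀ i j, i ≠ j → r i j = r j i := by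
    intro i j hij
    by_contra hcon
    have h1 := (hr j i hij.symm).2.1 (r i j) (hr i j hij).1 hcon
    apply hne i j hij
    have h2 : g i - g j = 0 - (g j - g i) := by ring
    rw [h2, comp_sub, h1, sub_zero]
    have h3 : comp L (r i j) (0 - 0 : MvPolynomial (Fin k) ℂ) = 0 := by rw [comp_sub, sub_self]
    rwa [sub_zero] at h3
  have hB : ∀ i j m, i ≠ j → j ≠ m → i ≠ m → r i j = r i m := by
    intro i j m ij jm im
    by_contra hcon
    -- `g i - g j = (g i - g m) - (g j - g m)`
    have e1 : g i - g j = (g i - g m) - (g j - g m) := by ring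
    have e2 : g i - g m = (g i - g j) - (g m - g j) := by ring
    have h1 : comp L (r i j) (g j - g m) ≠ 0 := by
      intro h0
      apply hne i j ij
      rw [e1, comp_sub, h0, sub_zero]
      exact (hr i m im).2.1 _ (hr i j ij).1 hcon
    have h2 : comp L (r i m) (g m - g j) ≠ 0 := by
      intro h0
      apply hne i m im
      rw [e2, comp_sub, h0, sub_zero]
      exact (hr i j ij).2.1 _ (hr i m im).1 (Ne.symm hcon)
    have h3 : r i j = r j m := by
      by_contra h; exact h1 ((hr j m jm).2.1 _ (hr i j ij).1 h)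
    have h4 : r i m = r m j := by
      by_contra h; exact h2 ((hr m j jm.symm).2.1 _ (hr i m im).1 h)
    rw [hsymr m j jm.symm] at h4
    exact hcon (h3.trans h4.symm)
  -- all residues agree
  obtain ⟨i0, j0, ij0⟩ : ∃ i0 j0 : I, i0 ≠ j0 := by
    have : 1 < Fintype.card I := by omega
    exact Fintype.one_lt_card_iff.1 this
  have hall : ∀ a b, a ≠ b → r a b = r i0 j0 := by
    intro a b ab
    by_cases ha : a = i0
    · subst ha
      by_cases hb : b = j0
      · rw [hb]
      · exact hB _ _ _ ab hb ij0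
    by_cases hb : b = i0
    · subst hb
      by_cases ha2 : a = j0
      · subst ha2; exact hsymr _ _ ab
      · rw [hsymr a b ab]
        exact hB _ _ _ ab.symm ha2 ij0
    have h1 : r a b = r a i0 := hB a b i0 ab hb ha
    rw [h1, hsymr a i0 ha]
    by_cases ha2 : a = j0
    · rw [ha2]
    · exact hB _ _ _ (Ne.symm ha) ha2 ij0
  set r0 := r i0 j0 with hr0
  have hdata : ∀ i j, ∃ (c : ℂ) (v : Fin k × Fin k → ℕ), i ≠ j →
      (c ≠ 0 ∧ comp L r0 (g i) - comp L r0 (g j) = C c * mono v) := by
    intro i j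
    by_cases hij : i = j
    · exact ⟨0, fun _ => 0, fun h => absurd hij h⟩
    · obtain ⟨-, -, c, hc, v, hv⟩ := hr i j hij
      rw [hall i j hij, comp_sub] at hv
      exact ⟨c, v, fun _ => ⟨hc, hv⟩⟩
  choose c D hcD using hdata
  have hdeg : ∀ i j, i ≠ j → ∑ e ∈ E k, D i j e = r0 + L * N := by
    intro i j hij
    obtain ⟨hc, hv⟩ := hcD i j hij
    have h1 : (C (c i j) * mono (D i j)).IsHomogeneous (r0 + L * N) := by
      rw [← hv]
      exact (comp_homog L (g i)).sub (comp_homog L (g j))
    have h2 : (C (c i j) * mono (D i j)).IsHomogeneous (0 + ∑ e ∈ E k, D i j e) :=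
      (MvPolynomial.isHomogeneous_C (Fin k) (c i j)).mul (mono_homog (D i j))
    have h0 : (C (c i j) * mono (D i j)) ≠ 0 :=
      mul_ne_zero (isUnit_C' hc).ne_zero (mono_ne_zero _)
    have h3 := h1.totalDegree h0
    have h4 := h2.totalDegree h0
    omega
  have key := all_const h4 hk (G := fun i => comp L r0 (g i)) (c := c) (D := D)
    (fun i j hij => (hcD i j hij).1) (fun i j hij => (hcD i j hij).2)
    (fun i j i' j' hij hij' => by rw [hdeg i j hij, hdeg i' j' hij'])
  refine ⟨D i0 j0, c, fun i j hij => ⟨(hcD i j hij).1, fun x hx => ?_⟩⟩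
  have h1 := sum_comp hN L (g i - g j) (hL i j) x hx
  rw [map_sub] at h1
  rw [← h1, Finset.sum_eq_single r0]
  · rw [comp_sub, (hcD i j hij).2, map_mul, eval_C]
    congr 2
    unfold mono
    refine Finset.prod_congr rfl fun e he => ?_
    rw [key i j i0 j0 hij ij0 e he]
  · intro r' hr' hne'
    rw [Finset.mem_range] at hr'
    have h2 := (hr i j hij).2.1 r' hr' (by rw [hall i j hij]; exact hne')
    rw [h2, map_zero]
  · intro h
    exact absurd (Finset.mem_range.2 (hr i0 j0 ij0).1) h

end EB40
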