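import Pool.Agent.Lib.EB40.Basic

/-!
# Relations between products of differences, restricted to a hyperplane
-/

namespace EB40

open MvPolynomial Finset

/-- the element of `E k` with the end points `a`, `b` -/
def mk {k : ℕ} (a b : Fin k) : Fin k × Fin k := if a < b then (a, b) else (b, a)

lemma mk_comm {k : ℕ} (a b : Fin k) : mk a b = mk b a := by
  unfold mk
  rcases lt_trichotomy a b with h | h | h
  · rw [if_pos h, if_neg (not_lt.2 h.le)]
  · subst h; rfl
  · rw [if_neg (not_lt.2 h.le), if_pos h]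

lemma mk_mem {k : ℕ} {a b : Fin k} (h : a ≠ b) : mk a b ∈ E k := by
  rw [mem_E]
  unfold mk
  rcases lt_or_gt_of_ne h with h | h
  · rw [if_pos h]; exact h
  · rw [if_neg (not_lt.2 h.le)]; exact h

lemma mk_of_mem {k : ℕ} {f : Fin k × Fin k} (hf : f ∈ E k) : mk f.1 f.2 = f := by
  rw [mem_E] at hf
  unfold mk
  rw [if_pos hf]

lemma mk_eq_mk {k : ℕ} {a b c d : Fin k} (h : mk a b = mk c d) :
    (a = c ∧ b = d) ∨ (a = d ∧ b = c) := by
  unfold mk at h
  split_ifs at h with h1 h2 h2 <;> simp only [Prod.mk.injEq] at h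
  · exact Or.inl h
  · exact Or.inr h
  · exact Or.inr ⟨h.2, h.1⟩
  · exact Or.inl ⟨h.2, h.1⟩

lemma mk_eq_iff {k : ℕ} {f : Fin k × Fin k} (hf : f ∈ E k) (c d : Fin k) :
    f = mk c d ↔ (f.1 = c ∧ f.2 = d) ∨ (f.1 = d ∧ f.2 = c) := by
  constructor
  · intro h
    rw [← mk_of_mem hf] at h
    exact mk_eq_mk h
  · rintro (⟨h1, h2⟩ | ⟨h1, h2⟩)
    · rw [← h1, ← h2, mk_of_mem hf]
    · rw [← h1, ← h2, mk_comm, mk_of_mem hf]

/-- symmetric exponents, zero on the diagonal -/
def sy {k : ℕ} (v : Fin k × Fin k → ℕ) (a b : Fin k) : ℤ := if a = b then 0 else (v (mk a b) : ℤ)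

lemma sy_comm {k : ℕ} (v : Fin k × Fin k → ℕ) (a b : Fin k) : sy v a b = sy v b a := by
  unfold sy
  by_cases h : a = b
  · subst h; rfl
  · rw [if_neg h, if_neg (Ne.symm h), mk_comm]

lemma sy_of_ne {k : ℕ} (v : Fin k × Fin k → ℕ) {a b : Fin k} (h : a ≠ b) :
    sy v a b = (v (mk a b) : ℤ) := by
  unfold sy; rw [if_neg h]

/-- the part of a product of differences without the pair `e` -/
noncomputable def rst {k : ℕ} (e : Fin k × Fin k) (v : Fin k × Fin k → ℕ) :
    MvPolynomial (Fin k) ℂ := ∏ f ∈ (E k).erase e, ell f ^ v f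

lemma mono_eq_rst {k : ℕ} {e : Fin k × Fin k} (he : e ∈ E k) (v : Fin k × Fin k → ℕ) :
    mono v = ell e ^ v e * rst e v :=
  (Finset.mul_prod_erase (E k) (fun f => ell f ^ v f) he).symm

lemma not_dvd_rst {k : ℕ} {e : Fin k × Fin k} (he : e ∈ E k) (v : Fin k × Fin k → ℕ) :
    ¬ ell e ∣ rst e v := by
  have hp := ell_prime (mem_E.1 he).ne
  intro h
  obtain ⟨f, hf, hdvd⟩ := hp.exists_mem_finset_dvd h
  rw [Finset.mem_erase] at hf
  exact ell_not_dvd he hf.2 (Ne.symm hf.1) (hp.dvd_of_dvd_pow hdvd)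

lemma pow_dvd_mono {k : ℕ} {e : Fin k × Fin k} (he : e ∈ E k) (v : Fin k × Fin k → ℕ) (n : ℕ) :
    ell e ^ n ∣ mono v ↔ n ≤ v e := by
  have hp := ell_prime (mem_E.1 he).ne
  constructor
  · intro h
    by_contra hlt
    push Not at hlt
    have h1 : ell e ^ (v e + 1) ∣ ell e ^ v e * rst e v := by
      rw [← mono_eq_rst he]
      exact (pow_dvd_pow _ hlt).trans h
    rw [pow_succ] at h1
    have h2 := (mul_dvd_mul_iff_left (pow_ne_zero (v e) hp.ne_zero)).1 h1
    exact not_dvd_rst he v h2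
  · intro h
    rw [mono_eq_rst he]
    exact (pow_dvd_pow _ h).mul_right _

lemma isUnit_C' {k : ℕ} {c : ℂ} (hc : c ≠ 0) : IsUnit (C c : MvPolynomial (Fin k) ℂ) :=
  (isUnit_iff_ne_zero.2 hc).map C

/-- exponents are unique -/
lemma exps_unique {k : ℕ} {c c' : ℂ} (hc : c ≠ 0) (hc' : c' ≠ 0) {v w : Fin k × Fin k → ℕ}
    (h : C c * mono v = C c' * mono w) : ∀ e ∈ E k, v e = w e := by
  intro e he
  apply le_antisymm
  · rw [← pow_dvd_mono he, ← (isUnit_C' hc').dvd_mul_left (a := ell e ^ v e), ← h]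
    exact ((pow_dvd_mono he v (v e)).2 le_rfl).mul_left _
  · rw [← pow_dvd_mono he, ← (isUnit_C' hc).dvd_mul_left (a := ell e ^ w e), h]
    exact ((pow_dvd_mono he w (w e)).2 le_rfl).mul_left _

/-- specialisation to one variable -/
noncomputable def psi {k : ℕ} (p : Fin k → ℂ) (c : Fin k) :
    MvPolynomial (Fin k) ℂ →ₐ[ℂ] Polynomial ℂ :=
  MvPolynomial.aeval (fun i => if i = c then Polynomial.X else Polynomial.C (p i))

lemma rm_prod {ι : Type*} (s : Finset ι) (F : ι → Polynomial ℂ) (h : ∀ i ∈ s, F i ≠ 0) (z : ℂ) :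
    (∏ i ∈ s, F i).rootMultiplicity z = ∑ i ∈ s, (F i).rootMultiplicity z := by
  classical
  induction s using Finset.induction_on with
  | empty =>
    rw [Finset.prod_empty, Finset.sum_empty, ← Polynomial.C_1, Polynomial.rootMultiplicity_C]
  | insert a s ha ih =>
    rw [Finset.prod_insert ha, Finset.sum_insert ha, Polynomial.rootMultiplicity_mul,
      ih fun i hi => h i (Finset.mem_insert_of_mem hi)]
    apply mul_ne_zero (h a (Finset.mem_insert_self a s))
    rw [Finset.prod_ne_zero_iff]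
    exact fun i hi => h i (Finset.mem_insert_of_mem hi)

lemma rm_pow (F : Polynomial ℂ) (h : F ≠ 0) (n : ℕ) (z : ℂ) :
    (F ^ n).rootMultiplicity z = n * F.rootMultiplicity z := by
  have := rm_prod (Finset.range n) (fun _ => F) (fun _ _ => h) z
  simpa using this

lemma psi_ell_ne_zero {k : ℕ} (p : Fin k → ℂ) (c : Fin k) (f : Fin k × Fin k) (hf : f ∈ E k)
    (hp : f.1 ≠ c → f.2 ≠ c → p f.1 ≠ p f.2) : psi p c (ell f) ≠ 0 := by
  have hlt := mem_E.1 hf
  unfold psi ell
  rw [map_sub, MvPolynomial.aeval_X, MvPolynomial.aeval_X]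
  by_cases h2 : f.2 = c
  · have h1 : f.1 ≠ c := by rw [← h2]; exact hlt.ne
    rw [if_pos h2, if_neg h1]
    exact Polynomial.X_sub_C_ne_zero _
  · by_cases h1 : f.1 = c
    · rw [if_neg h2, if_pos h1, ← neg_sub, neg_ne_zero]
      exact Polynomial.X_sub_C_ne_zero _
    · rw [if_neg h2, if_neg h1, ← Polynomial.C_sub, Polynomial.C_ne_zero, sub_ne_zero]
      exact (hp h1 h2).symm

lemma rm_psi_ell {k : ℕ} (p : Fin k → ℂ) (c : Fin k) (f : Fin k × Fin k) (hf : f ∈ E k) (z : ℂ) :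
    (psi p c (ell f)).rootMultiplicity z =
      if (f.2 = c ∧ z = p f.1) ∨ (f.1 = c ∧ z = p f.2) then 1 else 0 := by
  classical
  have hlt := mem_E.1 hf
  unfold psi ell
  rw [map_sub, MvPolynomial.aeval_X, MvPolynomial.aeval_X]
  by_cases h2 : f.2 = c
  · have h1 : f.1 ≠ c := by rw [← h2]; exact hlt.ne
    rw [if_pos h2, if_neg h1, Polynomial.rootMultiplicity_X_sub_C]
    congr 1
    simp [h2, h1]
  · by_cases h1 : f.1 = c
    · rw [if_neg h2, if_pos h1, ← neg_sub]
      have h3 : -(Polynomial.X - Polynomial.C (p f.2)) =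
          Polynomial.C (-1) * (Polynomial.X - Polynomial.C (p f.2)) := by
        rw [Polynomial.C_neg, Polynomial.C_1, neg_one_mul]
      rw [h3, Polynomial.rootMultiplicity_mul, Polynomial.rootMultiplicity_C,
        Polynomial.rootMultiplicity_X_sub_C, zero_add]
      · congr 1
        simp [h2, h1]
      · apply mul_ne_zero
        · rw [Polynomial.C_ne_zero]; norm_num
        · exact Polynomial.X_sub_C_ne_zero _
    · rw [if_neg h2, if_neg h1, ← Polynomial.C_sub, Polynomial.rootMultiplicity_C, if_neg]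
      simp [h1, h2]

end EB40
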