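import Pool.Agent.Lib.EB40.Restrict

/-!
# The exponents in a three term relation
-/

namespace EB40

open MvPolynomial Finset

/-- numbering of the vertices in which exactly `a` and `b` get the same number -/
noncomputable def nb {k : ℕ} (a b : Fin k) (i : Fin k) : ℂ :=
  if i = a then ((b : ℕ) : ℂ) else ((i : ℕ) : ℂ)

lemma nb_eq {k : ℕ} {a b i j : Fin k} (h : nb a b i = nb a b j) :
    i = j ∨ (i = a ∧ j = b) ∨ (i = b ∧ j = a) := by
  unfold nb at h
  split_ifs at h with h1 h2 h2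
  · exact Or.inl (h1.trans h2.symm)
  · have : (b : ℕ) = (j : ℕ) := by exact_mod_cast h
    exact Or.inr (Or.inl ⟨h1, (Fin.ext this).symm⟩)
  · have : (i : ℕ) = (b : ℕ) := by exact_mod_cast h
    exact Or.inr (Or.inr ⟨Fin.ext this, h2⟩)
  · have : (i : ℕ) = (j : ℕ) := by exact_mod_cast h
    exact Or.inl (Fin.ext this)

lemma rm_psi_rst {k : ℕ} {a b : Fin k} (hab : a ≠ b) (c : Fin k) (v : Fin k × Fin k → ℕ) (z : ℂ) :
    psi (nb a b) c (rst (mk a b) v) ≠ 0 ∧
    (psi (nb a b) c (rst (mk a b) v)).rootMultiplicity z =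
      ∑ f ∈ (E k).erase (mk a b), v f *
        (if (f.2 = c ∧ z = nb a b f.1) ∨ (f.1 = c ∧ z = nb a b f.2) then 1 else 0) := by
  have h1 : psi (nb a b) c (rst (mk a b) v) =
      ∏ f ∈ (E k).erase (mk a b), (psi (nb a b) c (ell f)) ^ v f := by
    unfold rst
    rw [map_prod]
    exact Finset.prod_congr rfl fun f _ => map_pow _ _ _
  have h2 : ∀ f ∈ (E k).erase (mk a b), psi (nb a b) c (ell f) ≠ 0 := by
    intro f hf
    rw [Finset.mem_erase] at hf
    apply psi_ell_ne_zero _ _ _ hf.2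
    intro _ _ heq
    rcases nb_eq heq with h | ⟨h, h'⟩ | ⟨h, h'⟩
    · exact (mem_E.1 hf.2).ne h
    · apply hf.1
      rw [← h, ← h', mk_of_mem hf.2]
    · apply hf.1
      rw [← h, ← h', mk_comm, mk_of_mem hf.2]
  constructor
  · rw [h1, Finset.prod_ne_zero_iff]
    exact fun f hf => pow_ne_zero _ (h2 f hf)
  · rw [h1, rm_prod _ _ fun f hf => pow_ne_zero _ (h2 f hf)]
    refine Finset.sum_congr rfl fun f hf => ?_
    rw [rm_pow _ (h2 f hf), rm_psi_ell _ _ _ (Finset.mem_erase.1 hf).2]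

lemma rm_one {k : ℕ} {a b c d : Fin k} (hab : a ≠ b) (hda : d ≠ a) (hdb : d ≠ b)
    (hcd : c ≠ d) (v : Fin k × Fin k → ℕ) :
    (psi (nb a b) c (rst (mk a b) v)).rootMultiplicity (nb a b d) = v (mk c d) := by
  rw [(rm_psi_rst hab c v _).2]
  rw [Finset.sum_eq_single (mk c d)]
  · rw [if_pos, mul_one]
    unfold mk
    split_ifs
    · exact Or.inr ⟨rfl, rfl⟩
    · exact Or.inl ⟨rfl, rfl⟩
  · intro f hf hne
    rw [if_neg, mul_zero]
    have hf' := (Finset.mem_erase.1 hf).2
    rintro (⟨h1, h2⟩ | ⟨h1, h2⟩)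
    · rcases nb_eq h2 with h | ⟨h, -⟩ | ⟨h, -⟩
      · exact hne ((mk_eq_iff hf' c d).2 (Or.inr ⟨h.symm, h1⟩))
      · exact hda h
      · exact hdb h
    · rcases nb_eq h2 with h | ⟨h, -⟩ | ⟨h, -⟩
      · exact hne ((mk_eq_iff hf' c d).2 (Or.inl ⟨h1, h.symm⟩))
      · exact hda h
      · exact hdb h
  · intro hn
    exfalso
    apply hn
    rw [Finset.mem_erase]
    refine ⟨?_, mk_mem hcd⟩
    intro h
    rcases mk_eq_mk h with ⟨-, h2⟩ | ⟨-, h2⟩
    · exact hdb h2
    · exact hda h2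

lemma rm_two {k : ℕ} {a b c : Fin k} (hab : a ≠ b) (hca : c ≠ a) (hcb : c ≠ b)
    (v : Fin k × Fin k → ℕ) :
    (psi (nb a b) c (rst (mk a b) v)).rootMultiplicity (nb a b b) =
      v (mk c a) + v (mk c b) := by
  rw [(rm_psi_rst hab c v _).2]
  have hne : mk c a ≠ mk c b := by
    intro h
    rcases mk_eq_mk h with ⟨-, h2⟩ | ⟨h1, -⟩
    · exact hab h2
    · exact hcb h1
  have hma : mk c a ∈ (E k).erase (mk a b) := by
    rw [Finset.mem_erase]
    refine ⟨?_, mk_mem hca⟩
    intro h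
    rcases mk_eq_mk h with ⟨h1, -⟩ | ⟨h1, -⟩
    · exact hca h1
    · exact hcb h1
  have hmb : mk c b ∈ (E k).erase (mk a b) := by
    rw [Finset.mem_erase]
    refine ⟨?_, mk_mem hcb⟩
    intro h
    rcases mk_eq_mk h with ⟨h1, -⟩ | ⟨h1, -⟩
    · exact hca h1
    · exact hcb h1
  have hnba : nb a b a = nb a b b := by
    unfold nb
    rw [if_pos rfl, if_neg hab.symm]
  have hkey : ∀ f ∈ (E k).erase (mk a b),
      ((f.2 = c ∧ nb a b b = nb a b f.1) ∨ (f.1 = c ∧ nb a b b = nb a b f.2)) ↔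
        (f = mk c a ∨ f = mk c b) := by
    intro f hf
    have hf' := (Finset.mem_erase.1 hf).2
    rw [mk_eq_iff hf', mk_eq_iff hf']
    constructor
    · rintro (⟨h1, h2⟩ | ⟨h1, h2⟩)
      · rcases nb_eq h2 with h | ⟨h, -⟩ | ⟨-, h⟩
        · exact Or.inr (Or.inr ⟨h.symm, h1⟩)
        · exact absurd h hab.symm
        · exact Or.inl (Or.inr ⟨h, h1⟩)
      · rcases nb_eq h2 with h | ⟨h, -⟩ | ⟨-, h⟩
        · exact Or.inr (Or.inl ⟨h1, h.symm⟩)
        · exact absurd h hab.symm
        · exact Or.inl (Or.inl ⟨h1, h⟩)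
    · rintro ((⟨h1, h2⟩ | ⟨h1, h2⟩) | (⟨h1, h2⟩ | ⟨h1, h2⟩))
      · right; exact ⟨h1, by rw [h2, hnba]⟩
      · left; exact ⟨h2, by rw [h1, hnba]⟩
      · right; exact ⟨h1, by rw [h2]⟩
      · left; exact ⟨h2, by rw [h1]⟩
  have hsum : ∀ f ∈ (E k).erase (mk a b), v f *
      (if (f.2 = c ∧ nb a b b = nb a b f.1) ∨ (f.1 = c ∧ nb a b b = nb a b f.2) then 1 else 0) =
      (if f = mk c a then v (mk c a) else 0) + (if f = mk c b then v (mk c b) else 0) := by
    intro f hf
    by_cases h1 : f = mk c a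
    · rw [if_pos ((hkey f hf).2 (Or.inl h1)), if_pos h1, if_neg (by rw [h1]; exact hne), h1]
      ring
    · by_cases h2 : f = mk c b
      · rw [if_pos ((hkey f hf).2 (Or.inr h2)), if_neg h1, if_pos h2, h2]
        ring
      · rw [if_neg, if_neg h1, if_neg h2]
        · ring
        · rw [hkey f hf]
          rintro (h | h)
          · exact h1 h
          · exact h2 h
  rw [Finset.sum_congr rfl hsum, Finset.sum_add_distrib, Finset.sum_ite_eq', Finset.sum_ite_eq',
    if_pos hma, if_pos hmb]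

/-- **Restriction lemma**: exponents in a relation `c₁ U + c₂ V = c₃ W`. -/
theorem restrict {k : ℕ} {c₁ c₂ c₃ : ℂ} (h1 : c₁ ≠ 0) (h2 : c₂ ≠ 0) (h3 : c₃ ≠ 0)
    {u v w : Fin k × Fin k → ℕ}
    (hrel : C c₁ * mono u + C c₂ * mono v = C c₃ * mono w) {a b : Fin k} (hab : a ≠ b)
    (hgt : sy v a b < sy u a b) :
    sy v a b = sy w a b ∧
    (∀ c, c ≠ a → c ≠ b → sy v a c + sy v b c = sy w a c + sy w b c) ∧
    (∀ c d, c ≠ d → c ≠ a → c ≠ b → d ≠ a → d ≠ b → sy v c d = sy w c d) := by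
  have he : mk a b ∈ E k := mk_mem hab
  have hp := ell_prime (mem_E.1 he).ne
  rw [sy_of_ne v hab, sy_of_ne u hab] at hgt
  have hgt' : v (mk a b) < u (mk a b) := by exact_mod_cast hgt
  have hvw : v (mk a b) = w (mk a b) := by
    rcases lt_trichotomy (v (mk a b)) (w (mk a b)) with h | h | h
    · exfalso
      have d1 : ell (mk a b) ^ (v (mk a b) + 1) ∣ C c₂ * mono v := by
        have e1 : C c₂ * mono v = C c₃ * mono w - C c₁ * mono u := by rw [← hrel]; ring
        rw [e1]
        apply dvd_sub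
        · exact ((pow_dvd_mono he w _).2 h).mul_left _
        · exact ((pow_dvd_mono he u _).2 hgt').mul_left _
      rw [(isUnit_C' h2).dvd_mul_left, pow_dvd_mono he] at d1
      omega
    · exact h
    · exfalso
      have d1 : ell (mk a b) ^ (w (mk a b) + 1) ∣ C c₃ * mono w := by
        rw [← hrel]
        apply dvd_add
        · exact ((pow_dvd_mono he u _).2 (by omega)).mul_left _
        · exact ((pow_dvd_mono he v _).2 h).mul_left _
      rw [(isUnit_C' h3).dvd_mul_left, pow_dvd_mono he] at d1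
      omega
  -- cancel
  set n := v (mk a b) with hn
  obtain ⟨m, hm⟩ : ∃ m, u (mk a b) = n + (m + 1) := ⟨u (mk a b) - n - 1, by omega⟩
  have hcancel : C c₁ * (ell (mk a b) ^ (m + 1) * rst (mk a b) u) + C c₂ * rst (mk a b) v =
      C c₃ * rst (mk a b) w := by
    have e1 : ell (mk a b) ^ n * (C c₁ * (ell (mk a b) ^ (m + 1) * rst (mk a b) u) +
        C c₂ * rst (mk a b) v) = ell (mk a b) ^ n * (C c₃ * rst (mk a b) w) := by
      rw [mono_eq_rst he u, mono_eq_rst he v, mono_eq_rst he w, ← hvw, ← hn, hm, pow_add] at hrel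
      linear_combination hrel
    exact mul_left_cancel₀ (pow_ne_zero n hp.ne_zero) e1
  have hpsi : ∀ c : Fin k, c ≠ a → c ≠ b →
      Polynomial.C c₂ * psi (nb a b) c (rst (mk a b) v) =
        Polynomial.C c₃ * psi (nb a b) c (rst (mk a b) w) := by
    intro c hca hcb
    have e0 : psi (nb a b) c (ell (mk a b)) = 0 := by
      have e1 : ∀ f : Fin k × Fin k, f = (a, b) ∨ f = (b, a) → psi (nb a b) c (ell f) = 0 := by
        rintro f (rfl | rfl)
        · unfold psi ell
          simp only [map_sub, MvPolynomial.aeval_X]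
          rw [if_neg hcb.symm, if_neg hca.symm]
          simp [nb, hab.symm]
        · unfold psi ell
          simp only [map_sub, MvPolynomial.aeval_X]
          rw [if_neg hcb.symm, if_neg hca.symm]
          simp [nb, hab.symm]
      apply e1
      unfold mk
      split_ifs
      · exact Or.inl rfl
      · exact Or.inr rfl
    have e2 := congrArg (psi (nb a b) c) hcancel
    rw [map_add, map_mul, map_mul, map_mul, map_mul, map_pow, e0] at e2
    have e3 : ∀ z : ℂ, psi (nb a b) c (C z) = Polynomial.C z := by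
      intro z
      unfold psi
      rw [MvPolynomial.aeval_C]
      rfl
    rw [e3, e3, e3, zero_pow (Nat.succ_ne_zero m), zero_mul, mul_zero, zero_add] at e2
    exact e2
  have hrm : ∀ c : Fin k, c ≠ a → c ≠ b → ∀ z : ℂ,
      (psi (nb a b) c (rst (mk a b) v)).rootMultiplicity z =
        (psi (nb a b) c (rst (mk a b) w)).rootMultiplicity z := by
    intro c hca hcb z
    have e1 := congrArg (Polynomial.rootMultiplicity z) (hpsi c hca hcb)
    rw [Polynomial.rootMultiplicity_mul, Polynomial.rootMultiplicity_mul,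
      Polynomial.rootMultiplicity_C, Polynomial.rootMultiplicity_C, zero_add, zero_add] at e1
    · exact e1
    · exact mul_ne_zero (Polynomial.C_ne_zero.2 h3) (rm_psi_rst hab c w z).1
    · exact mul_ne_zero (Polynomial.C_ne_zero.2 h2) (rm_psi_rst hab c v z).1
  refine ⟨?_, ?_, ?_⟩
  · rw [sy_of_ne v hab, sy_of_ne w hab, ← hvw]
  · intro c hca hcb
    have e1 := hrm c hca hcb (nb a b b)
    rw [rm_two hab hca hcb, rm_two hab hca hcb] at e1
    rw [sy_comm v a c, sy_comm v b c, sy_comm w a c, sy_comm w b c, sy_of_ne v hca,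
      sy_of_ne v hcb, sy_of_ne w hca, sy_of_ne w hcb]
    exact_mod_cast e1
  · intro c d hcd hca hcb hda hdb
    have e1 := hrm c hca hcb (nb a b d)
    rw [rm_one hab hda hdb hcd, rm_one hab hda hdb hcd] at e1
    rw [sy_of_ne v hcd, sy_of_ne w hcd]
    exact_mod_cast e1

end EB40
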