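import Pool.Agent.Lib.EB40.Curve

/-!
# Polynomials without zeros on `PP = 1` are products of differences
-/

namespace EB40

open MvPolynomial Finset Filter Asymptotics Topology

/-- the part of `F` of degrees congruent to `r`, made homogeneous with powers of `PP` -/
noncomputable def comp {k : ℕ} (L : ℕ) (r : ℕ) (F : MvPolynomial (Fin k) ℂ) :
    MvPolynomial (Fin k) ℂ :=
  ∑ d ∈ (range ((E k).card * (L + 1))).filter (fun d => d % (E k).card = r),
    homogeneousComponent d F * PP k ^ (L - d / (E k).card)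

lemma comp_sub {k : ℕ} (L : ℕ) (r : ℕ) (F G : MvPolynomial (Fin k) ℂ) :
    comp L r (F - G) = comp L r F - comp L r G := by
  unfold comp
  rw [← Finset.sum_sub_distrib]
  refine Finset.sum_congr rfl fun d _ => ?_
  rw [map_sub]; ring

lemma comp_homog {k : ℕ} (L : ℕ) {r : ℕ}
    (F : MvPolynomial (Fin k) ℂ) : (comp L r F).IsHomogeneous (r + L * (E k).card) := by
  unfold comp
  apply MvPolynomial.IsHomogeneous.sum
  intro d hd
  rw [Finset.mem_filter, Finset.mem_range] at hd
  obtain ⟨hd1, hd2⟩ := hd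
  have h1 := (homogeneousComponent_isHomogeneous d F).mul ((PP_homog k).pow (L - d / (E k).card))
  have h2 : d + (E k).card * (L - d / (E k).card) = r + L * (E k).card := by
    have h3 : d / (E k).card < L + 1 := by
      apply Nat.div_lt_of_lt_mul; exact hd1
    have h4 := Nat.div_add_mod d (E k).card
    rw [hd2] at h4
    have h5 : (E k).card * (L - d / (E k).card) + (E k).card * (d / (E k).card) =
        (E k).card * L := by
      rw [← mul_add]; congr 1; omega
    have h6 : L * (E k).card = (E k).card * L := mul_comm _ _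
    omega
  rwa [h2] at h1

lemma sum_comp {k : ℕ} (hN : 0 < (E k).card) (L : ℕ) (F : MvPolynomial (Fin k) ℂ)
    (hL : F.totalDegree < (E k).card * (L + 1)) (x : Fin k → ℂ) (hx : eval x (PP k) = 1) :
    ∑ r ∈ range (E k).card, eval x (comp L r F) = eval x F := by
  have h1 : ∀ r, eval x (comp L r F) =
      ∑ d ∈ (range ((E k).card * (L + 1))).filter (fun d => d % (E k).card = r),
        eval x (homogeneousComponent d F) := by
    intro r
    unfold comp
    rw [map_sum]
    refine Finset.sum_congr rfl fun d _ => ?_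
    rw [map_mul, map_pow, hx, one_pow, mul_one]
  simp only [h1]
  rw [Finset.sum_fiberwise_of_maps_to (g := fun d => d % (E k).card)
    (fun d _ => Finset.mem_range.2 (Nat.mod_lt _ hN))]
  rw [← map_sum]
  congr 1
  conv_rhs => rw [← MvPolynomial.sum_homogeneousComponent (φ := F)]
  symm
  apply Finset.sum_subset
  · intro d hd
    rw [Finset.mem_range] at hd ⊢
    omega
  · intro d _ hd
    rw [Finset.mem_range, not_lt] at hd
    exact homogeneousComponent_eq_zero _ _ (by omega)

lemma sum_ord_le {k D : ℕ} {G : MvPolynomial (Fin k) ℂ} (hG : G.IsHomogeneous D) (h0 : G ≠ 0)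
    (o : Fin k × Fin k → ℕ) (ho : ∀ e ∈ E k, ell e ^ o e ∣ G) :
    ∑ e ∈ E k, o e ≤ D ∧ (∑ e ∈ E k, o e = D → ∃ c : ℂ, c ≠ 0 ∧ G = C c * mono o) := by
  obtain ⟨Q, hQ⟩ := prod_pow_dvd G o ho
  have hQ0 : Q ≠ 0 := by
    rintro rfl; rw [mul_zero] at hQ; exact h0 hQ
  have h1 : G.totalDegree = (mono o).totalDegree + Q.totalDegree := by
    rw [hQ]; exact totalDegree_mul_of_isDomain (mono_ne_zero o) hQ0
  rw [hG.totalDegree h0, (mono_homog o).totalDegree (mono_ne_zero o)] at h1
  refine ⟨by omega, fun h2 => ?_⟩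
  have h3 : Q.totalDegree = 0 := by omega
  rw [MvPolynomial.totalDegree_eq_zero_iff_eq_C] at h3
  refine ⟨coeff 0 Q, ?_, ?_⟩
  · intro h4
    rw [h4, map_zero] at h3
    exact hQ0 h3
  · rw [hQ, mul_comm]
    congr 1

/-- Nullstellensatz: an inverse on `PP = 1` -/
lemma exists_inverse {k : ℕ} (g : MvPolynomial (Fin k) ℂ)
    (hg : ∀ x : Fin k → ℂ, eval x (PP k) = 1 → eval x g ≠ 0) :
    ∃ h : MvPolynomial (Fin k) ℂ, ∀ x : Fin k → ℂ, eval x (PP k) = 1 →
      eval x g * eval x h = 1 := by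
  set I : Ideal (MvPolynomial (Fin k) ℂ) := Ideal.span {g, PP k - 1} with hI
  have h1 : zeroLocus ℂ I = ∅ := by
    rw [hI, zeroLocus_span]
    ext x
    simp only [Set.mem_ofPred_eq, Set.mem_empty_iff_false, iff_false]
    intro h
    have h2 := h g (by simp)
    have h3 := h (PP k - 1) (by simp)
    change eval x g = 0 at h2
    change eval x (PP k - 1) = 0 at h3
    rw [map_sub, map_one, sub_eq_zero] at h3
    exact hg x h3 h2
  have h2 := vanishingIdeal_zeroLocus_eq_radical (K := ℂ) I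
  rw [h1, vanishingIdeal_empty] at h2
  have h3 : I = ⊤ := by
    rw [← Ideal.radical_eq_top]; exact h2.symm
  have h4 : (1 : MvPolynomial (Fin k) ℂ) ∈ I := by rw [h3]; trivial
  rw [hI, Ideal.mem_span_pair] at h4
  obtain ⟨a, b, hab⟩ := h4
  refine ⟨a, fun x hx => ?_⟩
  have h5 := congrArg (eval x) hab
  rw [map_add, map_mul, map_mul, map_sub, map_one, hx, sub_self, mul_zero, add_zero] at h5
  rw [mul_comm]; exact h5

/-- a homogeneous family with a minimal order -/
lemma exists_min_unique {N L : ℕ} (S : Finset ℕ) (hS : S.Nonempty)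
    (hSN : ∀ r ∈ S, r < N) (o : ℕ → ℕ) :
    ∃ r0 ∈ S, ∀ r ∈ S, r ≠ r0 →
      ((N:ℤ) * (o r0 : ℤ) - ((r0 + L * N : ℕ) : ℤ)) < ((N:ℤ) * (o r : ℤ) - ((r + L * N : ℕ) : ℤ)) := by
  obtain ⟨r0, hr0, hmin⟩ := Finset.exists_min_image S
    (fun r => ((N:ℤ) * (o r : ℤ) - ((r + L * N : ℕ) : ℤ))) hS
  refine ⟨r0, hr0, fun r hr hne => lt_of_le_of_ne (hmin r hr) ?_⟩
  intro heq
  apply hne
  have h1 := hSN r hr
  have h2 := hSN r0 hr0
  push_cast at heq
  have h3 : (N:ℤ) * ((o r : ℤ) - (o r0 : ℤ)) = (r:ℤ) - (r0:ℤ) := by linear_combination -heq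
  have h4 : (o r : ℤ) - (o r0 : ℤ) = 0 := by
    have h5 : |(r:ℤ) - (r0:ℤ)| < N := by
      rw [abs_lt]; constructor <;> omega
    by_contra h6
    have h7 : (1:ℤ) ≤ |(o r : ℤ) - (o r0 : ℤ)| := Int.one_le_abs h6
    rw [← h3, abs_mul, Nat.abs_cast] at h5
    nlinarith
  rw [h4, mul_zero] at h3
  omega

end EB40
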